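import Mathlib

set_option autoImplicit false

namespace Pool.Agent.Lib.MP_507a1e_gt

open Finset

theorem exists_cols {G : Type} [AddCommGroup G] [Fintype G] (N d : ℕ)
    (h : N ^ d < Fintype.card G) :
    ∃ H : Fin N → G, ∀ T : Finset (Fin N), T.Nonempty → T.card ≤ d → ∑ i ∈ T, H i ≠ 0 := by
  classical
  by_contra hcon
  push Not at hcon
  let bad : Finset (Fin N) → Finset (Fin N → G) := fun T => univ.filter fun H => ∑ i ∈ T, H i = 0
  have h1 : ∀ T : Finset (Fin N), T.Nonempty →
      (bad T).card * Fintype.card G ≤ Fintype.card (Fin N → G) := by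
    rintro T ⟨i, hi⟩
    rw [← card_univ, ← card_product, ← card_univ]
    refine card_le_card_of_injOn (fun p => p.1 + Pi.single i p.2) (fun _ _ => mem_univ _) ?_
    rintro ⟨H, g⟩ hp ⟨H', g'⟩ hp' heq
    simp only [coe_product, Set.mem_prod, mem_coe, bad, mem_filter, mem_univ, true_and] at hp hp'
    have h2 := congrArg (fun F : Fin N → G => ∑ j ∈ T, F j) heq
    simp only [Pi.add_apply, sum_add_distrib, hp.1, hp'.1, zero_add, Pi.single_apply, sum_ite_eq',
      hi, if_true] at h2
    subst h2
    simpa using heq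
  have h2 : (univ : Finset (Fin N → G)) ⊆
      (univ.filter fun f : Fin d → Fin N => (univ.image f).Nonempty).biUnion
        fun f => bad (univ.image f) := by
    intro H _
    obtain ⟨T, hT, hTd, hs⟩ := hcon H
    obtain ⟨i, hi⟩ := hT
    let f : Fin d → Fin N := fun j => if hj : (j : ℕ) < T.card then T.equivFin.symm ⟨j, hj⟩ else i
    have hf : univ.image f = T := by
      ext x
      simp only [mem_image, mem_univ, true_and]
      constructor
      · rintro ⟨j, rfl⟩
        simp only [f]
        split_ifs
        · exact coe_mem _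
        · exact hi
      · intro hx
        refine ⟨⟨T.equivFin ⟨x, hx⟩, (T.equivFin ⟨x, hx⟩).2.trans_le hTd⟩, ?_⟩
        simp [f]
    exact mem_biUnion.2 ⟨f, by simp only [mem_filter, mem_univ, true_and, hf]; exact ⟨i, hi⟩,
      by simp only [hf, bad, mem_filter, mem_univ, true_and, hs]⟩
  have h3 := mul_le_mul_left ((card_le_card h2).trans card_biUnion_le) (Fintype.card G)
  rw [sum_mul] at h3
  have h4 := h3.trans (sum_le_card_nsmul _ _ _ fun f hf => h1 _ (mem_filter.1 hf).2)
  have h5 : (univ.filter fun f : Fin d → Fin N => (univ.image f).Nonempty).card ≤ N ^ d :=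
    (card_filter_le _ _).trans (by simp)
  rw [card_univ, smul_eq_mul, mul_comm] at h4
  have h6 := Nat.le_of_mul_le_mul_right h4 Fintype.card_pos
  omega

theorem exists_far {A : Type} [Fintype A] (N ρ : ℕ) (c : A → Fin N → ZMod 2)
    (h : Fintype.card A * 3 ^ N < 2 ^ N * 2 ^ (N - ρ)) :
    ∃ x : Fin N → ZMod 2, ∀ a, ρ ≤ (univ.filter fun i => x i ≠ c a i).card := by
  classical
  by_contra hcon
  push Not at hcon
  let W : Finset (Fin N → ZMod 2) := univ.filter fun w => (univ.filter fun i => w i ≠ 0).card ≤ ρ
  have h1 : W.card * 2 ^ (N - ρ) ≤ 3 ^ N := by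
    have e1 := prod_univ_sum (fun _ : Fin N => (univ : Finset (ZMod 2)))
      fun _ y => if y = 0 then 2 else 1
    have e2 : (∑ y : ZMod 2, if y = 0 then 2 else 1) = 3 := by decide
    rw [Fintype.piFinset_univ, e2, prod_const, card_univ, Fintype.card_fin] at e1
    rw [e1, ← smul_eq_mul]
    refine (card_nsmul_le_sum _ _ _ fun w hw => ?_).trans
      (sum_le_sum_of_subset (subset_univ W))
    rw [prod_ite, prod_const_one, mul_one, prod_const]
    refine Nat.pow_le_pow_right (by norm_num) ?_
    have := card_filter_add_card_filter_not (s := (univ : Finset (Fin N))) fun i => w i = 0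
    have := (mem_filter.1 hw).2
    simp only [card_univ, Fintype.card_fin, ne_eq] at *
    omega
  have h2 : 2 ^ N ≤ Fintype.card A * W.card := by
    have : (univ : Finset (Fin N → ZMod 2)) ⊆ (univ ×ˢ W).image fun p => c p.1 + p.2 := by
      intro x _
      obtain ⟨a, ha⟩ := hcon x
      refine mem_image.2 ⟨(a, x - c a), ?_, by simp⟩
      simp only [mem_product, mem_univ, true_and, W, mem_filter, Pi.sub_apply, ne_eq, sub_eq_zero]
      exact ha.le
    simpa using (card_le_card this).trans card_image_le
  have := mul_le_mul_left h2 (2 ^ (N - ρ))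
  have := mul_le_mul_right h1 (Fintype.card A)
  rw [mul_assoc] at *
  omega

end Pool.Agent.Lib.MP_507a1e_gt
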