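import Mathlib

set_option autoImplicit false

noncomputable section

namespace Pool.Agent.Lib.MP_507a1e_gt

open scoped ENNReal

/-- Euclidean space R^n -/
abbrev Euc (n : ℕ) : Type := EuclideanSpace ℝ (Fin n)

/-- expansion of a map -/
def expansion {X Y : Type} [PseudoEMetricSpace X] [PseudoEMetricSpace Y] (φ : X → Y) : ℝ≥0∞ :=
  ⨆ (x : X) (y : X) (_ : x ≠ y), edist (φ x) (φ y) / edist x y

/-- contraction of a map -/
def contraction {X Y : Type} [PseudoEMetricSpace X] [PseudoEMetricSpace Y] (φ : X → Y) : ℝ≥0∞ :=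
  ⨆ (x : X) (y : X) (_ : x ≠ y), edist x y / edist (φ x) (φ y)

/-- distortion of a map -/
def distortion {X Y : Type} [PseudoEMetricSpace X] [PseudoEMetricSpace Y] (φ : X → Y) : ℝ≥0∞ :=
  expansion φ * contraction φ

/-- least distortion of an injective map into a complex Hilbert space -/
def c2 (X : Type) [PseudoEMetricSpace X] : ℝ≥0∞ :=
  ⨅ (H : Type) (_ : NormedAddCommGroup H) (_ : InnerProductSpace ℂ H) (_ : CompleteSpace H)
    (φ : X → H) (_ : Function.Injective φ), distortion φ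

/-- the map with coordinate functions f goes into l2, is injective and has least distortion -/
def OptimalMap {X ι : Type} [PseudoEMetricSpace X] (f : X → ι → ℂ) : Prop :=
  ∃ φ : X → lp (fun _ : ι => ℂ) 2,
    (∀ x u, φ x u = f x u) ∧ Function.Injective φ ∧ distortion φ = c2 X

/-- L is the integer span of a basis of R^n -/
def IsLattice {n : ℕ} (L : Submodule ℤ (Euc n)) : Prop :=
  ∃ b : Module.Basis (Fin n) ℝ (Euc n), L = Submodule.span ℤ (Set.range b)

variable {E : Type} [NormedAddCommGroup E] [InnerProductSpace ℝ E]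

/-- dual lattice -/
def dual (L : Submodule ℤ E) : AddSubgroup E where
  carrier := {u | ∀ v ∈ L, ∃ m : ℤ, inner ℝ u v = m}
  zero_mem' := fun v _ => ⟨0, by simp⟩
  add_mem' := by
    intro a b ha hb v hv
    obtain ⟨m, hm⟩ := ha v hv
    obtain ⟨k, hk⟩ := hb v hv
    exact ⟨m + k, by rw [inner_add_left, hm, hk, Int.cast_add]⟩
  neg_mem' := by
    intro a ha v hv
    obtain ⟨m, hm⟩ := ha v hv
    exact ⟨-m, by rw [inner_neg_left, hm, Int.cast_neg]⟩

/-- Voronoi cell -/
def voronoi {E : Type} [NormedAddCommGroup E] (L : Submodule ℤ E) : Set E :=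
  {x | ∀ v ∈ L, ‖x‖ ≤ ‖x - v‖}

/-- z is nonnegative, summable and even -/
def IsWeight (L : Submodule ℤ E) (z : dual L → ℝ) : Prop :=
  (∀ u, 0 ≤ z u) ∧ Summable z ∧ ∀ u, z (-u) = z u

/-- the function F_z -/
def Fz (L : Submodule ℤ E) (z : dual L → ℝ) (x : E) : ℝ :=
  2 * ∑' u : dual L, z u * (1 - Real.cos (2 * Real.pi * inner ℝ (u : E) x))

/-- the coordinates of φ_z -/
def phi (L : Submodule ℤ E) (z : dual L → ℝ) (x : E) (u : dual L) : ℂ :=
  Real.sqrt (z u) * Complex.exp (2 * Real.pi * Complex.I * inner ℝ (u : E) x)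

/-- z is optimal: the map φ_z of the flat torus into l2 of the dual lattice is injective and has
least distortion -/
def IsOptimal (L : Submodule ℤ E) (z : dual L → ℝ) : Prop :=
  ∃ f : E ⧸ L → dual L → ℂ, (∀ x : E, f (Submodule.Quotient.mk x) = phi L z x) ∧ OptimalMap f

/-- x is a most contracted point of φ_z -/
def MostContracted (L : Submodule ℤ E) (z : dual L → ℝ) (x : E) : Prop :=
  x ∈ voronoi L ∧ x ≠ 0 ∧ ∀ y ∈ voronoi L, y ≠ 0 → ‖y‖ ^ 2 / Fz L z y ≤ ‖x‖ ^ 2 / Fz L z x

end Pool.Agent.Lib.MP_507a1e_gt
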