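import Mathlib

set_option autoImplicit false

noncomputable section

namespace Pool.Agent.Lib.MP_507a1e_gt

open scoped ComplexConjugate
open Real

variable {n M : ℕ} [NeZero M]

/-- characters of a finite torus -/
def chi (k g : Fin n → ZMod M) : ℂ := ZMod.stdAddChar (∑ j, k j * g j)

theorem chi_add (k g g' : Fin n → ZMod M) : chi k (g + g') = chi k g * chi k g' := by
  simp only [chi, Pi.add_apply, mul_add, Finset.sum_add_distrib, AddChar.map_add_eq_mul]

theorem conj_chi (k g : Fin n → ZMod M) : conj (chi k g) = chi k (-g) := by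
  simp only [chi, Pi.neg_apply, mul_neg, Finset.sum_neg_distrib, ZMod.stdAddChar_apply]
  rw [AddChar.map_neg_eq_inv, Circle.coe_inv_eq_conj]

theorem sum_chi (g : Fin n → ZMod M) :
    ∑ k, chi k g = if g = 0 then (M : ℂ) ^ n else 0 := by
  have h1 : ∀ k : Fin n → ZMod M, chi k g = ∏ j, ZMod.stdAddChar (k j * g j) := by
    intro k
    rw [chi]
    induction (Finset.univ : Finset (Fin n)) using Finset.induction_on with
    | empty => simp
    | insert a s ha ih => rw [Finset.sum_insert ha, Finset.prod_insert ha, AddChar.map_add_eq_mul, ih]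
  simp only [h1]
  have h2 := Finset.prod_univ_sum (fun _ : Fin n => (Finset.univ : Finset (ZMod M)))
    fun j x => ZMod.stdAddChar (x * g j)
  rw [Fintype.piFinset_univ] at h2
  rw [← h2]
  simp only [AddChar.sum_mulShift _ (ZMod.isPrimitive_stdAddChar M), ZMod.card]
  split_ifs with h
  · simp [h]
  · obtain ⟨j, hj⟩ := Function.ne_iff.1 h
    exact Finset.prod_eq_zero (Finset.mem_univ j) (by simp [show g j ≠ 0 from hj])

variable {H : Type} [NormedAddCommGroup H] [InnerProductSpace ℂ H]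

/-- Fourier transform -/
def hat (ψ : (Fin n → ZMod M) → H) (k : Fin n → ZMod M) : H := ∑ g, chi k g • ψ g

theorem plancherel (ψ : (Fin n → ZMod M) → H) :
    ∑ k, ‖hat ψ k‖ ^ 2 = (M : ℝ) ^ n * ∑ g, ‖ψ g‖ ^ 2 := by
  have h1 : ∀ k, inner ℂ (hat ψ k) (hat ψ k)
      = ∑ g, ∑ g', chi k (g' - g) * inner ℂ (ψ g) (ψ g') := by
    intro k
    simp only [hat, sum_inner, inner_sum, inner_smul_left, inner_smul_right, conj_chi,
      Finset.mul_sum]
    rw [Finset.sum_comm]
    refine Finset.sum_congr rfl fun g _ => Finset.sum_congr rfl fun g' _ => ?_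
    rw [sub_eq_add_neg, chi_add]; ring
  have h2 : ∑ k, inner ℂ (hat ψ k) (hat ψ k) = (M : ℂ) ^ n * ∑ g, inner ℂ (ψ g) (ψ g) := by
    simp only [h1]
    rw [Finset.sum_comm, Finset.mul_sum]
    refine Finset.sum_congr rfl fun g _ => ?_
    rw [Finset.sum_comm]
    simp only [← Finset.sum_mul, sum_chi, sub_eq_zero, ite_mul, zero_mul, Finset.sum_ite_eq',
      Finset.mem_univ, if_true]
  simp only [inner_self_eq_norm_sq_to_K] at h2
  apply Complex.ofReal_injective
  push_cast
  exact h2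

theorem hat_shift (ψ : (Fin n → ZMod M) → H) (a k : Fin n → ZMod M) :
    hat (fun g => ψ (g + a) - ψ g) k = (chi k (-a) - 1) • hat ψ k := by
  rw [sub_smul, one_smul]
  simp only [hat, smul_sub, Finset.sum_sub_distrib, Finset.smul_sum, smul_smul]
  congr 1
  rw [← Equiv.sum_comp (Equiv.addRight a) fun g => (chi k (-a) * chi k g) • ψ g]
  refine Finset.sum_congr rfl fun g _ => ?_
  simp only [Equiv.coe_addRight, ← chi_add]
  congr 2; abel

theorem normSq_exp_sub_one (t : ℝ) :
    ‖Complex.exp (t * Complex.I) - 1‖ ^ 2 = 2 * (1 - cos t) := by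
  rw [Complex.sq_norm, Complex.normSq_apply]
  simp only [Complex.sub_re, Complex.exp_ofReal_mul_I_re, Complex.one_re, Complex.sub_im,
    Complex.exp_ofReal_mul_I_im, Complex.one_im]
  have := sin_sq_add_cos_sq t
  nlinarith

theorem norm_chi_sub_one (k : Fin n → ZMod M) (a : Fin n → ℤ) :
    ‖chi k (-fun j => (a j : ZMod M)) - 1‖ ^ 2
      = 2 * (1 - cos (2 * π * ∑ j, ((k j).valMinAbs : ℝ) * (a j / M))) := by
  have h1 : (∑ j, k j * (-fun j => (a j : ZMod M)) j)
      = ((-∑ j, (k j).valMinAbs * a j : ℤ) : ZMod M) := by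
    simp [Finset.sum_neg_distrib]
  rw [chi, h1, ZMod.stdAddChar_coe, ← cos_neg, ← normSq_exp_sub_one]
  congr 4
  push_cast
  simp only [← mul_div_assoc, ← Finset.sum_div]
  ring

theorem finite_bochner (ψ : (Fin n → ZMod M) → H) :
    ∃ z : (Fin n → ZMod M) → ℝ, (∀ k, 0 ≤ z k) ∧ ∀ a : Fin n → ℤ,
      2 * ∑ k, z k * (1 - cos (2 * π * ∑ j, ((k j).valMinAbs : ℝ) * (a j / M)))
        = (∑ g, ‖ψ (g + fun j => (a j : ZMod M)) - ψ g‖ ^ 2) / (M : ℝ) ^ n := by
  have hM : (0 : ℝ) < (M : ℝ) ^ n := pow_pos (Nat.cast_pos.2 (NeZero.pos M)) n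
  refine ⟨fun k => ‖hat ψ k‖ ^ 2 / ((M : ℝ) ^ n) ^ 2, fun k => by positivity, fun a => ?_⟩
  have h := plancherel fun g => ψ (g + fun j => (a j : ZMod M)) - ψ g
  simp only [hat_shift, norm_smul, mul_pow, norm_chi_sub_one] at h
  rw [eq_div_iff hM.ne', ← mul_right_inj' hM.ne', ← h, Finset.mul_sum, Finset.sum_mul,
    Finset.mul_sum]
  refine Finset.sum_congr rfl fun k _ => ?_
  field_simp

end Pool.Agent.Lib.MP_507a1e_gt
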