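import Mathlib
import Pool.Agent.Lib.MP_507a1e_gt.Fourier

set_option autoImplicit false

noncomputable section

namespace Pool.Agent.Lib.MP_507a1e_gt

open Real Filter Topology

variable {n : ℕ}

/-- pairing of an integer vector with a real vector -/
def dot (m : Fin n → ℤ) (x : Fin n → ℝ) : ℝ := ∑ j, (m j : ℝ) * x j

/-- squared norm -/
def nsq (m : Fin n → ℤ) : ℝ := ∑ j, (m j : ℝ) ^ 2

/-- the function F_z in coordinates -/
def Gz (z : (Fin n → ℤ) → ℝ) (x : Fin n → ℝ) : ℝ := 2 * ∑' m, z m * (1 - cos (2 * π * dot m x))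

/-- tight families of weights -/
structure Tight (K : ℝ) (z : (Fin n → ℤ) → ℝ) : Prop where
  nonneg : ∀ m, 0 ≤ z m
  zero : z 0 = 0
  bound : ∀ S : Finset (Fin n → ℤ), ∑ m ∈ S, z m * nsq m ≤ K

theorem one_sub_cos_le (t : ℝ) : 1 - cos t ≤ 2 := by linarith [neg_one_le_cos t]

theorem nsq_nonneg (m : Fin n → ℤ) : 0 ≤ nsq m := Finset.sum_nonneg fun _ _ => sq_nonneg _

theorem le_nsq {m : Fin n → ℤ} {R : ℕ} (h : m ∉ Fintype.piFinset fun _ => Finset.Icc (-R : ℤ) R) :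
    ((R : ℝ) + 1) ^ 2 ≤ nsq m := by
  rw [Fintype.mem_piFinset, not_forall] at h
  obtain ⟨j, hj⟩ := h
  refine le_trans ?_ (Finset.single_le_sum (f := fun j => (m j : ℝ) ^ 2) (fun _ _ => sq_nonneg _)
    (Finset.mem_univ j))
  have h1 : (R : ℤ) + 1 ≤ |m j| := by
    rw [Finset.mem_Icc, ← abs_le, not_le] at hj; exact hj
  have h2 : (R : ℝ) + 1 ≤ |(m j : ℝ)| := by exact_mod_cast h1
  rw [← sq_abs (m j : ℝ)]
  gcongr

theorem Tight.le_mul {K : ℝ} {z : (Fin n → ℤ) → ℝ} (h : Tight K z) (m : Fin n → ℤ) :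
    z m ≤ z m * nsq m := by
  by_cases hm : m = 0
  · simp [hm, h.zero]
  · have : (((0 : ℕ) : ℝ) + 1) ^ 2 ≤ nsq m := le_nsq fun h' => hm (funext fun j => by
      simpa using Fintype.mem_piFinset.1 h' j)
    exact le_mul_of_one_le_right (h.nonneg m) (by simpa using this)

theorem Tight.le {K : ℝ} {z : (Fin n → ℤ) → ℝ} (h : Tight K z) (m : Fin n → ℤ) : z m ≤ K :=
  (h.le_mul m).trans (by simpa using h.bound {m})

theorem Tight.summable {K : ℝ} {z : (Fin n → ℤ) → ℝ} (h : Tight K z) : Summable z :=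
  summable_of_sum_le h.nonneg fun S => (Finset.sum_le_sum fun m _ => h.le_mul m).trans (h.bound S)

theorem Tight.tail {K : ℝ} {z : (Fin n → ℤ) → ℝ} (h : Tight K z) {f : (Fin n → ℤ) → ℝ}
    (h0 : ∀ m, 0 ≤ f m) (h2 : ∀ m, f m ≤ 2) (R : ℕ) :
    |∑' m, z m * f m - ∑ m ∈ Fintype.piFinset fun _ => Finset.Icc (-R : ℤ) R, z m * f m|
      ≤ 2 * K / ((R : ℝ) + 1) ^ 2 := by
  set B := Fintype.piFinset fun _ : Fin n => Finset.Icc (-R : ℤ) R
  have hn : ∀ m, 0 ≤ z m * f m := fun m => mul_nonneg (h.nonneg m) (h0 m)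
  have hs : Summable fun m => z m * f m :=
    Summable.of_nonneg_of_le hn (fun m => mul_le_mul_of_nonneg_left (h2 m) (h.nonneg m))
      (h.summable.mul_right 2)
  rw [abs_of_nonneg (sub_nonneg.2 (hs.sum_le_tsum B fun m _ => hn m)), sub_le_iff_le_add']
  refine hs.tsum_le_of_sum_le fun S => ?_
  rw [← Finset.sum_inter_add_sum_sdiff S B]
  refine add_le_add (Finset.sum_le_sum_of_subset_of_nonneg Finset.inter_subset_right
    fun m _ _ => hn m) ?_
  rw [le_div_iff₀ (by positivity), Finset.sum_mul]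
  refine le_trans (Finset.sum_le_sum fun m hm => ?_)
    ((Finset.mul_sum _ _ _).ge.trans (mul_le_mul_of_nonneg_left (h.bound (S \ B)) zero_le_two))
  have := mul_le_mul (h2 m) (le_nsq (Finset.mem_sdiff.1 hm).2) (by positivity) zero_le_two
  have := mul_le_mul_of_nonneg_left this (h.nonneg m)
  linarith

theorem tendsto_tight {ι : Type*} {l : Filter ι} {K : ℝ} {zs fs : ι → (Fin n → ℤ) → ℝ}
    {z f : (Fin n → ℤ) → ℝ} (hzs : ∀ i, Tight K (zs i)) (hz : Tight K z)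
    (h0 : ∀ i m, 0 ≤ fs i m) (h2 : ∀ i m, fs i m ≤ 2) (h0' : ∀ m, 0 ≤ f m) (h2' : ∀ m, f m ≤ 2)
    (lz : ∀ m, Tendsto (fun i => zs i m) l (𝓝 (z m)))
    (lf : ∀ m, Tendsto (fun i => fs i m) l (𝓝 (f m))) :
    Tendsto (fun i => ∑' m, zs i m * fs i m) l (𝓝 (∑' m, z m * f m)) := by
  rw [Metric.tendsto_nhds]
  intro ε hε
  obtain ⟨R, hR⟩ : ∃ R : ℕ, 2 * K / ((R : ℝ) + 1) ^ 2 < ε / 3 := by
    obtain ⟨R, hR⟩ := exists_nat_gt (2 * K / (ε / 3))
    refine ⟨R, ?_⟩
    rw [div_lt_iff₀ (by positivity)] at hR ⊢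
    have : (R : ℝ) ≤ ((R : ℝ) + 1) ^ 2 := by nlinarith [(Nat.cast_nonneg R : (0 : ℝ) ≤ R)]
    nlinarith
  have h1 := tendsto_finsetSum (Fintype.piFinset fun _ : Fin n => Finset.Icc (-R : ℤ) R)
    fun m _ => (lz m).mul (lf m)
  filter_upwards [Metric.tendsto_nhds.1 h1 (ε / 3) (by positivity)] with i hi
  have a1 := abs_le.1 ((hzs i).tail (h0 i) (h2 i) R)
  have a2 := abs_le.1 (hz.tail h0' h2' R)
  rw [Real.dist_eq, abs_lt] at hi ⊢
  constructor <;> linarith [a1.1, a1.2, a2.1, a2.2, hi.1, hi.2]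

theorem step {H : Type} [NormedAddCommGroup H] [InnerProductSpace ℂ H] (M : ℕ) [NeZero M]
    {q : (Fin n → ℝ) → ℝ} {C K : ℝ} (hC : 0 ≤ C) (hK : ∀ j t, q (Pi.single j t) ≤ K * t ^ 2)
    (φ : (Fin n → ℝ) → H) (hper : ∀ x (m : Fin n → ℤ), φ (x + fun j => (m j : ℝ)) = φ x)
    (hφ : ∀ x w, q x ≤ ‖φ (w + x) - φ w‖ ^ 2 ∧ ‖φ (w + x) - φ w‖ ^ 2 ≤ C * q x) :
    ∃ z, Tight (n * (C * K)) z ∧ ∀ a : Fin n → ℤ, q (fun j => a j / M) ≤ Gz z (fun j => a j / M) ∧
      Gz z (fun j => a j / M) ≤ C * q (fun j => a j / M) := by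
  have hM : (0 : ℝ) < M := Nat.cast_pos.2 (NeZero.pos M)
  let rep : (Fin n → ZMod M) → Fin n → ℤ := fun k j => (k j).valMinAbs
  let ψ : (Fin n → ZMod M) → H := fun g => φ fun j => rep g j / M
  obtain ⟨z, hz0, hz⟩ := finite_bochner ψ
  have hψ : ∀ g (a : Fin n → ℤ), ψ (g + fun j => (a j : ZMod M))
      = φ ((fun j => (rep g j : ℝ) / M) + fun j => (a j : ℝ) / M) := by
    intro g a
    have h1 : ∀ j, ∃ t : ℤ, rep (g + fun j => (a j : ZMod M)) j = rep g j + a j + M * t := by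
      intro j
      have : (M : ℤ) ∣ rep (g + fun j => (a j : ZMod M)) j - (rep g j + a j) := by
        rw [← ZMod.intCast_zmod_eq_zero_iff_dvd]; simp [rep]
      obtain ⟨t, ht⟩ := this
      exact ⟨t, by linarith⟩
    choose t ht using h1
    rw [← hper _ t]
    simp only [ψ]
    congr 1
    ext j
    simp only [ht, Pi.add_apply]
    push_cast
    field_simp
  have hb : ∀ a : Fin n → ℤ, q (fun j => a j / M)
      ≤ 2 * ∑ k, z k * (1 - cos (2 * π * dot (rep k) fun j => a j / M)) ∧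
      2 * ∑ k, z k * (1 - cos (2 * π * dot (rep k) fun j => a j / M))
        ≤ C * q (fun j => a j / M) := by
    intro a
    have h1 := hz a
    simp only [hψ] at h1
    have hc : (Fintype.card (Fin n → ZMod M) : ℝ) = (M : ℝ) ^ n := by simp
    refine ⟨le_trans ?_ h1.ge, h1.le.trans ?_⟩
    · rw [le_div_iff₀ (pow_pos hM n), ← hc, mul_comm, ← nsmul_eq_mul]
      exact Finset.card_nsmul_le_sum _ _ _ fun g _ => (hφ _ _).1
    · rw [div_le_iff₀ (pow_pos hM n), ← hc, mul_comm, ← nsmul_eq_mul]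
      exact Finset.sum_le_card_nsmul _ _ _ fun g _ => (hφ _ _).2
  have hj : ∀ j, ∑ k, z k * (rep k j : ℝ) ^ 2 ≤ C * K := by
    intro j
    have h1 := (hb (Pi.single j 1)).2
    have e1 : (fun i => (((Pi.single j 1 : Fin n → ℤ) i : ℤ) : ℝ) / M) = Pi.single j (1 / M : ℝ) := by
      ext i; by_cases h : i = j
      · subst h; simp
      · simp [h]
    have e2 : ∀ k, dot (rep k) (Pi.single j (1 / M : ℝ)) = rep k j / M := by
      intro k; simp [dot, Pi.single_apply, div_eq_mul_inv]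
    simp only [e1, e2] at h1
    have h2 := h1.trans (mul_le_mul_of_nonneg_left (hK j _) hC)
    have h3 : ∀ k, 8 * (1 / M : ℝ) ^ 2 * (z k * (rep k j : ℝ) ^ 2)
        ≤ z k * (1 - cos (2 * π * (rep k j / M))) := by
      intro k
      have a1 : |(rep k j : ℝ)| * 2 ≤ M := by
        have := (k j).valMinAbs_mem_Ioc
        have : |rep k j| * 2 ≤ M := by
          rcases abs_cases (rep k j) with h | h <;> rw [h.1] <;> simp only [rep] <;>
            linarith [this.1, this.2]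
        exact_mod_cast this
      have a2 : |2 * π * (rep k j / M : ℝ)| ≤ π := by
        rw [abs_mul, abs_div, abs_of_pos (by positivity : 0 < 2 * π), abs_of_pos hM,
          ← mul_div_assoc, div_le_iff₀ hM]
        nlinarith [pi_pos]
      have a3 := cos_le_one_sub_mul_cos_sq a2
      have a4 : 2 / π ^ 2 * (2 * π * (rep k j / M : ℝ)) ^ 2 = 8 * (1 / M : ℝ) ^ 2 * (rep k j : ℝ) ^ 2 := by
        field_simp; ring
      have := mul_le_mul_of_nonneg_left a3 (hz0 k)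
      rw [a4] at this
      nlinarith
    have h4 := Finset.sum_le_sum fun k (_ : k ∈ Finset.univ) => h3 k
    rw [← Finset.mul_sum] at h4
    have h5 : 0 ≤ ∑ k, z k * (rep k j : ℝ) ^ 2 :=
      Finset.sum_nonneg fun k _ => mul_nonneg (hz0 k) (sq_nonneg _)
    have h6 : (0 : ℝ) < (1 / M) ^ 2 := by positivity
    nlinarith
  let z' : (Fin n → ℤ) → ℝ := fun m => ∑ k, if rep k = m ∧ m ≠ 0 then z k else 0
  have hs : ∀ (f : (Fin n → ℤ) → ℝ), f 0 = 0 → ∀ k,
      HasSum (fun m => (if rep k = m ∧ m ≠ 0 then z k else 0) * f m) (z k * f (rep k)) := by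
    intro f hf k
    convert hasSum_single (f := fun m => (if rep k = m ∧ m ≠ 0 then z k else 0) * f m) (rep k)
      (fun m hm => by simp [hm.symm]) using 1
    by_cases h : rep k = 0 <;> simp [h, hf]
  have hs' : ∀ (f : (Fin n → ℤ) → ℝ), f 0 = 0 →
      HasSum (fun m => z' m * f m) (∑ k, z k * f (rep k)) := by
    intro f hf
    simp only [z', Finset.sum_mul]
    exact hasSum_sum fun k _ => hs f hf k
  have hz' : ∀ m, 0 ≤ z' m := fun m => Finset.sum_nonneg fun k _ => by split_ifs; exacts [hz0 k, le_rfl]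
  refine ⟨z', ⟨hz', by simp [z'], fun S => ?_⟩, fun a => ?_⟩
  · refine (sum_le_hasSum S (fun m _ => mul_nonneg (hz' m) (nsq_nonneg m))
      (hs' nsq (by simp [nsq]))).trans ?_
    simp only [nsq, Finset.mul_sum]
    rw [Finset.sum_comm]
    simpa using Finset.sum_le_card_nsmul _ _ _ fun j (_ : j ∈ Finset.univ) => hj j
  · rw [Gz, (hs' (fun m => 1 - cos (2 * π * dot m fun j => a j / M)) (by simp [dot])).tsum_eq]
    exact hb a

theorem exists_z {q : (Fin n → ℝ) → ℝ} {C K : ℝ} (hq : Continuous q) (hC : 0 ≤ C) (hK0 : 0 ≤ K)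
    (hK : ∀ j t, q (Pi.single j t) ≤ K * t ^ 2)
    (h : ∀ ε : ℝ, 0 < ε → ∃ (H : Type) (_ : NormedAddCommGroup H) (_ : InnerProductSpace ℂ H)
      (φ : (Fin n → ℝ) → H), (∀ x (m : Fin n → ℤ), φ (x + fun j => (m j : ℝ)) = φ x) ∧
      ∀ x w, q x ≤ ‖φ (w + x) - φ w‖ ^ 2 ∧ ‖φ (w + x) - φ w‖ ^ 2 ≤ (C + ε) * q x) :
    ∃ z : (Fin n → ℤ) → ℝ, (∀ m, 0 ≤ z m) ∧ Summable z ∧ ∀ x, q x ≤ Gz z x ∧ Gz z x ≤ C * q x := by
  have h1 : ∀ i : ℕ, ∃ z, Tight (n * ((C + 1) * K)) z ∧ ∀ a : Fin n → ℤ,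
      q (fun j => a j / (i + 1 : ℕ)) ≤ Gz z (fun j => a j / (i + 1 : ℕ)) ∧
      Gz z (fun j => a j / (i + 1 : ℕ)) ≤ (C + 1 / ((i : ℝ) + 1)) * q (fun j => a j / (i + 1 : ℕ)) := by
    intro i
    obtain ⟨H, _, _, φ, h1, h2⟩ := h (1 / ((i : ℝ) + 1)) (by positivity)
    obtain ⟨z, hz, hz'⟩ := step (i + 1) (by positivity) hK φ h1 h2
    refine ⟨z, ⟨hz.nonneg, hz.zero, fun S => (hz.bound S).trans ?_⟩, hz'⟩
    have : 1 / ((i : ℝ) + 1) ≤ 1 := by
      rw [div_le_one (by positivity)]; linarith [(Nat.cast_nonneg i : (0 : ℝ) ≤ i)]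
    gcongr
  choose zs hzs hb using h1
  let U := hyperfilter ℕ
  have hU : (U : Filter ℕ) ≤ atTop := Nat.hyperfilter_le_atTop
  have h2 : ∀ m, ∃ c, Tendsto (fun i => zs i m) U (𝓝 c) := by
    intro m
    obtain ⟨c, -, hc⟩ := (isCompact_Icc (a := (0 : ℝ)) (b := n * ((C + 1) * K))).ultrafilter_le_nhds
      (U.map fun i => zs i m) (by
        rw [Ultrafilter.coe_map, le_principal_iff, mem_map]
        exact univ_mem' fun i => ⟨(hzs i).nonneg m, (hzs i).le m⟩)
    exact ⟨c, hc⟩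
  choose z hz using h2
  have hT : Tight (n * ((C + 1) * K)) z := by
    refine ⟨fun m => ge_of_tendsto' (hz m) fun i => (hzs i).nonneg m, ?_, fun S => ?_⟩
    · have := hz 0
      simp only [fun i => (hzs i).zero] at this
      exact tendsto_nhds_unique this tendsto_const_nhds
    · exact le_of_tendsto' (tendsto_finsetSum S fun m _ => (hz m).mul_const (nsq m))
        fun i => (hzs i).bound S
  refine ⟨z, hT.nonneg, hT.summable, fun x => ?_⟩
  let xs : ℕ → Fin n → ℝ := fun i j => (⌊x j * (i + 1 : ℕ)⌋ : ℤ) / (i + 1 : ℕ)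
  have hx : Tendsto xs U (𝓝 x) := by
    refine Tendsto.mono_left (tendsto_pi_nhds.2 fun j => ?_) hU
    have h3 : Tendsto (fun i : ℕ => x j - 1 / ((i : ℝ) + 1)) atTop (𝓝 (x j)) := by
      simpa using tendsto_const_nhds.sub (tendsto_one_div_add_atTop_nhds_zero_nat (𝕜 := ℝ))
    refine tendsto_of_tendsto_of_tendsto_of_le_of_le h3 tendsto_const_nhds (fun i => ?_) fun i => ?_
    · have := Int.lt_floor_add_one (x j * (i + 1 : ℕ))
      simp only [xs]
      rw [le_div_iff₀ (by positivity)]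
      push_cast at this ⊢
      rw [sub_mul, one_div, inv_mul_cancel₀ (by positivity)]
      linarith
    · simp only [xs]
      rw [div_le_iff₀ (by positivity)]
      exact Int.floor_le _
  have hG : Tendsto (fun i => Gz (zs i) (xs i)) U (𝓝 (Gz z x)) := by
    refine (tendsto_tight hzs hT (fun _ _ => sub_nonneg.2 (cos_le_one _))
      (fun _ _ => one_sub_cos_le _) (fun _ => sub_nonneg.2 (cos_le_one _))
      (fun _ => one_sub_cos_le _) hz fun m => ?_).const_mul 2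
    have : Continuous fun y : Fin n → ℝ => 1 - cos (2 * π * dot m y) := by unfold dot; fun_prop
    exact (this.tendsto x).comp hx
  have hq' := (hq.tendsto x).comp hx
  refine ⟨le_of_tendsto_of_tendsto' hq' hG fun i => (hb i _).1, ?_⟩
  have h4 : Tendsto (fun i : ℕ => C + 1 / ((i : ℝ) + 1)) U (𝓝 C) := by
    refine Tendsto.mono_left ?_ hU
    simpa using tendsto_const_nhds.add (tendsto_one_div_add_atTop_nhds_zero_nat (𝕜 := ℝ))
  exact le_of_tendsto_of_tendsto' hG (h4.mul hq') fun i => (hb i _).2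

end Pool.Agent.Lib.MP_507a1e_gt
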