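import Mathlib
import Pool.Agent.Lib.MP_507a1e_gt.Defs
import Pool.Agent.Lib.MP_507a1e_gt.Limit

set_option autoImplicit false

noncomputable section

namespace Pool.Agent.Lib.MP_507a1e_gt

open Real Filter Topology Module
open scoped ENNReal

theorem distortion_le {X Y : Type} [PseudoMetricSpace X] [PseudoMetricSpace Y] {φ : X → Y} {c : ℝ}
    (hc : 0 ≤ c) (h : ∀ x y, dist x y ≤ dist (φ x) (φ y) ∧ dist (φ x) (φ y) ≤ c * dist x y) :
    distortion φ ≤ ENNReal.ofReal c := by
  have h1 : expansion φ ≤ ENNReal.ofReal c := by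
    refine iSup_le fun x => iSup_le fun y => iSup_le fun _ => ENNReal.div_le_of_le_mul ?_
    rw [edist_dist, edist_dist, ← ENNReal.ofReal_mul hc]
    exact ENNReal.ofReal_le_ofReal (h x y).2
  have h2 : contraction φ ≤ 1 := by
    refine iSup_le fun x => iSup_le fun y => iSup_le fun _ => ENNReal.div_le_of_le_mul ?_
    rw [edist_dist, edist_dist, one_mul]
    exact ENNReal.ofReal_le_ofReal (h x y).1
  exact (mul_le_mul' h1 h2).trans (mul_one _).le

theorem of_distortion_lt {X Y : Type} [PseudoMetricSpace X] [MetricSpace Y] {φ : X → Y} {c : ℝ}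
    (hX : ∀ x y : X, dist x y = 0 → x = y) (hφ : Function.Injective φ) [Nontrivial X]
    (h : distortion φ < ENNReal.ofReal c) :
    ∃ l : ℝ, 0 ≤ l ∧ ∀ x y, dist x y ≤ l * dist (φ x) (φ y) ∧ l * dist (φ x) (φ y) ≤ c * dist x y := by
  have h0 : ∀ x y : X, x ≠ y → edist x y ≠ 0 := fun x y hxy h => hxy (hX x y (by
    rw [dist_edist, h]; rfl))
  have h0' : ∀ x y : X, x ≠ y → edist (φ x) (φ y) ≠ 0 := fun x y hxy h =>
    hxy (hφ (edist_eq_zero.1 h))
  have h1 : ∀ x y, x ≠ y → edist (φ x) (φ y) ≤ expansion φ * edist x y := fun x y hxy =>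
    (ENNReal.div_le_iff (h0 x y hxy) (edist_ne_top _ _)).1
      (le_iSup₂_of_le (f := fun x y => ⨆ _ : x ≠ y, edist (φ x) (φ y) / edist x y) x y
        (le_iSup (fun _ : x ≠ y => edist (φ x) (φ y) / edist x y) hxy))
  have h2 : ∀ x y, x ≠ y → edist x y ≤ contraction φ * edist (φ x) (φ y) := fun x y hxy =>
    (ENNReal.div_le_iff (h0' x y hxy) (edist_ne_top _ _)).1
      (le_iSup₂_of_le (f := fun x y => ⨆ _ : x ≠ y, edist x y / edist (φ x) (φ y)) x y
        (le_iSup (fun _ : x ≠ y => edist x y / edist (φ x) (φ y)) hxy))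
  obtain ⟨a, b, hab⟩ := exists_pair_ne X
  have e0 : expansion φ ≠ 0 := fun h => h0' a b hab (by simpa [h] using h1 a b hab)
  have c0 : contraction φ ≠ 0 := fun h => h0 a b hab (by simpa [h] using h2 a b hab)
  have hne : expansion φ * contraction φ ≠ ⊤ := ne_top_of_lt h
  have e1 : expansion φ ≠ ⊤ := fun h => hne (by rw [h, ENNReal.top_mul c0])
  have c1 : contraction φ ≠ ⊤ := fun h => hne (by rw [h, ENNReal.mul_top e0])
  have hc : (expansion φ).toReal * (contraction φ).toReal ≤ c := by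
    rw [← ENNReal.toReal_mul]
    exact ENNReal.toReal_le_of_le_ofReal (ENNReal.ofReal_pos.1 (pos_of_gt h)).le h.le
  refine ⟨(contraction φ).toReal, ENNReal.toReal_nonneg, fun x y => ?_⟩
  by_cases hxy : x = y
  · simp [hxy]
  have a1 := ENNReal.toReal_mono (ENNReal.mul_ne_top e1 (edist_ne_top _ _)) (h1 x y hxy)
  have a2 := ENNReal.toReal_mono (ENNReal.mul_ne_top c1 (edist_ne_top _ _)) (h2 x y hxy)
  rw [ENNReal.toReal_mul, ← dist_edist, ← dist_edist] at a1 a2
  refine ⟨a2, (mul_le_mul_of_nonneg_left a1 ENNReal.toReal_nonneg).trans ?_⟩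
  rw [← mul_assoc, mul_comm (contraction φ).toReal]
  exact mul_le_mul_of_nonneg_right hc dist_nonneg

variable {n : ℕ}

/-- distance to the lattice -/
def dd (L : Submodule ℤ (Euc n)) (x : Euc n) : ℝ := ‖(Submodule.Quotient.mk x : Euc n ⧸ L)‖

variable {L : Submodule ℤ (Euc n)}

theorem dd_nonneg (x : Euc n) : 0 ≤ dd L x := norm_nonneg _

theorem dd_eq (x : Euc n) : dd L x = Metric.infDist x L := QuotientAddGroup.norm_mk (S := L.toAddSubgroup) x

theorem dd_le (x : Euc n) {v : Euc n} (hv : v ∈ L) : dd L x ≤ ‖x - v‖ := by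
  rw [dd_eq, ← dist_eq_norm]; exact Metric.infDist_le_dist_of_mem hv

theorem exists_dd [DiscreteTopology L] (x : Euc n) : ∃ v ∈ L, dd L x = ‖x - v‖ := by
  have H : IsClosed (L : Set (Euc n)) :=
    @AddSubgroup.isClosed_of_discrete _ _ _ _ _ L.toAddSubgroup ‹_›
  obtain ⟨v, hv, h⟩ := H.exists_infDist_eq_dist ⟨0, L.zero_mem⟩ x
  exact ⟨v, hv, by rw [dd_eq, h, dist_eq_norm]⟩

theorem continuous_dd : Continuous (dd L) := by
  rw [show dd L = fun x => Metric.infDist x L from funext dd_eq]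
  exact Metric.continuous_infDist_pt _

theorem dist_mk (x y : Euc n) :
    dist (Submodule.Quotient.mk x : Euc n ⧸ L) (Submodule.Quotient.mk y) = dd L (x - y) := by
  rw [dist_eq_norm, ← Submodule.Quotient.mk_sub]; rfl

theorem eq_of_dist [DiscreteTopology L] (x y : Euc n ⧸ L) (h : dist x y = 0) : x = y := by
  obtain ⟨x, rfl⟩ := Submodule.Quotient.mk_surjective L x
  obtain ⟨y, rfl⟩ := Submodule.Quotient.mk_surjective L y
  obtain ⟨v, hv, h'⟩ := exists_dd (L := L) (x - y)
  rw [dist_mk, h', norm_eq_zero, sub_eq_zero] at h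
  exact (Submodule.Quotient.eq L).2 (h ▸ hv)

theorem phi_of_z [DiscreteTopology L] {z : dual L → ℝ} (h0 : ∀ u, 0 ≤ z u) (hs : Summable z) {C : ℝ}
    (hC : 0 ≤ C) (h : ∀ x, dd L x ^ 2 ≤ Fz L z x ∧ Fz L z x ≤ C ^ 2 * dd L x ^ 2) :
    ∃ φ : Euc n ⧸ L → lp (fun _ : dual L => ℂ) 2,
      (∀ (x : Euc n) (u : dual L), φ (Submodule.Quotient.mk x) u
        = Real.sqrt (z u) * Complex.exp (2 * π * Complex.I * inner ℝ (u : Euc n) x)) ∧
      Function.Injective φ ∧ distortion φ ≤ ENNReal.ofReal C := by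
  have he : ∀ (u : dual L) (x : Euc n), Complex.exp (2 * π * Complex.I * inner ℝ (u : Euc n) x)
      = Complex.exp ((2 * π * inner ℝ (u : Euc n) x : ℝ) * Complex.I) := by
    intro u x; congr 1; push_cast; ring
  let f : Euc n → lp (fun _ : dual L => ℂ) 2 := fun x =>
    ⟨fun u => Real.sqrt (z u) * Complex.exp (2 * π * Complex.I * inner ℝ (u : Euc n) x),
      memℓp_gen (by
        refine hs.congr fun u => ?_
        rw [he, norm_mul, Complex.norm_exp_ofReal_mul_I]
        simp [Real.sq_sqrt (h0 u)])⟩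
  have hf : ∀ x u, f x u
      = Real.sqrt (z u) * Complex.exp (2 * π * Complex.I * inner ℝ (u : Euc n) x) := fun _ _ => rfl
  have hd : ∀ x y, ‖f x - f y‖ ^ 2 = Fz L z (x - y) := by
    intro x y
    have := lp.norm_rpow_eq_tsum (p := 2) (by norm_num) (f x - f y)
    simp only [ENNReal.toReal_ofNat, Real.rpow_ofNat] at this
    rw [this, Fz, ← tsum_mul_left]
    refine tsum_congr fun u => ?_
    have e1 : (f x - f y) u = Real.sqrt (z u)
        * Complex.exp ((2 * π * inner ℝ (u : Euc n) y : ℝ) * Complex.I)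
        * (Complex.exp ((2 * π * inner ℝ (u : Euc n) (x - y) : ℝ) * Complex.I) - 1) := by
      rw [lp.coeFn_sub, Pi.sub_apply, hf, hf, he, he, mul_sub, mul_one, mul_assoc (Real.sqrt (z u) : ℂ),
        ← Complex.exp_add, inner_sub_right]
      congr 3; push_cast; ring
    rw [e1, norm_mul, norm_mul, Complex.norm_exp_ofReal_mul_I, mul_pow, normSq_exp_sub_one]
    simp [Real.sq_sqrt (h0 u)]
    ring
  have hper : ∀ x y, x - y ∈ L → f x = f y := by
    intro x y hxy
    have h1 := (h (x - y)).2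
    have h2 : dd L (x - y) = 0 := le_antisymm (by simpa using dd_le (x - y) hxy) (dd_nonneg _)
    rw [← hd, h2] at h1
    have : ‖f x - f y‖ ^ 2 = 0 := le_antisymm (by simpa using h1) (sq_nonneg _)
    simpa [sub_eq_zero] using this
  let φ : Euc n ⧸ L → lp (fun _ : dual L => ℂ) 2 := fun y =>
    f (Submodule.Quotient.mk_surjective L y).choose
  have hφ : ∀ x, φ (Submodule.Quotient.mk x) = f x := fun x =>
    hper _ _ ((Submodule.Quotient.eq L).1
      (Submodule.Quotient.mk_surjective L (Submodule.Quotient.mk x)).choose_spec)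
  have hb : ∀ x y, dist x y ≤ dist (φ x) (φ y) ∧ dist (φ x) (φ y) ≤ C * dist x y := by
    intro x y
    obtain ⟨x, rfl⟩ := Submodule.Quotient.mk_surjective L x
    obtain ⟨y, rfl⟩ := Submodule.Quotient.mk_surjective L y
    rw [hφ, hφ, dist_mk, dist_eq_norm]
    have := h (x - y)
    rw [← hd, ← mul_pow] at this
    exact ⟨(pow_le_pow_iff_left₀ (dd_nonneg _) (norm_nonneg _) two_ne_zero).1 this.1,
      (pow_le_pow_iff_left₀ (norm_nonneg _) (mul_nonneg hC (dd_nonneg _)) two_ne_zero).1 this.2⟩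
  refine ⟨φ, fun x u => by rw [hφ, hf], fun x y hxy => eq_of_dist x y ?_, distortion_le hC hb⟩
  exact le_antisymm (by simpa [hxy] using (hb x y).1) dist_nonneg

theorem transfer (b : Basis (Fin n) ℝ (Euc n)) (hL : L = Submodule.span ℤ (Set.range b))
    {z : (Fin n → ℤ) → ℝ} (h0 : ∀ m, 0 ≤ z m) (hs : Summable z) :
    ∃ z' : dual L → ℝ, (∀ u, 0 ≤ z' u) ∧ Summable z' ∧ ∀ x, Fz L z' x = Gz z (b.repr x) := by
  have hb : ∀ j, b j ∈ L := fun j => hL ▸ Submodule.subset_span ⟨j, rfl⟩
  let e : dual L → Fin n → ℤ := fun u j => (u.2 (b j) (hb j)).choose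
  have he : ∀ (u : dual L) j, inner ℝ (u : Euc n) (b j) = e u j := fun u j =>
    (u.2 (b j) (hb j)).choose_spec
  have he' : ∀ (u : dual L) x, inner ℝ (u : Euc n) x = dot (e u) (b.repr x) := by
    intro u x
    conv_lhs => rw [← b.sum_repr x]
    simp only [inner_sum, inner_smul_right, he, dot, mul_comm]
  have hbij : Function.Bijective e := by
    refine ⟨fun u u' h => Subtype.ext (ext_inner_right ℝ fun x => by rw [he', he', h]), fun m => ?_⟩
    let u : Euc n := (InnerProductSpace.toDual ℝ (Euc n)).symm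
      (LinearMap.toContinuousLinearMap (∑ j, (m j : ℝ) • b.coord j))
    have hu : ∀ x, inner ℝ u x = dot m (b.repr x) := by
      intro x
      rw [InnerProductSpace.toDual_symm_apply]
      simp [dot]
    refine ⟨⟨u, fun v hv => ?_⟩, funext fun j => ?_⟩
    · rw [hL, Basis.mem_span_iff_repr_mem] at hv
      choose t ht using hv
      refine ⟨∑ j, m j * t j, ?_⟩
      simp only [hu, dot, ← ht]
      simp
    · apply Int.cast_injective (α := ℝ)
      rw [← he, hu]
      simp [dot, Finsupp.single_apply]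
  let E := Equiv.ofBijective e hbij
  refine ⟨fun u => z (E u), fun u => h0 _, E.summable_iff.2 hs, fun x => ?_⟩
  rw [Fz, Gz, ← E.tsum_eq]
  simp only [he']
  rfl

theorem symmetrize {z : dual L → ℝ} (h0 : ∀ u, 0 ≤ z u) (hs : Summable z) :
    ∃ z' : dual L → ℝ, (∀ u, 0 ≤ z' u) ∧ Summable z' ∧ (∀ u, z' (-u) = z' u) ∧
      ∀ x, Fz L z' x = Fz L z x := by
  have hs' : Summable fun u => z (-u) := (Equiv.neg (dual L)).summable_iff.2 hs
  refine ⟨fun u => (z u + z (-u)) / 2, fun u => by have := h0 u; have := h0 (-u); positivity,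
    (hs.add hs').div_const 2, fun u => by simp [add_comm], fun x => ?_⟩
  have h1 : ∀ w : dual L → ℝ, (∀ u, 0 ≤ w u) → Summable w →
      Summable fun u => w u * (1 - cos (2 * π * inner ℝ (u : Euc n) x)) := fun w hw hw' =>
    Summable.of_nonneg_of_le (fun u => mul_nonneg (hw u) (sub_nonneg.2 (cos_le_one _)))
      (fun u => mul_le_mul_of_nonneg_left (one_sub_cos_le _) (hw u)) (hw'.mul_right 2)
  have h2 : ∑' u : dual L, z (-u) * (1 - cos (2 * π * inner ℝ (u : Euc n) x))
      = ∑' u : dual L, z u * (1 - cos (2 * π * inner ℝ (u : Euc n) x)) := by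
    rw [← (Equiv.neg (dual L)).tsum_eq]
    simp
  simp only [Fz, div_mul_eq_mul_div, add_mul, tsum_div_const]
  rw [(h1 z h0 hs).tsum_add (h1 _ (fun u => h0 _) hs'), h2]
  ring

theorem c2_le {X H : Type} [PseudoEMetricSpace X] [i1 : NormedAddCommGroup H]
    [i2 : InnerProductSpace ℂ H] [i3 : CompleteSpace H] {φ : X → H} (hφ : Function.Injective φ) :
    c2 X ≤ distortion φ := by
  rw [c2]
  refine iInf_le_of_le H ?_
  refine iInf_le_of_le i1 ?_
  refine iInf_le_of_le i2 ?_
  refine iInf_le_of_le i3 ?_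
  refine iInf_le_of_le φ ?_
  exact iInf_le_of_le hφ le_rfl

theorem equivFunL_symm (b : Basis (Fin n) ℝ (Euc n)) (s : Fin n → ℝ) :
    b.equivFunL.symm s = ∑ j, s j • b j := b.equivFun_symm_apply s

theorem c2_ne_top (b : Basis (Fin n) ℝ (Euc n)) (hL : L = Submodule.span ℤ (Set.range b)) :
    c2 (Euc n ⧸ L) ≠ ⊤ := by
  have : DiscreteTopology L := hL ▸ inferInstance
  let T : (Fin n → ℝ) ≃L[ℝ] Euc n := b.equivFunL.symm
  let A : ℝ := ‖(T : (Fin n → ℝ) →L[ℝ] Euc n)‖
  let B : ℝ := ‖(T.symm : Euc n →L[ℝ] Fin n → ℝ)‖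
  let z : (Fin n → ℤ) → ℝ := fun m => ∑ j, if m = Pi.single j 1 then A ^ 2 else 0
  have hz : ∀ f : (Fin n → ℤ) → ℝ, HasSum (fun m => z m * f m)
      (∑ j, A ^ 2 * f (Pi.single j 1)) := by
    intro f
    simp only [z, Finset.sum_mul]
    refine hasSum_sum fun j _ => ?_
    convert hasSum_single (f := fun m => (if m = Pi.single j 1 then A ^ 2 else 0) * f m)
      (Pi.single j 1) (fun m hm => by simp [hm]) using 1
    simp
  have h0 : ∀ m, 0 ≤ z m := fun m => Finset.sum_nonneg fun j _ => by split_ifs <;> positivity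
  obtain ⟨z', h0', hs', hF⟩ := transfer b hL h0 (by simpa using (hz fun _ => 1).summable)
  have hG : ∀ s, Gz z s = 2 * A ^ 2 * ∑ j, (1 - cos (2 * π * s j)) := by
    intro s
    rw [Gz, (hz _).tsum_eq, ← Finset.mul_sum, mul_assoc]
    simp [dot, Pi.single_apply]
  obtain ⟨φ, -, h1, h2⟩ := phi_of_z h0' hs' (C := 2 * π * A * B * Real.sqrt n) (by positivity)
    fun x => by
      rw [hF, hG]
      constructor
      · let r : Fin n → ℝ := fun j => b.repr x j - round (b.repr x j)
        have e1 : x - ∑ j, (round (b.repr x j) : ℤ) • b j = T r := by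
          conv_lhs => rw [← b.sum_repr x]
          simp only [T, r, equivFunL_symm, sub_smul,
            Finset.sum_sub_distrib, Int.cast_smul_eq_zsmul, Basis.sum_repr]
        have e2 := dd_le (L := L) x (v := ∑ j, (round (b.repr x j) : ℤ) • b j)
          (hL ▸ Submodule.sum_mem _ fun j _ => Submodule.smul_mem _ _
            (Submodule.subset_span ⟨j, rfl⟩))
        rw [e1] at e2
        have e3 := e2.trans ((T : (Fin n → ℝ) →L[ℝ] Euc n).le_opNorm r)
        have e4 : ‖r‖ ^ 2 ≤ ∑ j, (1 - cos (2 * π * b.repr x j)) := by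
          have e5 : ∀ j, r j ^ 2 ≤ 1 - cos (2 * π * b.repr x j) := by
            intro j
            have a1 : |2 * π * r j| ≤ π := by
              rw [abs_mul, abs_of_pos (by positivity : 0 < 2 * π)]
              have := abs_sub_round (b.repr x j)
              nlinarith [pi_pos]
            have a2 := cos_le_one_sub_mul_cos_sq a1
            have a3 : cos (2 * π * r j) = cos (2 * π * b.repr x j) := by
              rw [← cos_add_int_mul_two_pi _ (round (b.repr x j))]; congr 1; simp only [r]; ring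
            have a4 : 2 / π ^ 2 * (2 * π * r j) ^ 2 = 8 * r j ^ 2 := by field_simp; ring
            nlinarith [sq_nonneg (r j)]
          have e6 : 0 ≤ ∑ j, (1 - cos (2 * π * b.repr x j)) :=
            Finset.sum_nonneg fun j _ => sub_nonneg.2 (cos_le_one _)
          rw [← Real.le_sqrt (norm_nonneg _) e6, pi_norm_le_iff_of_nonneg (Real.sqrt_nonneg _)]
          intro j
          exact Real.abs_le_sqrt ((e5 j).trans (Finset.single_le_sum
            (f := fun j => 1 - cos (2 * π * b.repr x j))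
            (fun j _ => sub_nonneg.2 (cos_le_one _)) (Finset.mem_univ j)))
        have e7 := pow_le_pow_left₀ (dd_nonneg _) e3 2
        rw [mul_pow] at e7
        have e8 := mul_le_mul_of_nonneg_left e4 (sq_nonneg A)
        have e9 := mul_nonneg (sq_nonneg A) (sq_nonneg ‖r‖)
        simp only [A] at *
        nlinarith
      · obtain ⟨v, hv, hd⟩ := exists_dd (L := L) x
        have e1 : ∀ j, 1 - cos (2 * π * b.repr x j) ≤ 2 * π ^ 2 * (B * ‖x - v‖) ^ 2 := by
          intro j
          rw [hL, Basis.mem_span_iff_repr_mem] at hv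
          obtain ⟨t, ht⟩ := hv j
          have a3 : cos (2 * π * b.repr (x - v) j) = cos (2 * π * b.repr x j) := by
            rw [← cos_add_int_mul_two_pi _ t]; congr 1
            simp only [map_sub, Finsupp.sub_apply, ← ht]; simp; ring
          have a4 := one_sub_sq_div_two_le_cos (x := 2 * π * b.repr (x - v) j)
          have a5 : |b.repr (x - v) j| ≤ B * ‖x - v‖ :=
            (norm_le_pi_norm (T.symm (x - v)) j).trans
              ((T.symm : Euc n →L[ℝ] Fin n → ℝ).le_opNorm _)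
          have a6 := mul_le_mul_of_nonneg_left (pow_le_pow_left₀ (abs_nonneg _) a5 2)
            (by positivity : 0 ≤ 2 * π ^ 2)
          rw [sq_abs] at a6
          nlinarith
        have e2 := Finset.sum_le_card_nsmul _ _ _ fun j (_ : j ∈ Finset.univ) => e1 j
        have e3 := mul_le_mul_of_nonneg_left e2 (by positivity : 0 ≤ 2 * A ^ 2)
        refine e3.trans (le_of_eq ?_)
        simp only [hd, mul_pow, Real.sq_sqrt (Nat.cast_nonneg n), Finset.card_univ, Fintype.card_fin,
          nsmul_eq_mul]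
        ring
  exact ne_top_of_le_ne_top ENNReal.ofReal_ne_top ((c2_le h1).trans h2)

theorem exists_opt (b : Basis (Fin n) ℝ (Euc n)) (hL : L = Submodule.span ℤ (Set.range b))
    [Nontrivial (Euc n ⧸ L)] (P : Euc n →L[ℝ] Euc n) (hP : ∀ v ∈ L, P v ∈ L) :
    ∃ z : dual L → ℝ, (∀ u, 0 ≤ z u) ∧ Summable z ∧ ∀ x, dd L (P x) ^ 2 ≤ Fz L z x ∧
      Fz L z x ≤ (c2 (Euc n ⧸ L)).toReal ^ 2 * dd L (P x) ^ 2 := by
  have : DiscreteTopology L := hL ▸ inferInstance
  let T : (Fin n → ℝ) →L[ℝ] Euc n := P.comp (b.equivFunL.symm : (Fin n → ℝ) →L[ℝ] Euc n)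
  obtain ⟨z, h0, hs, hz⟩ := exists_z (q := fun s => dd L (T s) ^ 2)
    (C := (c2 (Euc n ⧸ L)).toReal ^ 2) (K := ‖T‖ ^ 2)
    ((continuous_dd.comp T.continuous).pow 2) (sq_nonneg _) (sq_nonneg _) (fun j t => by
      have h1 : dd L (T (Pi.single j t)) ≤ ‖T‖ * ‖(Pi.single j t : Fin n → ℝ)‖ :=
        (dd_le (T (Pi.single j t)) L.zero_mem).trans (by rw [sub_zero]; exact T.le_opNorm _)
      rw [Pi.norm_single, Real.norm_eq_abs] at h1
      simpa [mul_pow] using pow_le_pow_left₀ (dd_nonneg _) h1 2) fun ε hε => by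
      have h1 : c2 (Euc n ⧸ L) < ENNReal.ofReal (Real.sqrt ((c2 (Euc n ⧸ L)).toReal ^ 2 + ε)) := by
        rw [ENNReal.lt_ofReal_iff_toReal_lt (c2_ne_top b hL)]
        exact Real.lt_sqrt_of_sq_lt (by linarith)
      conv_lhs at h1 => rw [c2]
      simp only [iInf_lt_iff] at h1
      obtain ⟨H, i1, i2, i3, φ, hφ, h1⟩ := h1
      obtain ⟨l, hl, h2⟩ := of_distortion_lt eq_of_dist hφ h1
      refine ⟨H, i1, i2, fun s => (l : ℂ) • φ (Submodule.Quotient.mk (T s)), fun x m => ?_,
        fun x w => ?_⟩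
      · refine congrArg (fun y => (l : ℂ) • φ y) ((Submodule.Quotient.eq L).2 ?_)
        rw [map_add, add_sub_cancel_left]
        refine hP (b.equivFunL.symm fun j => (m j : ℝ)) ?_
        simp only [equivFunL_symm, Int.cast_smul_eq_zsmul]
        rw [hL]
        exact Submodule.sum_mem _ fun j _ => Submodule.smul_mem _ _
          (Submodule.subset_span ⟨j, rfl⟩)
      · have h3 := h2 (Submodule.Quotient.mk (T (w + x))) (Submodule.Quotient.mk (T w))
        rw [dist_mk, map_add, add_sub_cancel_left, dist_eq_norm] at h3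
        rw [← smul_sub, norm_smul, Complex.norm_real, Real.norm_of_nonneg hl, map_add]
        refine ⟨pow_le_pow_left₀ (dd_nonneg _) h3.1 2,
          (pow_le_pow_left₀ (by positivity) h3.2 2).trans (le_of_eq ?_)⟩
        rw [mul_pow, Real.sq_sqrt (by positivity)]
  obtain ⟨z', h0', hs', hF⟩ := transfer b hL h0 hs
  refine ⟨z', h0', hs', fun x => ?_⟩
  have := hz (b.repr x)
  have e : T (b.repr x) = P x := by
    simp only [T, ContinuousLinearMap.comp_apply, ContinuousLinearEquiv.coe_coe, equivFunL_symm,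
      Basis.sum_repr]
  rwa [← hF, e] at this

end Pool.Agent.Lib.MP_507a1e_gt
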