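import Mathlib
import Pool.Agent.Lib.MP_507a1e_gt.Torus
import Pool.Agent.Lib.MP_507a1e_gt.Code

set_option autoImplicit false

noncomputable section

namespace Pool.Agent.Lib.MP_507a1e_gt

open Real Filter Topology Module
open scoped ENNReal

theorem eight_le {t : ℝ} (h : |t| ≤ 1 / 2) : 8 * t ^ 2 ≤ 1 - cos (2 * π * t) := by
  have a1 : |2 * π * t| ≤ π := by
    rw [abs_mul, abs_of_pos (by positivity : 0 < 2 * π)]
    nlinarith [pi_pos]
  have a2 := cos_le_one_sub_mul_cos_sq a1
  have a4 : 2 / π ^ 2 * (2 * π * t) ^ 2 = 8 * t ^ 2 := by field_simp; ring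
  linarith

/-- the slack factor -/
def F2 (t : ℝ) : ℝ := (1 - cos (2 * π * t)) + (1 - cos (2 * π * (3 * t)))

theorem slack : ∃ m t0 : ℝ, 0 < m ∧ 0 < t0 ∧ t0 < 1 / 2 ∧ F2 t0 = m * t0 ^ 2 ∧
    ∀ t, m * (t - round t) ^ 2 ≤ F2 t ∧ F2 t ≤ 25 * m * (t - round t) ^ 2 := by
  have hc : ContinuousOn (fun t => F2 t / t ^ 2) (Set.Icc (1 / 6) (1 / 2)) :=
    ContinuousOn.div (by unfold F2; fun_prop) (by fun_prop) fun t ht => by
      have := ht.1; positivity
  obtain ⟨t0, ht0, hmin⟩ := isCompact_Icc.exists_isMinOn ⟨1 / 3, by constructor <;> norm_num⟩ hc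
  have hp : 0 < t0 := by linarith [ht0.1]
  have h3 : F2 t0 / t0 ^ 2 ≤ 27 / 2 := by
    have := hmin (show (1 / 3 : ℝ) ∈ Set.Icc (1 / 6) (1 / 2) by constructor <;> norm_num)
    refine le_trans this (le_of_eq ?_)
    simp only [F2]
    rw [show 2 * π * (1 / 3) = π - π / 3 by ring, show 2 * π * (3 * (1 / 3)) = 2 * π by ring,
      cos_pi_sub, cos_pi_div_three, cos_two_pi]
    norm_num
  have h8 : 8 ≤ F2 t0 / t0 ^ 2 := by
    rw [le_div_iff₀ (by positivity), F2]
    linarith [eight_le (t := t0) (by rw [abs_of_pos hp]; exact ht0.2),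
      cos_le_one (2 * π * (3 * t0))]
  refine ⟨F2 t0 / t0 ^ 2, t0, by linarith, hp, lt_of_le_of_ne ht0.2 ?_, by field_simp, fun t => ?_⟩
  · rintro rfl
    simp only [F2] at h3
    rw [show 2 * π * (1 / 2) = π by ring, show 2 * π * (3 * (1 / 2)) = π + 2 * π by ring,
      cos_add_two_pi, cos_pi] at h3
    norm_num at h3
  have e1 : F2 t = F2 |t - round t| := by
    have e2 : F2 t = F2 (t - round t) := by
      simp only [F2]
      rw [← cos_add_int_mul_two_pi (2 * π * (t - round t)) (round t),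
        ← cos_add_int_mul_two_pi (2 * π * (3 * (t - round t))) (3 * round t)]
      congr 3 <;> push_cast <;> ring
    rw [e2]
    rcases abs_choice (t - round t) with h | h <;> rw [h]
    simp only [F2, mul_neg, cos_neg]
  rw [e1, ← sq_abs (t - round t)]
  have h0 := abs_nonneg (t - round t)
  have h1 := abs_sub_round t
  generalize |t - round t| = r at *
  constructor
  · by_cases hr : 1 / 6 ≤ r
    · have : F2 t0 / t0 ^ 2 ≤ F2 r / r ^ 2 := hmin ⟨hr, h1⟩
      rwa [le_div_iff₀ (by positivity)] at this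
    · have := eight_le (t := 3 * r) (by rw [abs_of_nonneg (by positivity)]; linarith)
      simp only [F2] at *
      nlinarith [cos_le_one (2 * π * r), sq_nonneg r]
  · have a1 := one_sub_sq_div_two_le_cos (x := 2 * π * r)
    have a2 := one_sub_sq_div_two_le_cos (x := 2 * π * (3 * r))
    have a3 : π ^ 2 ≤ 10 := by nlinarith [pi_lt_d2, pi_pos]
    have a4 := mul_le_mul_of_nonneg_right a3 (sq_nonneg r)
    have a5 := mul_le_mul_of_nonneg_right h8 (sq_nonneg r)
    simp only [F2] at *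
    nlinarith

variable {n : ℕ} {L : Submodule ℤ (Euc n)}

theorem summable_F {z : dual L → ℝ} (h0 : ∀ u, 0 ≤ z u) (hs : Summable z) (x : Euc n) :
    Summable fun u => z u * (1 - cos (2 * π * inner ℝ (u : Euc n) x)) :=
  Summable.of_nonneg_of_le (fun u => mul_nonneg (h0 u) (sub_nonneg.2 (cos_le_one _)))
    (fun u => mul_le_mul_of_nonneg_left (one_sub_cos_le _) (h0 u)) (hs.mul_right 2)

theorem nontrivial_of {e : Euc n} (he : ‖e‖ = 1) (hmin : ∀ v ∈ L, v ≠ 0 → 1 ≤ ‖v‖) :
    Nontrivial (Euc n ⧸ L) := by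
  refine ⟨⟨Submodule.Quotient.mk ((1 / 2 : ℝ) • e), 0, fun h => ?_⟩⟩
  have h1 : ‖(1 / 2 : ℝ) • e‖ = 1 / 2 := by rw [norm_smul, he]; norm_num
  have := hmin _ ((Submodule.Quotient.mk_eq_zero L).1 h) fun h' => by
    rw [h'] at h1; norm_num at h1
  linarith

theorem main (b : Basis (Fin n) ℝ (Euc n)) (hL : L = Submodule.span ℤ (Set.range b))
    {e : Euc n} (he : ‖e‖ = 1) (heL : e ∈ L) (heD : e ∈ dual L)
    (hmin : ∀ v ∈ L, v ≠ 0 → 1 ≤ ‖v‖) (hC : 25 ≤ (c2 (Euc n ⧸ L)).toReal ^ 2) :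
    ∃ z : dual L → ℝ, IsWeight L z ∧ IsOptimal L z ∧
      ∃ x ∈ interior (voronoi L), MostContracted L z x := by
  classical
  have : DiscreteTopology L := hL ▸ inferInstance
  have := nontrivial_of he hmin
  let P : Euc n →L[ℝ] Euc n := ContinuousLinearMap.id ℝ _ - (innerSL ℝ e).smulRight e
  have hP : ∀ x, P x = x - inner ℝ e x • e := fun x => rfl
  have hee : inner ℝ e e = 1 := by rw [real_inner_self_eq_norm_sq, he]; norm_num
  have hPn : ∀ x, ‖x‖ ^ 2 = ‖P x‖ ^ 2 + inner ℝ e x ^ 2 := by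
    intro x
    rw [hP, norm_sub_sq_real, inner_smul_right, norm_smul, he, real_inner_comm, Real.norm_eq_abs,
      mul_one, sq_abs]
    ring
  have hPe : P e = 0 := by rw [hP, hee, one_smul, sub_self]
  have hPP : ∀ x, P (P x) = P x := by
    intro x; conv_lhs => rw [hP x, map_sub, map_smul, hPe, smul_zero, sub_zero]
  have heP : ∀ x, inner ℝ e (P x) = 0 := by
    intro x; rw [hP, inner_sub_right, inner_smul_right, hee]; ring
  have hPL : ∀ v ∈ L, P v ∈ L := by
    intro v hv
    obtain ⟨m, hm⟩ := heD v hv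
    rw [hP, hm, Int.cast_smul_eq_zsmul]
    exact L.sub_mem hv (L.smul_mem _ heL)
  obtain ⟨z1, h0, hs, hz⟩ := exists_opt b hL P hPL
  obtain ⟨m, t0, hm, ht0, ht1, hF, hF2⟩ := slack
  set C := (c2 (Euc n ⧸ L)).toReal with hCd
  let u1 : dual L := ⟨e, heD⟩
  let z2 : dual L → ℝ := fun u => (if u = u1 then 1 / (2 * m) else 0)
    + if u = 3 • u1 then 1 / (2 * m) else 0
  have hz2 : ∀ f : dual L → ℝ, HasSum (fun u => z2 u * f u)
      (1 / (2 * m) * f u1 + 1 / (2 * m) * f (3 • u1)) := by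
    intro f
    have h1 : ∀ w : dual L, HasSum (fun u => (if u = w then 1 / (2 * m) else 0) * f u)
        (1 / (2 * m) * f w) := fun w => by
      convert hasSum_single (f := fun u => (if u = w then 1 / (2 * m) else 0) * f u) w
        (fun u hu => by simp [hu]) using 1
      simp
    simpa only [z2, add_mul] using (h1 u1).add (h1 (3 • u1))
  have h0' : ∀ u, 0 ≤ z2 u := fun u => add_nonneg (by split_ifs <;> positivity)
    (by split_ifs <;> positivity)
  have hs' : Summable z2 := by simpa using (hz2 fun _ => 1).summable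
  obtain ⟨z, hz0, hzs, hzn, hzF⟩ := symmetrize (z := fun u => z1 u + z2 u)
    (fun u => add_nonneg (h0 u) (h0' u)) (hs.add hs')
  have hFz : ∀ x, Fz L z x = Fz L z1 x + F2 (inner ℝ e x) / m := by
    intro x
    rw [hzF, Fz, Fz]
    simp only [add_mul]
    rw [(summable_F h0 hs x).tsum_add (summable_F h0' hs' x), (hz2 _).tsum_eq]
    have : inner ℝ ((3 • u1 : dual L) : Euc n) x = 3 * inner ℝ e x := by
      rw [AddSubgroupClass.coe_nsmul, ← Nat.cast_smul_eq_nsmul ℝ, inner_smul_left]; simp [u1]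
    rw [this, F2]
    simp only [u1]
    field_simp
  have hb : ∀ x, dd L x ^ 2 ≤ Fz L z x ∧ Fz L z x ≤ C ^ 2 * dd L x ^ 2 := by
    intro x
    rw [hFz]
    obtain ⟨h1, h2⟩ := hz x
    obtain ⟨h3, h4⟩ := hF2 (inner ℝ e x)
    rw [mul_comm, ← le_div_iff₀ hm] at h3
    rw [mul_right_comm, ← div_le_iff₀ hm] at h4
    constructor
    · obtain ⟨v, hv, hd⟩ := exists_dd (L := L) (P x)
      have a1 := pow_le_pow_left₀ (dd_nonneg _) (dd_le x (L.add_mem (hPL v hv)
        (L.smul_mem (round (inner ℝ e x)) heL))) 2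
      have a2 := hPn (P x - v)
      rw [hPn, ← Int.cast_smul_eq_zsmul ℝ, map_sub, map_add, map_smul, hPe, smul_zero, add_zero,
        hPP, inner_sub_right, inner_add_right, heP, inner_smul_right, hee, zero_add, mul_one] at a1
      rw [map_sub, hPP, ← hd] at a2
      nlinarith [sq_nonneg (inner ℝ e (P x - v))]
    · obtain ⟨v, hv, hd⟩ := exists_dd (L := L) x
      obtain ⟨k, hk⟩ := heD v hv
      have a1 := pow_le_pow_left₀ (dd_nonneg _) (dd_le (P x) (hPL v hv)) 2
      have a2 := pow_le_pow_left₀ (abs_nonneg _) (round_le (inner ℝ e x) k) 2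
      rw [sq_abs, sq_abs] at a2
      rw [hd, hPn, map_sub, inner_sub_right, hk]
      have a3 := mul_le_mul_of_nonneg_left a1 (sq_nonneg C)
      have a4 := mul_le_mul hC a2 (sq_nonneg _) (sq_nonneg C)
      linarith
  obtain ⟨φ, hφ, hi, hd⟩ := phi_of_z hz0 hzs ENNReal.toReal_nonneg hb
  rw [ENNReal.ofReal_toReal (c2_ne_top b hL)] at hd
  have hn : ‖t0 • e‖ = t0 := by rw [norm_smul, he, mul_one, Real.norm_of_nonneg ht0.le]
  have hV : Metric.ball 0 (1 / 2) ⊆ voronoi L := by
    intro x hx v hv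
    by_cases h : v = 0
    · simp [h]
    · have := hmin v hv h
      have := norm_sub_norm_le v x
      rw [mem_ball_zero_iff] at hx
      rw [norm_sub_rev]
      linarith
  have hx : t0 • e ∈ interior (voronoi L) :=
    interior_maximal hV Metric.isOpen_ball (by rwa [mem_ball_zero_iff, hn])
  refine ⟨z, ⟨hz0, hzs, hzn⟩, ⟨fun x u => φ x u, fun x => funext (hφ x), φ, fun _ _ => rfl, hi,
    le_antisymm hd (c2_le hi)⟩, t0 • e, hx, interior_subset hx,
    fun h => ht0.ne' (by rw [← hn, h, norm_zero]), fun y hy _ => ?_⟩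
  have e1 : Fz L z (t0 • e) = t0 ^ 2 := by
    have h1 := hz (t0 • e)
    have h2 : dd L 0 = 0 := by simp [dd]
    rw [map_smul, hPe, smul_zero, h2] at h1
    have h3 : Fz L z1 (t0 • e) = 0 := le_antisymm (by simpa using h1.2) (by simpa using h1.1)
    rw [hFz, inner_smul_right, hee, mul_one, hF, h3]
    field_simp
    simp
  rw [e1, hn, div_self (by positivity)]
  obtain ⟨v, hv, hd⟩ := exists_dd (L := L) y
  have h1 := (hb y).1
  exact div_le_one_of_le₀ ((pow_le_pow_left₀ (norm_nonneg _) (hd ▸ hy v hv) 2).trans h1)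
    ((sq_nonneg _).trans h1)

variable {N k : ℕ}

/-- the lattice of a binary code, times one more copy of the integers -/
def lat (H : Fin N → Fin k → ZMod 2) : Submodule ℤ (Euc (N + 1)) where
  carrier := {v | ∃ (m : Fin (N + 1) → ℤ) (a : Fin k → ZMod 2), (∀ i, v i = m i) ∧
    ∀ i, (m i.succ : ZMod 2) = ∑ j, a j * H i j}
  zero_mem' := ⟨0, 0, by simp, by simp⟩
  add_mem' := by
    rintro v w ⟨m, a, h1, h2⟩ ⟨m', a', h1', h2'⟩
    exact ⟨m + m', a + a', fun i => by simp [h1, h1'],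
      fun i => by simp [h2, h2', add_mul, Finset.sum_add_distrib]⟩
  smul_mem' := by
    rintro c v ⟨m, a, h1, h2⟩
    exact ⟨c • m, fun j => c * a j, fun i => by simp [h1],
      fun i => by simp [h2, Finset.mul_sum, mul_assoc]⟩

variable (H : Fin N → Fin k → ZMod 2)

theorem lat_min : ∀ v ∈ lat H, v ≠ 0 → 1 ≤ ‖v‖ := by
  rintro v ⟨m, a, h1, -⟩ hv
  obtain ⟨i, hi⟩ : ∃ i, m i ≠ 0 := by
    by_contra h
    push Not at h
    exact hv (by ext i; simp [h1, h])
  refine le_trans ?_ (PiLp.norm_apply_le v i)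
  rw [h1, Int.norm_cast_real, Int.norm_eq_abs]
  exact_mod_cast Int.one_le_abs hi

theorem lat_two (i : Fin (N + 1)) : EuclideanSpace.single i (2 : ℝ) ∈ lat H := by
  refine ⟨Pi.single i 2, 0, fun j => ?_, fun j => ?_⟩
  · by_cases h : j = i <;> simp [h]
  · by_cases h : j.succ = i
    · simp only [h, Pi.single_eq_same, Pi.zero_apply, zero_mul, Finset.sum_const_zero]; rfl
    · simp [h]

theorem lat_basis : ∃ b : Basis (Fin (N + 1)) ℝ (Euc (N + 1)),
    lat H = Submodule.span ℤ (Set.range b) := by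
  have : DiscreteTopology (lat H) := by
    rw [discreteTopology_iff_isOpen_singleton_zero]
    suffices h : ({0} : Set (lat H)) = Metric.ball 0 1 from h ▸ Metric.isOpen_ball
    ext v
    rw [mem_ball_zero_iff, Set.mem_singleton_iff]
    refine ⟨fun h => by simp [h], fun h => ?_⟩
    by_contra h'
    exact (lat_min H v v.2 fun h'' => h' (Subtype.ext h'')).not_gt h
  have : IsZLattice ℝ (lat H) := by
    refine ⟨top_le_iff.1 fun x _ => ?_⟩
    have : x = ∑ i, (x i / 2) • EuclideanSpace.single i (2 : ℝ) := by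
      ext j; simp [Pi.single_apply]
    rw [this]
    exact Submodule.sum_mem _ fun i _ => Submodule.smul_mem _ _
      (Submodule.subset_span (lat_two H i))
  have := ZLattice.module_free ℝ (lat H)
  have := ZLattice.module_finite ℝ (lat H)
  exact ⟨(Module.finBasisOfFinrankEq ℤ (lat H) ((ZLattice.rank ℝ _).trans
    finrank_euclideanSpace_fin)).ofZLatticeBasis ℝ (lat H), (Basis.ofZLatticeBasis_span _ _ _).symm⟩

theorem pointwise {d : ℕ} (hH : ∀ T : Finset (Fin N), T.Nonempty → T.card ≤ d → ∑ i ∈ T, H i ≠ 0)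
    (x : Euc (N + 1)) (y : Fin N → ℤ) (hx0 : x 0 = 0) (hx : ∀ i : Fin N, x i.succ = y i)
    (u : dual (lat H)) :
    (d + 1) * (1 - cos (2 * π * inner ℝ (u : Euc (N + 1)) x)) ≤ ∑ i : Fin N,
      (1 - cos (2 * π * inner ℝ (u : Euc (N + 1)) (EuclideanSpace.single i.succ (1 : ℝ)))) := by
  classical
  obtain ⟨u, hu⟩ := u
  have h1 : ∀ i : Fin N, ∃ w : ℤ, 2 * u i.succ = w := fun i => by
    simpa [EuclideanSpace.inner_single_right] using hu _ (lat_two H i.succ)
  choose w hw using h1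
  let T : Finset (Fin N) := Finset.univ.filter fun i => Odd (w i)
  have hin : ∀ v : Euc (N + 1), v 0 = 0 → inner ℝ u v = ∑ i : Fin N, v i.succ * u i.succ := by
    intro v hv
    simp [PiLp.inner_apply, Fin.sum_univ_succ, hv]
  have hT : ∑ i ∈ T, H i = 0 := by
    ext j
    obtain ⟨t, ht⟩ := hu (WithLp.toLp 2 (Fin.cons 0 fun i => ((H i j).val : ℝ)))
      ⟨Fin.cons 0 fun i => (H i j).val, Pi.single j 1, fun i => by
        induction i using Fin.cases <;> simp, fun i => by simp [Pi.single_apply]⟩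
    rw [hin _ rfl] at ht
    have h2 : ∑ i, ((H i j).val : ℤ) * w i = 2 * t := by
      apply Int.cast_injective (α := ℝ)
      push_cast
      rw [← ht, Finset.mul_sum]
      exact Finset.sum_congr rfl fun i _ => by simp [← hw]; ring
    have h3 := congrArg (Int.cast : ℤ → ZMod 2) h2
    push_cast at h3
    rw [show (2 : ZMod 2) = 0 from rfl, zero_mul] at h3
    rw [Finset.sum_apply, Finset.sum_filter, Pi.zero_apply]
    refine (Finset.sum_congr rfl fun i _ => ?_).trans h3
    split_ifs with h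
    · simp [ZMod.intCast_eq_one_iff_odd.2 h]
    · simp [ZMod.intCast_eq_zero_iff_even.2 (Int.not_odd_iff_even.1 h)]
  have h0 : ∀ t : ℝ, 0 ≤ 1 - cos t := fun t => sub_nonneg.2 (cos_le_one _)
  by_cases hne : T.Nonempty
  · have hd : (d : ℝ) + 1 ≤ T.card := by
      have : d + 1 ≤ T.card := not_le.1 fun h => hH T hne h hT
      exact_mod_cast this
    refine le_trans ?_ (Finset.sum_le_sum_of_subset_of_nonneg (Finset.subset_univ T)
      fun _ _ _ => h0 _)
    rw [Finset.sum_congr rfl (g := fun _ => (2 : ℝ)) fun i hi => ?_]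
    · rw [Finset.sum_const, nsmul_eq_mul]
      exact mul_le_mul hd (one_sub_cos_le _) (h0 _) (by positivity)
    · obtain ⟨s, hs⟩ := (Finset.mem_filter.1 hi).2
      have : 2 * π * inner ℝ u (EuclideanSpace.single i.succ (1 : ℝ)) = π + s * (2 * π) := by
        have := hw i
        rw [hs] at this
        push_cast at this
        simp only [EuclideanSpace.inner_single_right, conj_trivial, one_mul]
        linear_combination π * this
      rw [this, cos_add_int_mul_two_pi, cos_pi]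
      norm_num
  · have h2 : ∀ i : Fin N, ∃ s : ℤ, u i.succ = s := by
      intro i
      obtain ⟨s, hs⟩ : Even (w i) := Int.not_odd_iff_even.1 fun h =>
        hne ⟨i, Finset.mem_filter.2 ⟨Finset.mem_univ _, h⟩⟩
      have := hw i
      rw [hs] at this
      push_cast at this
      exact ⟨s, by linarith⟩
    choose s hs using h2
    have : 2 * π * inner ℝ u x = (∑ i, y i * s i : ℤ) * (2 * π) := by
      rw [hin x hx0, mul_comm]
      simp [hx, hs]
    rw [this, cos_int_mul_two_pi, sub_self, mul_zero]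
    exact Finset.sum_nonneg fun _ _ => h0 _

theorem lower {d ρ : ℕ} (hH : ∀ T : Finset (Fin N), T.Nonempty → T.card ≤ d → ∑ i ∈ T, H i ≠ 0)
    (h : 2 ^ k * 3 ^ N < 2 ^ N * 2 ^ (N - ρ)) :
    (d + 1) * ρ ≤ N * (c2 (Euc (N + 1) ⧸ lat H)).toReal ^ 2 := by
  classical
  obtain ⟨b, hb⟩ := lat_basis H
  have : DiscreteTopology (lat H) := hb ▸ inferInstance
  have := nontrivial_of (e := EuclideanSpace.single 0 1) (by simp) (lat_min H)
  obtain ⟨z, h0, hs, hz⟩ := exists_opt b hb (ContinuousLinearMap.id ℝ _) fun _ h => h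
  simp only [ContinuousLinearMap.id_apply] at hz
  obtain ⟨y, hy⟩ := exists_far N ρ (fun (a : Fin k → ZMod 2) i => ∑ j, a j * H i j) (by simpa using h)
  let x : Euc (N + 1) := WithLp.toLp 2 (Fin.cons 0 fun i => ((y i).val : ℝ))
  have h1 : (ρ : ℝ) ≤ Fz _ z x := by
    refine le_trans ?_ (hz x).1
    obtain ⟨v, ⟨m, a, h1, h2⟩, hd⟩ := exists_dd (L := lat H) x
    rw [hd, EuclideanSpace.real_norm_sq_eq, Fin.sum_univ_succ]
    refine le_trans ?_ (le_add_of_nonneg_left (sq_nonneg _))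
    refine le_trans ?_ (Finset.sum_le_sum_of_subset_of_nonneg (Finset.subset_univ
      (Finset.univ.filter fun i => y i ≠ ∑ j, a j * H i j)) fun _ _ _ => sq_nonneg _)
    refine le_trans (Nat.cast_le.2 (hy a)) ?_
    rw [Finset.card_eq_sum_ones, Nat.cast_sum]
    refine Finset.sum_le_sum fun i hi => ?_
    have h3 : ((y i).val : ℤ) - m i.succ ≠ 0 := fun h => (Finset.mem_filter.1 hi).2 (by
      rw [← h2, ← sub_eq_zero.1 h]; simp)
    have h4 : 1 ≤ (((y i).val : ℤ) - m i.succ) ^ 2 := by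
      rw [← sq_abs]; exact one_le_pow₀ (Int.one_le_abs h3)
    simp only [x, PiLp.sub_apply, Fin.cons_succ, h1]
    exact_mod_cast h4
  have h2 : (d + 1) * Fz _ z x ≤ ∑ i : Fin N, Fz _ z (EuclideanSpace.single i.succ (1 : ℝ)) := by
    simp only [Fz]
    rw [← Finset.mul_sum, ← Summable.tsum_finsetSum fun i _ => summable_F h0 hs _, mul_left_comm,
      ← tsum_mul_left]
    refine mul_le_mul_of_nonneg_left (Summable.tsum_le_tsum (fun u => ?_)
      ((summable_F h0 hs _).mul_left _) (summable_sum fun i _ => summable_F h0 hs _)) zero_le_two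
    rw [← Finset.mul_sum, mul_left_comm]
    exact mul_le_mul_of_nonneg_left
      (pointwise H hH x (fun i => (y i).val) rfl (fun i => by simp [x]) u) (h0 u)
  refine (mul_le_mul_of_nonneg_left h1 (by positivity)).trans (h2.trans ?_)
  refine (Finset.sum_le_card_nsmul _ _ _ fun i _ => (hz _).2.trans
    (mul_le_of_le_one_right (sq_nonneg _) ?_)).trans (by simp)
  refine pow_le_one₀ (dd_nonneg _) ((dd_le _ (lat H).zero_mem).trans (by simp))

theorem final {d ρ : ℕ} (h1 : N ^ d < 2 ^ k) (h2 : 2 ^ k * 3 ^ N < 2 ^ N * 2 ^ (N - ρ))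
    (h3 : 25 * N ≤ (d + 1) * ρ) (hN : 0 < N) :
    ∃ L : Submodule ℤ (Euc (N + 1)), IsLattice L ∧ ∃ z : dual L → ℝ, IsWeight L z ∧
      IsOptimal L z ∧ ∃ x ∈ interior (voronoi L), MostContracted L z x := by
  obtain ⟨H, hH⟩ := exists_cols (G := Fin k → ZMod 2) N d (by simpa using h1)
  obtain ⟨b, hb⟩ := lat_basis H
  refine ⟨lat H, ⟨b, hb⟩, ?_⟩
  refine main b hb (e := EuclideanSpace.single 0 1) (by simp)
    ⟨Pi.single 0 1, 0, fun j => by by_cases h : j = 0 <;> simp [h], fun j => by simp⟩ ?_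
    (lat_min H) ?_
  · rintro v ⟨m, a, h, -⟩
    exact ⟨m 0, by simp [EuclideanSpace.inner_single_left, h]⟩
  · have := lower H hH h2
    have h4 : (25 : ℝ) * N ≤ (d + 1) * ρ := by exact_mod_cast h3
    have h5 : (0 : ℝ) < N := by exact_mod_cast hN
    nlinarith

theorem num1 {N a d : ℕ} (h : N = 2 ^ a) (hk : a * d < k) : N ^ d < 2 ^ k := by
  rw [h, ← pow_mul]
  exact Nat.pow_lt_pow_right (by norm_num) hk

theorem num2 {N a ρ : ℕ} (h1 : N ≤ 5 * a) (h2 : k + 8 * a < N + (N - ρ)) :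
    2 ^ k * 3 ^ N < 2 ^ N * 2 ^ (N - ρ) := by
  have h : 3 ^ N ≤ 2 ^ (8 * a) := by
    refine (Nat.pow_le_pow_right (by norm_num) h1).trans ?_
    rw [pow_mul, pow_mul]
    exact Nat.pow_le_pow_left (by norm_num) _
  refine (Nat.mul_le_mul_left _ h).trans_lt ?_
  rw [← pow_add, ← pow_add]
  exact Nat.pow_lt_pow_right (by norm_num) h2

end Pool.Agent.Lib.MP_507a1e_gt
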