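import Mathlib
import Pool.Agent.Lib.MP_507a1e_gt.Main

set_option autoImplicit false

noncomputable section

namespace Pool.Agent.Lib.MP_507a1e_gt.Ev

open Real Filter Topology Module
open scoped ENNReal

theorem of_distortion_ne_top {X Y : Type} [PseudoMetricSpace X] [MetricSpace Y] {φ : X → Y}
    (hX : ∀ x y : X, dist x y = 0 → x = y) (hφ : Function.Injective φ) [Nontrivial X]
    (hne : distortion φ ≠ ⊤) :
    ∃ l : ℝ, 0 ≤ l ∧ ∀ x y, dist x y ≤ l * dist (φ x) (φ y) ∧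
      l * dist (φ x) (φ y) ≤ (distortion φ).toReal * dist x y := by
  have h0 : ∀ x y : X, x ≠ y → edist x y ≠ 0 := fun x y hxy h => hxy (hX x y (by
    rw [dist_edist, h]; rfl))
  have h0' : ∀ x y : X, x ≠ y → edist (φ x) (φ y) ≠ 0 := fun x y hxy h =>
    hxy (hφ (edist_eq_zero.1 h))
  have h1 : ∀ x y, x ≠ y → edist (φ x) (φ y) ≤ expansion φ * edist x y := fun x y hxy =>
    (ENNReal.div_le_iff (h0 x y hxy) (edist_ne_top _ _)).1
      (le_iSup₂_of_le (f := fun x y => ⨆ _ : x ≠ y, edist (φ x) (φ y) / edist x y) x y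
        (le_iSup (fun _ : x ≠ y => edist (φ x) (φ y) / edist x y) hxy))
  have h2 : ∀ x y, x ≠ y → edist x y ≤ contraction φ * edist (φ x) (φ y) := fun x y hxy =>
    (ENNReal.div_le_iff (h0' x y hxy) (edist_ne_top _ _)).1
      (le_iSup₂_of_le (f := fun x y => ⨆ _ : x ≠ y, edist x y / edist (φ x) (φ y)) x y
        (le_iSup (fun _ : x ≠ y => edist x y / edist (φ x) (φ y)) hxy))
  obtain ⟨a, b, hab⟩ := exists_pair_ne X
  have e0 : expansion φ ≠ 0 := fun h => h0' a b hab (by simpa [h] using h1 a b hab)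
  have c0 : contraction φ ≠ 0 := fun h => h0 a b hab (by simpa [h] using h2 a b hab)
  rw [distortion] at hne
  have e1 : expansion φ ≠ ⊤ := fun h => hne (by rw [h, ENNReal.top_mul c0])
  have c1 : contraction φ ≠ ⊤ := fun h => hne (by rw [h, ENNReal.mul_top e0])
  refine ⟨(contraction φ).toReal, ENNReal.toReal_nonneg, fun x y => ?_⟩
  by_cases hxy : x = y
  · simp [hxy]
  have a1 := ENNReal.toReal_mono (ENNReal.mul_ne_top e1 (edist_ne_top _ _)) (h1 x y hxy)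
  have a2 := ENNReal.toReal_mono (ENNReal.mul_ne_top c1 (edist_ne_top _ _)) (h2 x y hxy)
  rw [ENNReal.toReal_mul, ← dist_edist, ← dist_edist] at a1 a2
  refine ⟨a2, (mul_le_mul_of_nonneg_left a1 ENNReal.toReal_nonneg).trans (le_of_eq ?_)⟩
  rw [distortion, ENNReal.toReal_mul]
  ring

variable {n : ℕ} {L : Submodule ℤ (Euc n)}

theorem norm_phi {z : dual L → ℝ} (h0 : ∀ u, 0 ≤ z u) (p q : lp (fun _ : dual L => ℂ) 2)
    (x y : Euc n) (hp : ∀ u, p u = phi L z x u) (hq : ∀ u, q u = phi L z y u) :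
    ‖p - q‖ ^ 2 = Fz L z (x - y) := by
  have he : ∀ (u : dual L) (x : Euc n), Complex.exp (2 * π * Complex.I * inner ℝ (u : Euc n) x)
      = Complex.exp ((2 * π * inner ℝ (u : Euc n) x : ℝ) * Complex.I) := by
    intro u x; congr 1; push_cast; ring
  have := lp.norm_rpow_eq_tsum (p := 2) (by norm_num) (p - q)
  simp only [ENNReal.toReal_ofNat, Real.rpow_ofNat] at this
  rw [this, Fz, ← tsum_mul_left]
  refine tsum_congr fun u => ?_
  have e1 : (p - q) u = Real.sqrt (z u)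
      * Complex.exp ((2 * π * inner ℝ (u : Euc n) y : ℝ) * Complex.I)
      * (Complex.exp ((2 * π * inner ℝ (u : Euc n) (x - y) : ℝ) * Complex.I) - 1) := by
    rw [lp.coeFn_sub, Pi.sub_apply, hp, hq, phi, phi, he, he, mul_sub, mul_one,
      mul_assoc (Real.sqrt (z u) : ℂ), ← Complex.exp_add, inner_sub_right]
    congr 3; push_cast; ring
  rw [e1, norm_mul, norm_mul, Complex.norm_exp_ofReal_mul_I, mul_pow, normSq_exp_sub_one]
  simp [Real.sq_sqrt (h0 u)]
  ring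

/-- an optimal weight can be scaled to a feasible point of the linear program of value c2^2 -/
theorem opt_norm (b : Basis (Fin n) ℝ (Euc n)) (hL : L = Submodule.span ℤ (Set.range b))
    [Nontrivial (Euc n ⧸ L)] {z : dual L → ℝ} (h0 : ∀ u, 0 ≤ z u) (ho : IsOptimal L z) :
    ∃ s : ℝ, 0 ≤ s ∧ ∀ x, dd L x ^ 2 ≤ s * Fz L z x ∧
      s * Fz L z x ≤ (c2 (Euc n ⧸ L)).toReal ^ 2 * dd L x ^ 2 := by
  have : DiscreteTopology L := hL ▸ inferInstance
  obtain ⟨f, hf, φ, hφ, hi, hd⟩ := ho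
  obtain ⟨l, hl, h⟩ := of_distortion_ne_top eq_of_dist hi (hd ▸ c2_ne_top b hL)
  refine ⟨l ^ 2, sq_nonneg _, fun x => ?_⟩
  have h1 := h (Submodule.Quotient.mk x) (Submodule.Quotient.mk 0)
  have h2 := norm_phi h0 (φ (Submodule.Quotient.mk x)) (φ (Submodule.Quotient.mk 0)) x 0
    (fun u => by rw [hφ, hf]) (fun u => by rw [hφ, hf])
  rw [dist_mk, sub_zero, dist_eq_norm, hd] at h1
  rw [sub_zero] at h2
  rw [← h2, ← mul_pow, ← mul_pow]
  exact ⟨pow_le_pow_left₀ (dd_nonneg _) h1.1 2, pow_le_pow_left₀ (by positivity) h1.2 2⟩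

theorem Fz_nonneg {z : dual L → ℝ} (h0 : ∀ u, 0 ≤ z u) (x : Euc n) : 0 ≤ Fz L z x :=
  mul_nonneg zero_le_two (tsum_nonneg fun u => mul_nonneg (h0 u) (sub_nonneg.2 (cos_le_one _)))

theorem Fz_per (z : dual L → ℝ) (x : Euc n) {v : Euc n} (hv : v ∈ L) :
    Fz L z (x - v) = Fz L z x := by
  simp only [Fz]
  congr 1
  refine tsum_congr fun u => ?_
  obtain ⟨m, hm⟩ := u.2 v hv
  rw [inner_sub_right, hm, mul_sub (2 * π), mul_comm (2 * π) (m : ℝ), cos_sub_int_mul_two_pi]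

theorem dd_per (x : Euc n) {v : Euc n} (hv : v ∈ L) : dd L (x - v) = dd L x := by
  simp only [dd]
  rw [Submodule.Quotient.mk_sub, (Submodule.Quotient.mk_eq_zero L).2 hv, sub_zero]

theorem continuous_Fz {z : dual L → ℝ} (h0 : ∀ u, 0 ≤ z u) (hs : Summable z) :
    Continuous (Fz L z) := by
  refine continuous_const.mul (continuous_tsum (u := fun u => z u * 2) (fun u => by fun_prop)
    (hs.mul_right 2) fun u x => ?_)
  rw [Real.norm_of_nonneg (mul_nonneg (h0 u) (sub_nonneg.2 (cos_le_one _)))]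
  exact mul_le_mul_of_nonneg_left (one_sub_cos_le _) (h0 u)

theorem Fz_comb {z z' : dual L → ℝ} (h0 : ∀ u, 0 ≤ z u) (hs : Summable z) (h0' : ∀ u, 0 ≤ z' u)
    (hs' : Summable z') (α β : ℝ) (x : Euc n) :
    Fz L (fun u => α * z u + β * z' u) x = α * Fz L z x + β * Fz L z' x := by
  simp only [Fz, add_mul, mul_assoc α, mul_assoc β]
  rw [((summable_F h0 hs x).mul_left α).tsum_add ((summable_F h0' hs' x).mul_left β),
    tsum_mul_left, tsum_mul_left]
  ring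

theorem dd_voronoi [DiscreteTopology L] {x : Euc n} (hx : x ∈ voronoi L) : dd L x = ‖x‖ := by
  obtain ⟨v, hv, hd⟩ := exists_dd (L := L) x
  exact le_antisymm (by simpa using dd_le x L.zero_mem) (hd ▸ hx v hv)

/-- a feasible pair bounds c2 from above -/
theorem c2_sq_le [DiscreteTopology L] {z : dual L → ℝ} (h0 : ∀ u, 0 ≤ z u) (hs : Summable z)
    {C : ℝ} (hC : 0 ≤ C) (h : ∀ x, dd L x ^ 2 ≤ Fz L z x ∧ Fz L z x ≤ C * dd L x ^ 2) :
    (c2 (Euc n ⧸ L)).toReal ^ 2 ≤ C := by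
  obtain ⟨φ, -, hi, hd⟩ := phi_of_z h0 hs (Real.sqrt_nonneg C) (by rwa [Real.sq_sqrt hC])
  have := ENNReal.toReal_le_of_le_ofReal (Real.sqrt_nonneg C) ((c2_le hi).trans hd)
  exact (pow_le_pow_left₀ ENNReal.toReal_nonneg this 2).trans (Real.sq_sqrt hC).le

/-- If a cheaper weight satisfies the contraction constraints outside a compact set K, then every
optimal weight has a most contracted point in K. -/
theorem soft (b : Basis (Fin n) ℝ (Euc n)) (hL : L = Submodule.span ℤ (Set.range b))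
    [Nontrivial (Euc n ⧸ L)] {z : dual L → ℝ} (hw : IsWeight L z) (ho : IsOptimal L z)
    {K : Set (Euc n)} (hK : IsCompact K) (hKV : K ⊆ voronoi L) (hK0 : (0 : Euc n) ∉ K)
    {z' : dual L → ℝ} (h0' : ∀ u, 0 ≤ z' u) (hs' : Summable z') {C' : ℝ} (hC0 : 0 ≤ C')
    (hC' : C' < (c2 (Euc n ⧸ L)).toReal ^ 2) (hup : ∀ x, Fz L z' x ≤ C' * ‖x‖ ^ 2)
    (hlow : ∀ x, dd L x ^ 2 ≤ Fz L z' x ∨ ∃ v ∈ L, x - v ∈ K) :
    ∃ x ∈ K, MostContracted L z x := by
  have : DiscreteTopology L := hL ▸ inferInstance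
  obtain ⟨h0, hs, -⟩ := hw
  obtain ⟨s, hs0, hz⟩ := opt_norm b hL h0 ho
  set C := (c2 (Euc n ⧸ L)).toReal ^ 2 with hC
  have hup' : ∀ x, Fz L z' x ≤ C' * dd L x ^ 2 := fun x => by
    obtain ⟨v, hv, hd⟩ := exists_dd (L := L) x
    rw [hd, ← Fz_per z' x hv]
    exact hup _
  have hpos : ∀ x ∈ K, 0 < ‖x‖ ^ 2 := fun x hx =>
    pow_pos (norm_pos_iff.2 fun h => hK0 (h ▸ hx)) 2
  have key : ∃ x ∈ K, s * Fz L z x ≤ ‖x‖ ^ 2 := by
    by_contra hc
    push Not at hc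
    obtain ⟨ε, hε, hε1, hK'⟩ : ∃ ε : ℝ, 0 < ε ∧ ε ≤ 1 ∧
        ∀ x ∈ K, ‖x‖ ^ 2 ≤ (1 - ε) * (s * Fz L z x) := by
      rcases K.eq_empty_or_nonempty with rfl | hne
      · exact ⟨1, one_pos, le_rfl, fun x hx => hx.elim⟩
      have hp : ∀ x ∈ K, 0 < s * Fz L z x := fun x hx => (hpos x hx).trans (hc x hx)
      obtain ⟨x0, hx0, hm⟩ := hK.exists_isMaxOn (f := fun x => ‖x‖ ^ 2 / (s * Fz L z x)) hne
        ((continuous_norm.pow 2).continuousOn.div
          (continuous_const.mul (continuous_Fz h0 hs)).continuousOn fun x hx => (hp x hx).ne')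
      have h1 : ‖x0‖ ^ 2 / (s * Fz L z x0) < 1 := (div_lt_one (hp x0 hx0)).2 (hc x0 hx0)
      have h2 : 0 ≤ ‖x0‖ ^ 2 / (s * Fz L z x0) := div_nonneg (sq_nonneg _) (hp x0 hx0).le
      refine ⟨1 - ‖x0‖ ^ 2 / (s * Fz L z x0), by linarith, by linarith, fun x hx => ?_⟩
      rw [sub_sub_cancel]
      exact (div_le_iff₀ (hp x hx)).1 (hm hx)
    have h1 : C ≤ (1 - ε) * C + ε * C' := by
      refine c2_sq_le (z := fun u => ((1 - ε) * s) * z u + ε * z' u)
        (fun u => add_nonneg (mul_nonneg (mul_nonneg (by linarith) hs0) (h0 u))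
          (mul_nonneg hε.le (h0' u))) ((hs.mul_left _).add (hs'.mul_left _))
        (add_nonneg (mul_nonneg (by linarith) (sq_nonneg _)) (mul_nonneg hε.le hC0)) fun x => ?_
      rw [Fz_comb h0 hs h0' hs', mul_assoc (1 - ε)]
      obtain ⟨a1, a2⟩ := hz x
      have a3 := hup' x
      have a4 : 0 ≤ 1 - ε := by linarith
      constructor
      · rcases hlow x with h | ⟨v, hv, h⟩
        · nlinarith [mul_le_mul_of_nonneg_left a1 a4, mul_le_mul_of_nonneg_left h hε.le]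
        · have b1 := hK' _ h
          rw [Fz_per z x hv, ← dd_voronoi (hKV h), dd_per x hv] at b1
          linarith [mul_nonneg hε.le (Fz_nonneg h0' x)]
      · nlinarith [mul_le_mul_of_nonneg_left a2 a4, mul_le_mul_of_nonneg_left a3 hε.le]
    nlinarith
  obtain ⟨x, hx, h⟩ := key
  refine ⟨x, hx, hKV hx, fun h => hK0 (h ▸ hx), fun y hy hy0 => ?_⟩
  have a1 := (hz x).1
  have a2 := (hz y).1
  rw [dd_voronoi (hKV hx)] at a1
  rw [dd_voronoi hy] at a2
  have a3 := hpos x hx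
  have a4 : 0 < Fz L z x := by
    rcases (Fz_nonneg h0 x).eq_or_lt with h' | h'
    · rw [← h'] at a1; linarith
    · exact h'
  exact (div_le_of_le_mul₀ (Fz_nonneg h0 y) hs0 a2).trans ((le_div_iff₀ a4).2 h)

/-- optimal weights exist -/
theorem exists_optimal (b : Basis (Fin n) ℝ (Euc n)) (hL : L = Submodule.span ℤ (Set.range b))
    [Nontrivial (Euc n ⧸ L)] : ∃ z : dual L → ℝ, IsWeight L z ∧ IsOptimal L z := by
  have : DiscreteTopology L := hL ▸ inferInstance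
  obtain ⟨z1, h0, hs, hz⟩ := exists_opt b hL (ContinuousLinearMap.id ℝ _) fun _ h => h
  obtain ⟨z, hz0, hzs, hzn, hzF⟩ := symmetrize h0 hs
  obtain ⟨φ, hφ, hi, hd⟩ := phi_of_z hz0 hzs ENNReal.toReal_nonneg
    (C := (c2 (Euc n ⧸ L)).toReal) fun x => by rw [hzF]; exact hz x
  rw [ENNReal.ofReal_toReal (c2_ne_top b hL)] at hd
  exact ⟨z, ⟨hz0, hzs, hzn⟩, fun x u => φ x u, fun x => funext (hφ x), φ, fun _ _ => rfl, hi,
    le_antisymm hd (c2_le hi)⟩

/-- second order consequence of the expansion constraint -/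
theorem hess {z : dual L → ℝ} (h0 : ∀ u, 0 ≤ z u) (hs : Summable z) {C : ℝ} (e : Euc n)
    (h : ∀ t : ℝ, Fz L z (t • e) ≤ C * t ^ 2) (S : Finset (dual L)) :
    ∑ u ∈ S, z u * (2 * π * inner ℝ (u : Euc n) e) ^ 2 ≤ C := by
  have hb : ∀ s : ℝ, |s| ≤ 1 → s ^ 2 - s ^ 4 ≤ 2 * (1 - cos s) := fun s hs => by
    have h1 := (abs_le.1 (cos_bound hs)).2
    have h2 : |s| ^ 4 = s ^ 4 := by rw [show (4 : ℕ) = 2 * 2 from rfl, pow_mul, sq_abs, ← pow_mul]
    have h3 : 0 ≤ s ^ 4 := by positivity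
    rw [h2] at h1
    linarith
  let a : dual L → ℝ := fun u => 2 * π * inner ℝ (u : Euc n) e
  have hlim : Tendsto (fun t : ℝ => ∑ u ∈ S, z u * (a u ^ 2 - t ^ 2 * a u ^ 4)) (𝓝[>] 0)
      (𝓝 (∑ u ∈ S, z u * a u ^ 2)) := by
    have hc : Continuous fun t : ℝ => ∑ u ∈ S, z u * (a u ^ 2 - t ^ 2 * a u ^ 4) := by fun_prop
    simpa using (hc.tendsto 0).mono_left (nhdsWithin_le_nhds (s := Set.Ioi 0))
  refine le_of_tendsto hlim ?_
  have hev : ∀ᶠ t : ℝ in 𝓝[>] 0, ∀ u ∈ S, |t * a u| ≤ 1 := by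
    rw [Filter.eventually_all_finset]
    intro u _
    have hc : Continuous fun t : ℝ => |t * a u| := by fun_prop
    have := (hc.tendsto 0).mono_left (nhdsWithin_le_nhds (s := Set.Ioi 0))
    exact this.eventually_le_const (by simp)
  filter_upwards [hev, self_mem_nhdsWithin] with t ht ht0
  have ht2 : 0 < t ^ 2 := pow_pos ht0 2
  refine le_of_mul_le_mul_right (le_trans ?_ (h t)) ht2
  rw [Fz, Finset.sum_mul]
  refine le_trans ?_ (mul_le_mul_of_nonneg_left ((summable_F h0 hs (t • e)).sum_le_tsum S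
    fun u _ => mul_nonneg (h0 u) (sub_nonneg.2 (cos_le_one _))) zero_le_two)
  rw [Finset.mul_sum]
  refine Finset.sum_le_sum fun u hu => ?_
  have h1 := mul_le_mul_of_nonneg_left (hb _ (ht u hu)) (h0 u)
  have h2 : 2 * π * inner ℝ (u : Euc n) (t • e) = t * a u := by
    rw [inner_smul_right]; simp only [a]; ring
  rw [h2]
  nlinarith

end Pool.Agent.Lib.MP_507a1e_gt.Ev
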