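import Mathlib

set_option autoImplicit false

noncomputable section

namespace Pool.Agent.Lib.MP_507a1e_gt.Ev

open Finset

/-- the sign of an element of Z/2 -/
def sg (t : ZMod 2) : ℝ := if t = 0 then 1 else -1

theorem zmod2 (t : ZMod 2) : t = 0 ∨ t = 1 := by
  revert t; decide

@[simp] theorem sg_zero : sg 0 = 1 := by simp [sg]

@[simp] theorem sg_one : sg 1 = -1 := by simp [sg]

theorem sg_add (s t : ZMod 2) : sg (s + t) = sg s * sg t := by
  rcases zmod2 s with rfl | rfl <;> rcases zmod2 t with rfl | rfl <;> simp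
  exact (congrArg sg (by decide : (1 : ZMod 2) + 1 = 0)).trans sg_zero

theorem abs_sg (t : ZMod 2) : |sg t| = 1 := by
  rcases zmod2 t with rfl | rfl <;> simp

theorem sg_sum {J : Type*} (s : Finset J) (t : J → ZMod 2) :
    sg (∑ j ∈ s, t j) = ∏ j ∈ s, sg (t j) := by
  classical
  induction s using Finset.induction_on with
  | empty => simp
  | insert a s ha ih => rw [sum_insert ha, prod_insert ha, sg_add, ih]

variable {A : Type} [AddCommGroup A] [Fintype A]

open Classical in
theorem sum_sg (l : A →+ ZMod 2) :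
    ∑ a, sg (l a) = if l = 0 then (Fintype.card A : ℝ) else 0 := by
  split_ifs with h
  · simp [h]
  · obtain ⟨b, hb⟩ : ∃ b, l b = 1 := by
      by_contra hc
      push Not at hc
      exact h (AddMonoidHom.ext fun a => (zmod2 (l a)).resolve_right (hc a))
    have h1 := Equiv.sum_comp (Equiv.addRight b) fun a => sg (l a)
    simp only [Equiv.coe_addRight, map_add, hb, sg_add, sg_one, mul_neg, mul_one,
      sum_neg_distrib] at h1
    linarith

variable {I : Type} [Fintype I] [DecidableEq I] (cw : I → A →+ ZMod 2)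

open Classical in
/-- tuples of coordinates with zero syndrome -/
def Zt (J : Type) [Fintype J] [DecidableEq J] : Finset (J → I) :=
  univ.filter fun τ => ∑ j, cw (τ j) = 0

theorem moment {J : Type} [Fintype J] [DecidableEq J] (f : J → I → ℝ) :
    ∑ a, ∏ j, (∑ i, f j i * sg (cw i a))
      = Fintype.card A * ∑ τ ∈ Zt cw J, ∏ j, f j (τ j) := by
  classical
  have h1 : ∀ a, ∏ j, (∑ i, f j i * sg (cw i a))
      = ∑ τ : J → I, (∏ j, f j (τ j)) * sg ((∑ j, cw (τ j)) a) := by
    intro a
    rw [prod_univ_sum, Fintype.piFinset_univ]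
    refine sum_congr rfl fun τ _ => ?_
    rw [prod_mul_distrib, AddMonoidHom.finsetSum_apply, sg_sum]
  simp only [h1]
  rw [sum_comm, Zt, sum_filter, mul_sum]
  refine sum_congr rfl fun τ _ => ?_
  rw [← mul_sum, sum_sg]
  split_ifs <;> ring

/-- dual distance larger than d -/
def DD (d : ℕ) : Prop := ∀ T : Finset I, T.Nonempty → T.card ≤ d → ∑ i ∈ T, cw i ≠ 0

omit [Fintype A] in
theorem card_img_le {d h : ℕ} (hd : DD cw d) (hh : 2 * h ≤ d) {τ : Fin (2 * h) → I}
    (hτ : ∑ j, cw (τ j) = 0) : (univ.image τ).card ≤ h := by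
  classical
  let m : I → ℕ := fun i => (univ.filter fun j => τ j = i).card
  have hsum : ∑ i ∈ univ.image τ, m i = 2 * h := by
    rw [← card_eq_sum_card_image τ univ]; simp
  have h1 : ∑ j, cw (τ j) = ∑ i ∈ univ.image τ, m i • cw i := sum_comp cw τ
  have h2 : ∀ i, m i • cw i = if Odd (m i) then cw i else 0 := by
    intro i
    ext a
    split_ifs with ho
    · rw [AddMonoidHom.nsmul_apply, nsmul_eq_mul, ZMod.natCast_eq_one_iff_odd.2 ho, one_mul]
    · rw [AddMonoidHom.nsmul_apply, nsmul_eq_mul,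
        ZMod.natCast_eq_zero_iff_even.2 (Nat.not_odd_iff_even.1 ho), zero_mul]
      rfl
  simp only [h2] at h1
  rw [← sum_filter, hτ] at h1
  have h3 : ¬ ((univ.image τ).filter fun i => Odd (m i)).Nonempty := fun hne =>
    hd _ hne ((card_filter_le _ _).trans (card_image_le.trans (by simpa using hh))) h1.symm
  have h4 : ∀ i ∈ univ.image τ, 2 ≤ m i := by
    intro i hi
    have a1 : ¬ Odd (m i) := fun ho => h3 ⟨i, mem_filter.2 ⟨hi, ho⟩⟩
    obtain ⟨j, -, hj⟩ := mem_image.1 hi
    have a2 : 0 < m i := card_pos.2 ⟨j, by simp [hj]⟩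
    obtain ⟨r, hr⟩ := Nat.not_odd_iff_even.1 a1
    omega
  have h5 := card_nsmul_le_sum _ _ _ h4
  rw [hsum, smul_eq_mul] at h5
  omega

theorem card_Zt {d h : ℕ} (hd : DD cw d) (hh : 2 * h ≤ d) [Nonempty I] :
    (Zt cw (Fin (2 * h))).card ≤ h ^ (2 * h) * Fintype.card I ^ h := by
  classical
  have h1 : Zt cw (Fin (2 * h)) ⊆ (univ : Finset ((Fin (2 * h) → Fin h) × (Fin h → I))).image
      fun p => p.2 ∘ p.1 := by
    intro τ hτ
    have h2 := card_img_le cw hd hh (mem_filter.1 hτ).2
    let l := (univ.image τ).toList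
    have h3 : ∀ j, ∃ k : Fin h, l.getD k (Classical.arbitrary I) = τ j := by
      intro j
      obtain ⟨k, hk, e⟩ := List.getElem_of_mem (mem_toList.2 (mem_image_of_mem τ (mem_univ j)))
      refine ⟨⟨k, (hk.trans_le (by simpa using h2))⟩, ?_⟩
      rw [List.getD_eq_getElem _ _ hk]
      exact e
    choose s hs using h3
    exact mem_image.2 ⟨(s, fun k => l.getD k (Classical.arbitrary I)), mem_univ _, funext hs⟩
  refine (card_le_card h1).trans (card_image_le.trans ?_)
  simp

theorem mom_le {d h : ℕ} (hd : DD cw d) (hh : 2 * h ≤ d) [Nonempty I] {f : I → ℝ}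
    (hf : ∀ i, |f i| ≤ 1) :
    ∑ a, (∑ i, f i * sg (cw i a)) ^ (2 * h)
      ≤ Fintype.card A * ((h : ℝ) ^ (2 * h) * (Fintype.card I : ℝ) ^ h) := by
  have h1 := moment cw (J := Fin (2 * h)) fun _ => f
  simp only [prod_const, card_univ, Fintype.card_fin] at h1
  rw [h1]
  refine mul_le_mul_of_nonneg_left ?_ (Nat.cast_nonneg _)
  refine (sum_le_card_nsmul _ _ 1 fun τ _ => ?_).trans ?_
  · refine (le_abs_self _).trans ?_
    rw [abs_prod]
    exact prod_le_one (fun _ _ => abs_nonneg _) fun _ _ => hf _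
  · rw [nsmul_eq_mul, mul_one]
    exact_mod_cast card_Zt cw hd hh

/-- the full space as a code -/
def full (I : Type) (i : I) : (I → ZMod 2) →+ ZMod 2 := Pi.evalAddMonoidHom (fun _ => ZMod 2) i

theorem DD_full (d : ℕ) : DD (full I) d := by
  rintro T ⟨i, hi⟩ - h
  have := DFunLike.congr_fun h (Pi.single i 1)
  rw [AddMonoidHom.finsetSum_apply] at this
  simp [full, Pi.single_apply, hi] at this

end Pool.Agent.Lib.MP_507a1e_gt.Ev
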