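import Mathlib
import Pool.Agent.Lib.MP_507a1e_gt.E2Mom

set_option autoImplicit false

noncomputable section

namespace Pool.Agent.Lib.MP_507a1e_gt.Ev

open Finset

variable {K : Type} [Field K] [Fintype K] [DecidableEq K] [CharP K 2] (t : K →+ ZMod 2)

/-- the dual of the extended four error correcting BCH code -/
def bch (x : K) : (ZMod 2 × (Fin 4 → K)) →+ ZMod 2 where
  toFun a := a.1 + t (∑ k : Fin 4, a.2 k * x ^ (2 * (k : ℕ) + 1))
  map_zero' := by simp
  map_add' a b := by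
    simp only [Prod.fst_add, Prod.snd_add, Pi.add_apply, add_mul, sum_add_distrib, map_add]
    ring

omit [Fintype K] [DecidableEq K] [CharP K 2] in
theorem bch_apply (x : K) (a : ZMod 2 × (Fin 4 → K)) :
    bch t x a = a.1 + t (∑ k : Fin 4, a.2 k * x ^ (2 * (k : ℕ) + 1)) := rfl

omit [Fintype K] in
theorem DD_bch (ht : t ≠ 0) : DD (bch t) 9 := by
  rintro T ⟨x0, hx0⟩ hT h
  have h0 : ∀ a, ∑ x ∈ T, bch t x a = 0 := fun a => by
    rw [← AddMonoidHom.finsetSum_apply, h]; rfl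
  have he : Even T.card := by
    have := h0 (1, 0)
    simp only [bch_apply, Pi.zero_apply, zero_mul, sum_const_zero, map_zero, add_zero, sum_const,
      nsmul_eq_mul, mul_one] at this
    exact ZMod.natCast_eq_zero_iff_even.1 this
  have hT8 : T.card ≤ 8 := by obtain ⟨r, hr⟩ := he; omega
  obtain ⟨y, hy⟩ : ∃ y, t y ≠ 0 := by
    by_contra hc
    push Not at hc
    exact ht (AddMonoidHom.ext hc)
  have hodd : ∀ k : Fin 4, ∑ x ∈ T, x ^ (2 * (k : ℕ) + 1) = 0 := by
    intro k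
    by_contra hp
    have := h0 (0, Pi.single k (y / ∑ x ∈ T, x ^ (2 * (k : ℕ) + 1)))
    simp only [bch_apply, zero_add, Pi.single_apply, ite_mul, zero_mul, sum_ite_eq', mem_univ,
      if_true] at this
    rw [← map_sum, ← mul_sum, div_mul_cancel₀ _ hp] at this
    exact hy this
  have hdbl : ∀ j : ℕ, ∑ x ∈ T, x ^ j = 0 → ∑ x ∈ T, x ^ (j * 2) = 0 := fun j hj => by
    simp only [pow_mul]
    rw [← CharTwo.sum_sq, hj]; simp
  have p0 : ∑ x ∈ T, x ^ 0 = 0 := by
    obtain ⟨r, hr⟩ := he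
    simp only [pow_zero, sum_const, nsmul_eq_mul, mul_one, hr, Nat.cast_add]
    exact CharTwo.add_self_eq_zero _
  have p1 : ∑ x ∈ T, x ^ 1 = 0 := hodd 0
  have p3 : ∑ x ∈ T, x ^ 3 = 0 := hodd 1
  have p5 : ∑ x ∈ T, x ^ 5 = 0 := hodd 2
  have p7 : ∑ x ∈ T, x ^ 7 = 0 := hodd 3
  have p2 := hdbl 1 p1
  have p4 := hdbl 2 p2
  have p6 := hdbl 3 p3
  have hp : ∀ j ∈ range 8, ∑ x ∈ T, x ^ j = 0 := by
    intro j hj
    rw [mem_range] at hj
    interval_cases j <;> assumption
  let Q : Polynomial K := ∏ y ∈ T.erase x0, (Polynomial.X - Polynomial.C y)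
  have hQ : Q.natDegree < 8 := by
    rw [Polynomial.natDegree_finsetProd_X_sub_C_eq_card, card_erase_of_mem hx0]
    have := card_pos.2 ⟨x0, hx0⟩
    omega
  have h1 : ∑ x ∈ T, Q.eval x = 0 := by
    simp only [Polynomial.eval_eq_sum_range' hQ]
    rw [sum_comm]
    exact sum_eq_zero fun j hj => by rw [← mul_sum, hp j hj, mul_zero]
  rw [← add_sum_erase T _ hx0, sum_eq_zero, add_zero] at h1
  · simp only [Q, Polynomial.eval_prod, Polynomial.eval_sub, Polynomial.eval_X, Polynomial.eval_C,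
      prod_eq_zero_iff, mem_erase, sub_eq_zero] at h1
    obtain ⟨y, hy, e⟩ := h1
    exact hy.1 e.symm
  · intro x hx
    simp only [Q, Polynomial.eval_prod, Polynomial.eval_sub, Polynomial.eval_X, Polynomial.eval_C]
    exact prod_eq_zero hx (sub_self x)

theorem bias_bch (ht : t ≠ 0) (a : ZMod 2 × (Fin 4 → K)) (ha : a.2 ≠ 0) :
    ((Fintype.card K : ℝ) - 1) * (∑ x, sg (bch t x a)) ^ 8
      ≤ 7 * (2 * 4 ^ 8 * (Fintype.card K : ℝ) ^ 8) := by
  let B : ZMod 2 × (Fin 4 → K) → ℝ := fun b => (∑ x, sg (bch t x b)) ^ 8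
  have hB : ∑ b, B b ≤ 2 * 4 ^ 8 * (Fintype.card K : ℝ) ^ 8 := by
    have := mom_le (bch t) (h := 4) (DD_bch t ht) (by norm_num) (f := fun _ => 1) (by simp)
    simp only [one_mul] at this
    refine this.trans (le_of_eq ?_)
    simp
    ring
  let g : K → ZMod 2 × (Fin 4 → K) := fun l => (a.1, fun k => a.2 k * l ^ (2 * (k : ℕ) + 1))
  have hg : ∀ l, l ≠ 0 → B (g l) = B a := by
    intro l hl
    simp only [B]
    rw [← Equiv.sum_comp (Equiv.mulLeft₀ l hl) fun x => sg (bch t x a)]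
    simp only [bch_apply, g, Equiv.mulLeft₀_apply, mul_pow, mul_assoc]
  obtain ⟨k, hk⟩ : ∃ k, a.2 k ≠ 0 := Function.ne_iff.1 ha
  have hf : ∀ b, ((univ.erase (0 : K)).filter fun l => g l = b).card ≤ 7 := by
    intro b
    have h1 : ((univ.erase (0 : K)).filter fun l => g l = b)
        ⊆ (Polynomial.nthRoots (2 * (k : ℕ) + 1) (b.2 k / a.2 k)).toFinset := by
      intro l hl
      rw [Multiset.mem_toFinset, Polynomial.mem_nthRoots (by omega), eq_div_iff hk, mul_comm,
        ← (mem_filter.1 hl).2]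
    refine (card_le_card h1).trans ((Multiset.toFinset_card_le _).trans
      ((Polynomial.card_nthRoots _ _).trans ?_))
    have := k.2
    omega
  have h1 : ∑ l ∈ univ.erase (0 : K), B (g l) = ((Fintype.card K : ℝ) - 1) * B a := by
    rw [sum_congr rfl fun l hl => hg l (mem_erase.1 hl).1, sum_const, card_erase_of_mem (mem_univ _),
      nsmul_eq_mul, card_univ, Nat.cast_sub Fintype.card_pos, Nat.cast_one]
  have h2 : ∑ l ∈ univ.erase (0 : K), B (g l) ≤ ∑ b, 7 * B b := by
    rw [← sum_fiberwise_of_maps_to (s := univ.erase (0 : K)) (t := univ) (g := g)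
      fun _ _ => mem_univ _]
    refine sum_le_sum fun b _ => ?_
    rw [sum_congr rfl fun l hl => congrArg B (mem_filter.1 hl).2, sum_const, nsmul_eq_mul]
    exact mul_le_mul_of_nonneg_right (by exact_mod_cast hf b) (by positivity)
  rw [h1, ← mul_sum] at h2
  linarith

/-- the properties of the code that the proof uses -/
structure Good {A : Type} [AddCommGroup A] [Fintype A] {N : ℕ} (cw : Fin N → A →+ ZMod 2) (a0 : A)
    (ε : ℝ) : Prop where
  card : (Fintype.card A : ℝ) ≤ 2 * (N : ℝ) ^ 4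
  dd : DD cw 9
  one : ∀ i, cw i a0 = 1
  bias : ∀ a, a ≠ 0 → a ≠ a0 → |∑ i, sg (cw i a)| ≤ ε * N

theorem good_bch (ht : t ≠ 0) {ε : ℝ} (hε : 0 < ε)
    (hN : 7 * (2 * 4 ^ 8) ≤ ε ^ 8 * ((Fintype.card K : ℝ) - 1)) :
    Good (fun i => bch t ((Fintype.equivFin K).symm i)) (1, 0) ε := by
  refine ⟨by simp, fun T hT hc h => ?_, fun i => by simp [bch_apply], fun a h0 h1 => ?_⟩
  · refine DD_bch t ht (T.map (Fintype.equivFin K).symm.toEmbedding) (by simpa using hT)
      (by simpa using hc) ?_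
    rw [sum_map]
    exact h
  · have ha : a.2 ≠ 0 := fun h => by
      rcases zmod2 a.1 with h' | h'
      · exact h0 (Prod.ext h' h)
      · exact h1 (Prod.ext h' h)
    have h2 := bias_bch t ht a ha
    rw [Equiv.sum_comp (Fintype.equivFin K).symm fun x => sg (bch t x a)]
    have h3 : 0 < (Fintype.card K : ℝ) - 1 := by
      have : (1 : ℝ) < Fintype.card K := by exact_mod_cast Fintype.one_lt_card
      linarith
    refine le_of_pow_le_pow_left₀ (n := 8) (by norm_num) (by positivity) ?_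
    rw [Even.pow_abs (by decide), mul_pow]
    refine le_of_mul_le_mul_left (h2.trans ?_) h3
    have h4 := mul_le_mul_of_nonneg_right hN (by positivity : 0 ≤ (Fintype.card K : ℝ) ^ 8)
    linarith

/-- good codes exist for arbitrarily large lengths -/
theorem exists_good {ε : ℝ} (hε : 0 < ε) (R : ℝ) {P : Prop}
    (h : ∀ (A : Type) [AddCommGroup A] [Fintype A] (N : ℕ) (cw : Fin N → A →+ ZMod 2) (a0 : A),
      R ≤ N → Good cw a0 ε → P) : P := by
  classical
  obtain ⟨m, hm⟩ := pow_unbounded_of_one_lt (max R (7 * (2 * 4 ^ 8) / ε ^ 8 + 1)) (one_lt_two (α := ℝ))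
  have : Fact (Nat.Prime 2) := ⟨Nat.prime_two⟩
  let K := GaloisField 2 (m + 1)
  let _ : Fintype K := Fintype.ofFinite K
  have hc : Fintype.card K = 2 ^ (m + 1) := by
    rw [← Nat.card_eq_fintype_card]; exact GaloisField.card 2 (m + 1) (Nat.succ_ne_zero m)
  have hc' : (2 : ℝ) ^ m ≤ Fintype.card K := by
    rw [hc]; push_cast
    exact pow_le_pow_right₀ one_le_two (Nat.le_succ m)
  obtain ⟨t, ht⟩ : ∃ t : Module.Dual (ZMod 2) K, t 1 ≠ 0 := by
    by_contra hc
    push Not at hc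
    exact one_ne_zero ((Module.forall_dual_apply_eq_zero_iff (ZMod 2) (1 : K)).1 hc)
  refine h _ _ _ _ ((le_max_left _ _).trans (hm.le.trans hc'))
    (good_bch (K := K) t.toAddMonoidHom (fun h => ht (DFunLike.congr_fun h 1)) hε ?_)
  have h1 := (le_max_right _ _).trans (hm.le.trans hc')
  rw [mul_comm (ε ^ 8), ← div_le_iff₀ (by positivity)]
  linarith

end Pool.Agent.Lib.MP_507a1e_gt.Ev
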