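import Mathlib
import Pool.Agent.Lib.MP_507a1e_gt.E3Bch

set_option autoImplicit false

noncomputable section

namespace Pool.Agent.Lib.MP_507a1e_gt.Ev

open Finset

variable {A : Type} [AddCommGroup A] [Fintype A] {N : ℕ}

/-- correlation of f with a codeword -/
def hat (cw : Fin N → A →+ ZMod 2) (f : Fin N → ℝ) (a : A) : ℝ := (∑ i, f i * sg (cw i a)) / N

/-- tenth moment of the correlations -/
def S10 (cw : Fin N → A →+ ZMod 2) (f : Fin N → ℝ) : ℝ := ∑ a, hat cw f a ^ 10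

variable {cw : Fin N → A →+ ZMod 2} {a0 : A} {ε : ℝ}

omit [Fintype A] in
theorem hat_zero (f : Fin N → ℝ) : hat cw f 0 = (∑ i, f i) / N := by simp [hat]

omit [Fintype A] in
theorem abs_hat_sub (f g : Fin N → ℝ) (a : A) :
    |hat cw f a - hat cw g a| ≤ (∑ i, |f i - g i|) / N := by
  rw [hat, hat, ← sub_div, abs_div, Nat.abs_cast, ← sum_sub_distrib]
  refine div_le_div_of_nonneg_right ((abs_sum_le_sum_abs _ _).trans (sum_le_sum fun i _ => ?_))
    (Nat.cast_nonneg _)
  rw [← sub_mul, abs_mul, abs_sg, mul_one]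

omit [Fintype A] in
theorem abs_hat_le {g : Fin N → ℝ} (hg : ∀ i, 0 ≤ g i) (a : A) : |hat cw g a| ≤ hat cw g 0 := by
  have := abs_hat_sub (cw := cw) g (fun _ => 0) a
  simp only [sub_zero, abs_of_nonneg (hg _)] at this
  rw [hat_zero]
  simpa [hat] using this

omit [Fintype A] in
theorem hat_one_zero (hN : 0 < N) : hat cw (fun _ => 1) 0 = 1 := by
  rw [hat_zero]; simp [hN.ne']

omit [Fintype A] in
theorem hat_shift (f : Fin N → ℝ) (a b : A) :
    hat cw (fun i => f i * sg (cw i b)) a = hat cw f (a + b) := by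
  simp only [hat, map_add, sg_add]
  congr 1
  exact sum_congr rfl fun i _ => by ring

theorem S10_shift (f : Fin N → ℝ) (b : A) : S10 cw (fun i => f i * sg (cw i b)) = S10 cw f := by
  simp only [S10, hat_shift]
  exact Equiv.sum_comp (Equiv.addRight b) fun a => hat cw f a ^ 10

namespace Good

variable (G : Good cw a0 ε) (hN : 0 < N)
include G

theorem hat_add (f : Fin N → ℝ) (a : A) : hat cw f (a + a0) = - hat cw f a := by
  simp only [hat, map_add, sg_add, G.one, sg_one, mul_neg, mul_one, sum_neg_distrib, neg_div]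

theorem hat_a0 (f : Fin N → ℝ) : hat cw f a0 = - hat cw f 0 := by
  simpa using G.hat_add f 0

include hN

theorem ne : a0 ≠ 0 := fun h => by
  have := G.one ⟨0, hN⟩
  rw [h, map_zero] at this
  exact zero_ne_one this

open Classical in
theorem split (F : A → ℝ) : ∑ a, F a = F 0 + F a0 + ∑ a ∈ (univ.erase 0).erase a0, F a := by
  rw [← add_sum_erase univ F (mem_univ 0), ← add_sum_erase (univ.erase 0) F
    (mem_erase.2 ⟨G.ne hN, mem_univ a0⟩), add_assoc]

open Classical in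
theorem small {a : A} (ha : a ∈ (univ.erase 0).erase a0) : |hat cw (fun _ => 1) a| ≤ ε := by
  have := G.bias a (mem_erase.1 (mem_erase.1 ha).2).1 (mem_erase.1 ha).1
  rw [hat, abs_div, Nat.abs_cast, div_le_iff₀ (by exact_mod_cast hN)]
  simpa using this

theorem m8 {f : Fin N → ℝ} (hf : ∀ i, |f i| ≤ 1) : ∑ a, hat cw f a ^ 8 ≤ 131072 := by
  have : Nonempty (Fin N) := ⟨⟨0, hN⟩⟩
  have h1 := mom_le cw (h := 4) G.dd (by norm_num) hf
  have h2 : (0 : ℝ) < N := by exact_mod_cast hN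
  simp only [hat, div_pow, ← sum_div]
  rw [div_le_iff₀ (by positivity)]
  refine h1.trans ((mul_le_mul_of_nonneg_right G.card (by positivity)).trans (le_of_eq ?_))
  simp
  ring

theorem m8' {f : Fin N → ℝ} (hf : ∀ i, |f i| ≤ 1) (s : Finset A) :
    ∑ a ∈ s, hat cw f a ^ 8 ≤ 131072 :=
  (sum_le_sum_of_subset_of_nonneg (subset_univ s) fun _ _ _ => by positivity).trans (G.m8 hN hf)

theorem S1_ge : 2 ≤ S10 cw fun _ => 1 := by
  classical
  rw [S10, G.split hN, G.hat_a0, hat_one_zero hN]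
  have : 0 ≤ ∑ a ∈ (univ.erase 0).erase a0, hat cw (fun _ => 1) a ^ 10 :=
    sum_nonneg fun _ _ => by positivity
  linarith

theorem S1_le : S10 cw (fun _ => 1) ≤ 2 + ε ^ 2 * 131072 := by
  classical
  rw [S10, G.split hN, G.hat_a0, hat_one_zero hN]
  have h1 : ∑ a ∈ (univ.erase 0).erase a0, hat cw (fun _ => 1) a ^ 10
      ≤ ε ^ 2 * ∑ a ∈ (univ.erase 0).erase a0, hat cw (fun _ => 1) a ^ 8 := by
    rw [mul_sum]
    refine sum_le_sum fun a ha => ?_
    rw [show (10 : ℕ) = 2 + 8 from rfl, pow_add, ← sq_abs]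
    exact mul_le_mul_of_nonneg_right (pow_le_pow_left₀ (abs_nonneg _) (G.small hN ha) 2)
      (by positivity)
  have h2 := mul_le_mul_of_nonneg_left (G.m8' hN (f := fun _ => 1) (by simp)
    ((univ.erase 0).erase a0)) (sq_nonneg ε)
  linarith

theorem slot (hε : 0 ≤ ε) {g : Fin N → ℝ} (hg : ∀ i, 0 ≤ g i) :
    ∑ a, hat cw g a * hat cw (fun _ => 1) a ^ 9 ≤ hat cw g 0 * (2 + ε * 131072) := by
  classical
  have h0 : 0 ≤ hat cw g 0 := (abs_nonneg _).trans (abs_hat_le hg 0)
  rw [G.split hN, G.hat_a0, G.hat_a0, hat_one_zero hN]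
  have h1 : ∑ a ∈ (univ.erase 0).erase a0, hat cw g a * hat cw (fun _ => 1) a ^ 9
      ≤ hat cw g 0 * ε * ∑ a ∈ (univ.erase 0).erase a0, hat cw (fun _ => 1) a ^ 8 := by
    rw [mul_sum]
    refine sum_le_sum fun a ha => ?_
    rw [show (9 : ℕ) = 1 + 8 from rfl, pow_add, pow_one, ← mul_assoc]
    refine mul_le_mul_of_nonneg_right ((le_abs_self _).trans ?_) (by positivity)
    rw [abs_mul]
    exact mul_le_mul (abs_hat_le hg a) (G.small hN ha) (abs_nonneg _) h0
  have h2 := mul_le_mul_of_nonneg_left (G.m8' hN (f := fun _ => 1) (by simp)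
    ((univ.erase 0).erase a0)) (mul_nonneg h0 hε)
  linarith

theorem far {e θ : ℝ} (he : 0 ≤ e) (hε : 0 ≤ ε) (hεe : ε ≤ e ^ 2) {f : Fin N → ℝ}
    (hf : ∀ i, |f i| ≤ 1) (hθ : ∀ a, |hat cw f a| ≤ θ) (hθ1 : θ ≤ 1) :
    S10 cw f ≤ 2 * θ ^ 8 + e * 131072 := by
  classical
  have hN' : (0 : ℝ) < N := by exact_mod_cast hN
  let c : A → ℝ := fun a => hat cw f a ^ 9
  let g : Fin N → ℝ := fun i => ∑ a, c a * sg (cw i a)
  let R : A → ℝ := fun s => ∑ a, c a * c (s - a)
  have h1 : S10 cw f * N = ∑ i, f i * g i := by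
    simp only [g, mul_sum, S10, sum_mul]
    rw [sum_comm]
    refine sum_congr rfl fun a _ => ?_
    rw [pow_succ, mul_assoc]
    conv_lhs => rw [show hat cw f a * N = ∑ i, f i * sg (cw i a) from div_mul_cancel₀ _ hN'.ne']
    rw [mul_sum]
    exact sum_congr rfl fun i _ => by ring
  have h2 : ∑ i, g i ^ 2 = N * ∑ s, hat cw (fun _ => 1) s * R s := by
    have a1 : ∀ i, g i ^ 2 = ∑ s, sg (cw i s) * R s := by
      intro i
      simp only [g, R]
      rw [sq, sum_mul_sum]
      simp only [mul_sum]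
      conv_rhs => rw [sum_comm]
      refine sum_congr rfl fun a _ => ?_
      rw [← Equiv.sum_comp (Equiv.subRight a)
        fun b => c a * sg (cw i a) * (c b * sg (cw i b))]
      refine sum_congr rfl fun s _ => ?_
      rw [Equiv.subRight_apply, show sg (cw i s) = sg (cw i a) * sg (cw i (s - a)) by
        rw [← sg_add, ← map_add, add_sub_cancel]]
      ring
    simp only [a1]
    rw [sum_comm, mul_sum]
    refine sum_congr rfl fun s _ => ?_
    rw [← sum_mul, hat, ← mul_assoc, mul_div_cancel₀ _ hN'.ne']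
    simp
  have h3 : ∑ i, f i ^ 2 ≤ N := by
    refine (sum_le_card_nsmul _ _ 1 fun i _ => ?_).trans (by simp)
    rw [← sq_abs]; exact pow_le_one₀ (abs_nonneg _) (hf i)
  have h4 : S10 cw f ^ 2 ≤ ∑ s, hat cw (fun _ => 1) s * R s := by
    have a1 := (sum_mul_sq_le_sq_mul_sq univ f g).trans
      (mul_le_mul_of_nonneg_right h3 (sum_nonneg fun i _ => sq_nonneg (g i)))
    rw [← h1, h2, mul_pow] at a1
    refine le_of_mul_le_mul_right ?_ (pow_pos hN' 2)
    linarith
  have h5 : ∀ s, |R s| ≤ θ ^ 8 * S10 cw f := by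
    intro s
    have a1 : |R s| ≤ ∑ a, (c a ^ 2 + c (s - a) ^ 2) / 2 :=
      (abs_sum_le_sum_abs _ _).trans (sum_le_sum fun a _ => abs_le.2
        ⟨by nlinarith [sq_nonneg (c a + c (s - a))], by nlinarith [sq_nonneg (c a - c (s - a))]⟩)
    rw [← sum_div, sum_add_distrib,
      show ∑ a, c (s - a) ^ 2 = ∑ a, c a ^ 2 from
        Equiv.sum_comp (Equiv.subLeft s) fun a => c a ^ 2] at a1
    have a2 : ∑ a, c a ^ 2 ≤ θ ^ 8 * S10 cw f := by
      rw [S10, mul_sum]
      refine sum_le_sum fun a _ => ?_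
      rw [show c a ^ 2 = |hat cw f a| ^ 8 * hat cw f a ^ 10 by
        rw [Even.pow_abs (by decide)]; simp only [c]; ring]
      exact mul_le_mul_of_nonneg_right (pow_le_pow_left₀ (abs_nonneg _) (hθ a) 8) (by positivity)
    linarith
  have h6 : ∑ a, |c a| ≤ 131072 := by
    refine le_trans (sum_le_sum fun a _ => ?_) (G.m8 hN hf)
    rw [show |c a| = |hat cw f a| * hat cw f a ^ 8 by
      rw [← Even.pow_abs (by decide : Even 8), abs_pow]; ring]
    exact mul_le_of_le_one_left (by positivity) ((hθ a).trans hθ1)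
  have h7 : ∑ s, |R s| ≤ 131072 ^ 2 := by
    refine (sum_le_sum fun s _ => abs_sum_le_sum_abs _ _).trans ?_
    rw [sum_comm]
    have a1 : ∀ a, ∑ s, |c a * c (s - a)| = |c a| * ∑ b, |c b| := fun a => by
      simp only [abs_mul]
      rw [← mul_sum]
      exact congrArg _ (Equiv.sum_comp (Equiv.subRight a) fun b => |c b|)
    simp only [a1]
    rw [← sum_mul, ← sq]
    exact pow_le_pow_left₀ (sum_nonneg fun _ _ => abs_nonneg _) h6 2
  have h8 : ∑ s ∈ (univ.erase 0).erase a0, hat cw (fun _ => 1) s * R s ≤ ε * 131072 ^ 2 := by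
    refine le_trans ?_ (mul_le_mul_of_nonneg_left ((sum_le_sum_of_subset_of_nonneg
      (subset_univ ((univ.erase 0).erase a0)) fun _ _ _ => abs_nonneg _).trans h7) hε)
    rw [mul_sum]
    refine sum_le_sum fun s hs => (le_abs_self _).trans ?_
    rw [abs_mul]
    exact mul_le_mul_of_nonneg_right (G.small hN hs) (abs_nonneg _)
  rw [G.split hN, G.hat_a0, hat_one_zero hN] at h4
  have h9 := (abs_le.1 (h5 0)).2
  have h10 := (abs_le.1 (h5 a0)).1
  by_contra hc
  push Not at hc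
  have b1 : 0 ≤ θ ^ 8 := by positivity
  have b2 : 0 ≤ e * 131072 := by positivity
  have b3 : e * 131072 * (e * 131072) ≤ (S10 cw f - 2 * θ ^ 8) * (e * 131072) :=
    mul_le_mul_of_nonneg_right (by linarith) b2
  have b4 : (S10 cw f - 2 * θ ^ 8) * (e * 131072) < (S10 cw f - 2 * θ ^ 8) * S10 cw f ∨
      S10 cw f - 2 * θ ^ 8 ≤ 0 := by
    rcases lt_or_ge 0 (S10 cw f - 2 * θ ^ 8) with h | h
    · exact Or.inl (mul_lt_mul_of_pos_left (by linarith) h)
    · exact Or.inr h
  rcases b4 with b4 | b4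
  · nlinarith
  · linarith

theorem near (hε : 0 ≤ ε) {f : Fin N → ℝ} (hf : ∀ i, |f i| ≤ 1) :
    2 * (1 - hat cw f 0 ^ 10) - 20 * (1 - hat cw f 0) * (ε + (1 - hat cw f 0)) * 131072
      ≤ S10 cw (fun _ => 1) - S10 cw f := by
  classical
  have hN' : (0 : ℝ) < N := by exact_mod_cast hN
  set δ := 1 - hat cw f 0 with hδ
  have h1 : ∀ a, |hat cw f a - hat cw (fun _ => 1) a| ≤ δ := fun a => by
    refine (abs_hat_sub f _ a).trans (le_of_eq ?_)
    rw [hδ, hat_zero, sum_congr rfl fun i _ => abs_of_nonpos (sub_nonpos.2 (abs_le.1 (hf i)).2)]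
    simp only [neg_sub, sum_sub_distrib, sum_const, card_univ, Fintype.card_fin, nsmul_eq_mul]
    field_simp
  have h0 : 0 ≤ δ := (abs_nonneg _).trans (h1 0)
  have h2 : ∑ a ∈ (univ.erase 0).erase a0, (hat cw f a ^ 10 - hat cw (fun _ => 1) a ^ 10)
      ≤ 10 * δ * (ε + δ) * ∑ a ∈ (univ.erase 0).erase a0,
        (hat cw f a ^ 8 + hat cw (fun _ => 1) a ^ 8) := by
    rw [mul_sum]
    refine sum_le_sum fun a ha => (le_abs_self _).trans ((abs_pow_sub_pow_le _ _ _).trans ?_)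
    have a1 := G.small hN ha
    have a2 : |hat cw f a| ≤ ε + δ := by
      have := abs_sub_abs_le_abs_sub (hat cw f a) (hat cw (fun _ => 1) a)
      linarith [h1 a]
    have a3 : max |hat cw f a| |hat cw (fun _ => 1) a| ≤ ε + δ := max_le a2 (by linarith)
    have a4 : max |hat cw f a| |hat cw (fun _ => 1) a| ^ 8
        ≤ hat cw f a ^ 8 + hat cw (fun _ => 1) a ^ 8 := by
      rcases max_choice |hat cw f a| |hat cw (fun _ => 1) a| with h | h <;>
        rw [h, Even.pow_abs (by decide)]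
      · exact le_add_of_nonneg_right (by positivity)
      · exact le_add_of_nonneg_left (by positivity)
    have a5 := mul_le_mul a3 a4 (by positivity) (by positivity)
    rw [← pow_succ'] at a5
    have a6 := mul_le_mul (mul_le_mul_of_nonneg_right (h1 a) (by norm_num : (0 : ℝ) ≤ 10)) a5
      (by positivity) (by positivity)
    refine le_trans (le_of_eq ?_) (a6.trans (le_of_eq (by ring)))
    norm_num
  rw [sum_sub_distrib, sum_add_distrib] at h2
  have h3 := mul_le_mul_of_nonneg_left (add_le_add (G.m8' hN hf ((univ.erase 0).erase a0))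
    (G.m8' hN (f := fun _ => 1) (by simp) ((univ.erase 0).erase a0)))
    (by positivity : 0 ≤ 10 * δ * (ε + δ))
  rw [S10, S10, G.split hN, G.split hN, G.hat_a0, G.hat_a0, hat_one_zero hN,
    Even.neg_pow (by decide), Even.neg_pow (by decide)]
  linarith

/-- the main estimate -/
theorem est (hε : 0 ≤ ε) (hεe : ε ≤ (1 / 10 ^ 15) ^ 2) (hN' : (10 : ℝ) ^ 10 ≤ N) {f : Fin N → ℝ}
    (hf : ∀ i, |f i| ≤ 1) (hm : ∀ a, hat cw f a ≤ hat cw f 0) :
    9 * (1 - hat cw f 0) ≤ 201 / 200 * (1 - S10 cw f / S10 cw fun _ => 1) ∨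
    1 - hat cw f 0 + 20 / (9 * N) ≤ 201 / 200 * (1 - S10 cw f / S10 cw fun _ => 1) := by
  have hN0 : (0 : ℝ) < N := by exact_mod_cast hN
  set θ := hat cw f 0 with hθ
  have h1 : ∀ a, |hat cw f a| ≤ θ := fun a =>
    abs_le.2 ⟨by have := hm (a + a0); rw [G.hat_add] at this; linarith, hm a⟩
  have h0 : 0 ≤ θ := (abs_nonneg _).trans (h1 0)
  have h2 : θ ≤ 1 := by
    rw [hθ, hat_zero, div_le_one hN0]
    exact (sum_le_card_nsmul _ _ 1 fun i _ => (abs_le.1 (hf i)).2).trans (by simp)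
  have s1 := G.S1_ge hN
  have s2 := G.S1_le hN
  set S := S10 cw fun _ => 1 with hS
  have hε1 : ε ≤ 1 / 10 ^ 30 := hεe.trans (by norm_num)
  have hε2 : ε ^ 2 ≤ 1 / 10 ^ 30 := by nlinarith
  rcases le_total (1 - θ) (1 / (3 * 10 ^ 6)) with h | h
  · left
    have a1 := G.near hN hε hf
    rw [← hθ, ← hS] at a1
    have a2 : 1 - 9 * (1 - θ) ≤ θ ^ 9 := by
      have := one_add_mul_le_pow (a := θ - 1) (by linarith) 9
      rw [add_sub_cancel] at this
      push_cast at this
      linarith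
    have p : ∀ k, k ≤ 9 → θ ^ 9 ≤ θ ^ k := fun k hk => pow_le_pow_of_le_one h0 h2 hk
    have a3 : (1 - θ) * (10 * θ ^ 9) ≤ 1 - θ ^ 10 := by
      rw [show 1 - θ ^ 10 = (1 - θ) * (θ ^ 0 + θ ^ 1 + θ ^ 2 + θ ^ 3 + θ ^ 4 + θ ^ 5 + θ ^ 6 + θ ^ 7
        + θ ^ 8 + θ ^ 9) by ring]
      refine mul_le_mul_of_nonneg_left ?_ (by linarith)
      linarith [p 0 (by norm_num), p 1 (by norm_num), p 2 (by norm_num), p 3 (by norm_num),
        p 4 (by norm_num), p 5 (by norm_num), p 6 (by norm_num), p 7 (by norm_num),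
        p 8 (by norm_num)]
    have a4 : 9 * (1 - θ) ≤ 1 - S10 cw f / S := by
      rw [one_sub_div (by linarith), le_div_iff₀ (by linarith)]
      have b1 : 0 ≤ 1 - θ := by linarith
      have b2 : 9 * S ≤ 20 * θ ^ 9 - 20 * (ε + (1 - θ)) * 131072 := by linarith
      have b3 := mul_le_mul_of_nonneg_left b2 b1
      linarith
    linarith
  · right
    have a1 := G.far hN (e := 1 / 10 ^ 15) (by norm_num) hε hεe hf h1 h2
    have a2 : S10 cw f / S ≤ θ ^ 8 + 1 / 10 ^ 10 := by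
      rw [div_le_iff₀ (by linarith)]
      have : 0 ≤ θ ^ 8 := by positivity
      nlinarith
    have a3 : θ ^ 8 ≤ θ := pow_le_of_le_one h0 h2 (by norm_num)
    have a4 : 20 / (9 * (N : ℝ)) ≤ 3 / 10 ^ 10 := by
      rw [div_le_div_iff₀ (by positivity) (by positivity)]
      linarith
    linarith

end Good

end Pool.Agent.Lib.MP_507a1e_gt.Ev
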