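import Mathlib
import Pool.Agent.Lib.MP_507a1e_gt.E1Soft
import Pool.Agent.Lib.MP_507a1e_gt.E4Four

set_option autoImplicit false

noncomputable section

namespace Pool.Agent.Lib.MP_507a1e_gt.Ev

open Real Finset Module

variable {A : Type} [AddCommGroup A] {N : ℕ}

/-- integer vectors whose last N coordinates reduce to a codeword and whose coordinate sum is a
multiple of three -/
def lat3 (cw : Fin N → A →+ ZMod 2) : Submodule ℤ (Euc (N + 1)) where
  carrier := {v | ∃ (m : Fin (N + 1) → ℤ) (a : A), (∀ i, v i = m i) ∧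
    (∀ i : Fin N, (m i.succ : ZMod 2) = cw i a) ∧ 3 ∣ ∑ i, m i}
  zero_mem' := ⟨0, 0, by simp, by simp, by simp⟩
  add_mem' := by
    rintro v w ⟨m, a, h1, h2, h3⟩ ⟨m', a', h1', h2', h3'⟩
    exact ⟨m + m', a + a', fun i => by simp [h1, h1'], fun i => by simp [h2, h2'],
      by simpa [sum_add_distrib] using dvd_add h3 h3'⟩
  smul_mem' := by
    rintro c v ⟨m, a, h1, h2, h3⟩
    exact ⟨c • m, c • a, fun i => by simp [h1], fun i => by simp [h2],
      by simpa [← mul_sum] using Dvd.dvd.mul_left h3 c⟩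

variable (cw : Fin N → A →+ ZMod 2)

theorem lat3_min : ∀ v ∈ lat3 cw, v ≠ 0 → 1 ≤ ‖v‖ := by
  rintro v ⟨m, a, h1, -⟩ hv
  obtain ⟨i, hi⟩ : ∃ i, m i ≠ 0 := by
    by_contra h
    push Not at h
    exact hv (by ext i; simp [h1, h])
  refine le_trans ?_ (PiLp.norm_apply_le v i)
  rw [h1, Int.norm_cast_real, Int.norm_eq_abs]
  exact_mod_cast Int.one_le_abs hi

/-- the vector with first coordinate j and further coordinates y -/
def vec (j : ℝ) (y : Fin N → ℝ) : Euc (N + 1) := WithLp.toLp 2 (Fin.cons j y)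

@[simp] theorem vec_zero (j : ℝ) (y : Fin N → ℝ) : vec j y 0 = j := rfl

@[simp] theorem vec_succ (j : ℝ) (y : Fin N → ℝ) (i : Fin N) : vec j y i.succ = y i := rfl

theorem inner_vec (u : Euc (N + 1)) (j : ℝ) (y : Fin N → ℝ) :
    inner ℝ u (vec j y) = j * u 0 + ∑ i : Fin N, y i * u i.succ := by
  simp [PiLp.inner_apply, Fin.sum_univ_succ]

theorem vec_mem (j : ℤ) (y : Fin N → ℤ) (a : A) (h : ∀ i, (y i : ZMod 2) = cw i a)
    (h3 : 3 ∣ j + ∑ i, y i) : vec (j : ℝ) (fun i => (y i : ℝ)) ∈ lat3 cw :=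
  ⟨Fin.cons j y, a, fun i => by induction i using Fin.cases <;> simp, fun i => by simpa using h i,
    by simpa [Fin.sum_univ_succ] using h3⟩

theorem lat3_six (i : Fin (N + 1)) : EuclideanSpace.single i (6 : ℝ) ∈ lat3 cw := by
  refine ⟨Pi.single i 6, 0, fun j => ?_, fun j => ?_, by simp⟩
  · by_cases h : j = i <;> simp [h]
  · by_cases h : j.succ = i
    · simp only [h, Pi.single_eq_same, map_zero]; rfl
    · simp [h]

theorem lat3_basis : ∃ b : Basis (Fin (N + 1)) ℝ (Euc (N + 1)),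
    lat3 cw = Submodule.span ℤ (Set.range b) := by
  have : DiscreteTopology (lat3 cw) := by
    rw [discreteTopology_iff_isOpen_singleton_zero]
    suffices h : ({0} : Set (lat3 cw)) = Metric.ball 0 1 from h ▸ Metric.isOpen_ball
    ext v
    rw [mem_ball_zero_iff, Set.mem_singleton_iff]
    refine ⟨fun h => by simp [h], fun h => ?_⟩
    by_contra h'
    exact (lat3_min cw v v.2 fun h'' => h' (Subtype.ext h'')).not_gt h
  have : IsZLattice ℝ (lat3 cw) := by
    refine ⟨top_le_iff.1 fun x _ => ?_⟩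
    have : x = ∑ i, (x i / 6) • EuclideanSpace.single i (6 : ℝ) := by
      ext j; simp [Pi.single_apply]
    rw [this]
    exact Submodule.sum_mem _ fun i _ => Submodule.smul_mem _ _
      (Submodule.subset_span (lat3_six cw i))
  have := ZLattice.module_free ℝ (lat3 cw)
  have := ZLattice.module_finite ℝ (lat3 cw)
  exact ⟨(Module.finBasisOfFinrankEq ℤ (lat3 cw) ((ZLattice.rank ℝ _).trans
    finrank_euclideanSpace_fin)).ofZLatticeBasis ℝ (lat3 cw), (Basis.ofZLatticeBasis_span _ _ _).symm⟩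

theorem cos_int (k : ℤ) : cos (k * π) = sg (k : ZMod 2) := by
  rcases Int.even_or_odd' k with ⟨s, rfl | rfl⟩
  · rw [ZMod.intCast_eq_zero_iff_even.2 (even_two_mul s), sg_zero, ← cos_int_mul_two_pi s]
    congr 1; push_cast; ring
  · rw [ZMod.intCast_eq_one_iff_odd.2 (odd_two_mul_add_one s), sg_one, ← cos_pi,
      ← cos_add_int_mul_two_pi π s]
    congr 1; push_cast; ring

theorem cos_third (k : ℤ) : 1 - cos (2 * π * (k / 3)) ≤ 3 / 2 := by
  have h3 : cos (2 * π / 3) = -(1 / 2) := by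
    rw [← cos_pi_div_three, ← cos_pi_sub]; congr 1; ring
  obtain ⟨s, rfl | rfl | rfl⟩ : ∃ s : ℤ, k = 3 * s ∨ k = 3 * s + 1 ∨ k = 3 * s - 1 :=
    ⟨(k + 1) / 3, by omega⟩
  · rw [show 2 * π * (((3 * s : ℤ) : ℝ) / 3) = s * (2 * π) by push_cast; ring, cos_int_mul_two_pi]
    norm_num
  · rw [show 2 * π * (((3 * s + 1 : ℤ) : ℝ) / 3) = 2 * π / 3 + s * (2 * π) by push_cast; ring,
      cos_add_int_mul_two_pi, h3]
    norm_num
  · rw [show 2 * π * (((3 * s - 1 : ℤ) : ℝ) / 3) = -(2 * π / 3) + s * (2 * π) by push_cast; ring,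
      cos_add_int_mul_two_pi, cos_neg, h3]
    norm_num

/-- the vertices of the cube -/
def vtx (y : Fin N → ZMod 2) : Euc (N + 1) := vec 0 fun i => ((y i).val : ℝ)

variable {cw}

theorem pointwise (hd : DD cw 9) (hN : (180 : ℝ) ≤ N) (u : dual (lat3 cw)) :
    10 * ((∑ y : Fin N → ZMod 2, (1 - cos (2 * π * inner ℝ (u : Euc (N + 1)) (vtx y)))) / 2 ^ N)
      + 2 * (N / 27 - 20 / 3) * (1 - cos (2 * π * inner ℝ (u : Euc (N + 1)) (vec 1 fun _ => 0)))
      ≤ 4 * ∑ i : Fin N, (u : Euc (N + 1)) i.succ ^ 2 := by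
  classical
  obtain ⟨u, hu⟩ := u
  simp only
  obtain ⟨k, hk⟩ : ∃ k : ℤ, u 0 = k / 3 := by
    obtain ⟨k, hk⟩ := hu _ (vec_mem cw 3 0 0 (by simp) (by simp))
    rw [inner_vec] at hk
    exact ⟨k, by simp at hk; linarith⟩
  have h1 : ∀ i : Fin N, ∃ w : ℤ, u 0 + 2 * u i.succ = w := fun i => by
    obtain ⟨w, hw⟩ := hu _ (vec_mem cw 1 (Pi.single i 2) 0 (fun j => by
      by_cases h : j = i
      · simp only [h, Pi.single_eq_same, map_zero]; rfl
      · simp [h]) (by simp))
    rw [inner_vec] at hw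
    exact ⟨w, by simpa [Pi.single_apply] using hw⟩
  choose w hw using h1
  have e0 : inner ℝ u (vec 1 fun _ => 0) = u 0 := by rw [inner_vec]; simp
  have hc : (Fintype.card (Fin N → ZMod 2) : ℝ) = 2 ^ N := by simp
  rw [e0]
  by_cases h3 : 3 ∣ k
  · obtain ⟨k, rfl⟩ := h3
    have hk' : u 0 = k := by rw [hk]; push_cast; ring
    let r : Fin N → ℤ := fun i => w i - k
    have hr : ∀ i, u i.succ = r i / 2 := fun i => by
      have := hw i
      simp only [r]; push_cast; linarith
    let T : Finset (Fin N) := univ.filter fun i => Odd (r i)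
    have hT : ∀ y : Fin N → ZMod 2, ((∑ i, ((y i).val : ℤ) * r i : ℤ) : ZMod 2) = ∑ i ∈ T, y i := by
      intro y
      push_cast
      rw [sum_filter]
      refine sum_congr rfl fun i _ => ?_
      split_ifs with h
      · simp [ZMod.intCast_eq_one_iff_odd.2 h]
      · simp [ZMod.intCast_eq_zero_iff_even.2 (Int.not_odd_iff_even.1 h)]
    have h2 : ∀ y : Fin N → ZMod 2,
        cos (2 * π * inner ℝ u (vtx y)) = sg ((∑ i ∈ T, full (Fin N) i) y) := by
      intro y
      rw [AddMonoidHom.finsetSum_apply]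
      refine Eq.trans ?_ (congrArg sg (hT y))
      rw [← cos_int, vtx, inner_vec]
      congr 1
      simp only [hr]
      push_cast
      rw [zero_mul, zero_add, mul_sum, sum_mul]
      exact sum_congr rfl fun i _ => by ring
    have h4 : ∑ i ∈ T, cw i = 0 := by
      ext a
      obtain ⟨s, hs⟩ := hu _ (vec_mem cw (-∑ i, ((cw i a).val : ℤ)) (fun i => (cw i a).val) a
        (by simp) (by simp))
      rw [inner_vec, hk'] at hs
      have a1 : ∑ i, ((cw i a).val : ℤ) * r i = 2 * (s + (∑ i, ((cw i a).val : ℤ)) * k) := by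
        apply Int.cast_injective (α := ℝ)
        simp only [hr] at hs
        push_cast at hs ⊢
        rw [← hs, mul_add, mul_add, mul_sum _ _ (2 : ℝ)]
        rw [sum_congr rfl fun i _ => (by ring : 2 * (((cw i a).val : ℝ) * ((r i : ℝ) / 2))
          = ((cw i a).val : ℝ) * r i)]
        ring
      rw [AddMonoidHom.finsetSum_apply, ← hT fun i => cw i a, a1]
      exact ZMod.intCast_eq_zero_iff_even.2 (even_two_mul _)
    rw [hk', mul_comm (2 * π) (k : ℝ), cos_int_mul_two_pi, sub_self, mul_zero, add_zero]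
    simp only [h2, sum_sub_distrib, sum_sg]
    by_cases hne : T.Nonempty
    · rw [if_neg (DD_full T.card T hne le_rfl)]
      have a1 : (10 : ℝ) ≤ T.card := by
        have : 9 < T.card := not_le.1 fun h => hd T hne h h4
        exact_mod_cast this
      have a2 : (T.card : ℝ) * (1 / 4) ≤ ∑ i : Fin N, u i.succ ^ 2 := by
        refine le_trans ?_ (sum_le_sum_of_subset_of_nonneg (subset_univ T)
          fun _ _ _ => sq_nonneg _)
        rw [← nsmul_eq_mul]
        refine card_nsmul_le_sum _ _ _ fun i hi => ?_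
        have b1 : r i ≠ 0 := fun h => by
          have := (mem_filter.1 hi).2
          rw [h] at this
          exact absurd this (by decide)
        have b2 : (1 : ℝ) ≤ (r i : ℝ) ^ 2 := by
          rw [← sq_abs]; exact one_le_pow₀ (by exact_mod_cast Int.one_le_abs b1)
        rw [hr]; linarith
      rw [sum_const, card_univ, nsmul_eq_mul, hc, mul_one, sub_zero, div_self (by positivity)]
      linarith
    · rw [not_nonempty_iff_eq_empty.1 hne, sum_empty, if_pos rfl, sum_const, card_univ,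
        nsmul_eq_mul, mul_one, sub_self, zero_div, mul_zero]
      positivity
  · have a1 : (∑ y : Fin N → ZMod 2, (1 - cos (2 * π * inner ℝ u (vtx y)))) / 2 ^ N ≤ 2 := by
      rw [div_le_iff₀ (by positivity)]
      refine (sum_le_card_nsmul _ _ 2 fun y _ => one_sub_cos_le _).trans ?_
      rw [card_univ, nsmul_eq_mul, hc, mul_comm]
    have a2 := mul_le_mul_of_nonneg_left (cos_third k)
      (by linarith : (0 : ℝ) ≤ 2 * (N / 27 - 20 / 3))
    have a3 : (N : ℝ) * (1 / 36) ≤ ∑ i : Fin N, u i.succ ^ 2 := by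
      refine le_trans (by simp) (card_nsmul_le_sum univ _ (1 / 36 : ℝ) fun i _ => ?_)
      have b1 : 3 * w i - k ≠ 0 := fun h => h3 ⟨w i, by omega⟩
      have b2 : (1 : ℝ) ≤ ((3 * w i - k : ℤ) : ℝ) ^ 2 := by
        rw [← sq_abs]; exact one_le_pow₀ (by exact_mod_cast Int.one_le_abs b1)
      have b3 : u i.succ = ((3 * w i - k : ℤ) : ℝ) / 6 := by
        have := hw i
        push_cast; linarith
      rw [b3]; linarith
    rw [hk]
    linarith

variable [Fintype A] {a0 : A} {ε : ℝ}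

theorem dd_vtx [DiscreteTopology (lat3 cw)] (hN : 0 < N) (y : Fin N → ZMod 2) :
    N / 2 * (999 / 1000 - 10 ^ 27 * S10 cw fun i => sg (y i)) ≤ dd (lat3 cw) (vtx y) ^ 2 := by
  have hN' : (0 : ℝ) < N := by exact_mod_cast hN
  obtain ⟨v, ⟨m, a, h1, h2, -⟩, hd⟩ := exists_dd (L := lat3 cw) (vtx y)
  have a1 : hat cw (fun i => sg (y i)) a ≤ 1 / 1000 + 10 ^ 27 * S10 cw fun i => sg (y i) := by
    have b1 : hat cw (fun i => sg (y i)) a ^ 10 ≤ S10 cw fun i => sg (y i) :=
      single_le_sum (f := fun a => hat cw (fun i => sg (y i)) a ^ 10) (fun _ _ => by positivity)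
        (mem_univ a)
    set h := hat cw (fun i => sg (y i)) a
    have b2 : 0 ≤ h ^ 10 := by positivity
    rcases le_total h (1 / 1000) with b3 | b3
    · linarith
    · have b4 := mul_le_mul_of_nonneg_right (pow_le_pow_left₀ (by norm_num) b3 9)
        (by linarith : 0 ≤ h)
      rw [← pow_succ] at b4
      norm_num at b4
      linarith
  have a2 : N / 2 * (1 - hat cw (fun i => sg (y i)) a)
      = ∑ i, (1 - sg (y i) * sg (cw i a)) / 2 := by
    rw [← sum_div, sum_sub_distrib, hat]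
    simp only [sum_const, card_univ, Fintype.card_fin, nsmul_eq_mul]
    field_simp
  refine le_trans (mul_le_mul_of_nonneg_left (by linarith) (by positivity)) (a2.le.trans ?_)
  rw [hd, EuclideanSpace.real_norm_sq_eq, Fin.sum_univ_succ]
  refine le_trans (sum_le_sum fun i _ => ?_) (le_add_of_nonneg_left (sq_nonneg _))
  by_cases h : y i = cw i a
  · rw [h, ← sg_add, CharTwo.add_self_eq_zero, sg_zero, sub_self, zero_div]
    exact sq_nonneg _
  · have h3 : ((y i).val : ℤ) - m i.succ ≠ 0 := fun h' => h (by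
      rw [← h2, ← sub_eq_zero.1 h']; simp)
    have h4 : (1 : ℝ) ≤ (((y i).val : ℝ) - m i.succ) ^ 2 := by
      have : 1 ≤ (((y i).val : ℤ) - m i.succ) ^ 2 := by
        rw [← sq_abs]; exact one_le_pow₀ (Int.one_le_abs h3)
      exact_mod_cast this
    have h5 := (abs_le.1 (abs_sg (y i + cw i a)).le).1
    rw [sg_add] at h5
    simp only [vtx, PiLp.sub_apply, vec_succ, h1]
    linarith

theorem sum_S10 (G : Good cw a0 ε) (hN : 0 < N) :
    ∑ y : Fin N → ZMod 2, S10 cw (fun i => sg (y i)) ≤ 2 ^ N * (2 * 5 ^ 10 / N) := by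
  classical
  have hN' : (0 : ℝ) < N := by exact_mod_cast hN
  have : Nonempty (Fin N) := ⟨⟨0, hN⟩⟩
  simp only [S10]
  rw [sum_comm]
  have h1 : ∀ a, ∑ y : Fin N → ZMod 2, hat cw (fun i => sg (y i)) a ^ 10
      ≤ 2 ^ N * (5 ^ 10 * (N : ℝ) ^ 5) / N ^ 10 := by
    intro a
    have := mom_le (full (Fin N)) (h := 5) (DD_full 10) (by norm_num)
      (f := fun i => sg (cw i a)) fun i => (abs_sg _).le
    simp only [hat, div_pow, ← sum_div]
    refine div_le_div_of_nonneg_right (le_trans (le_of_eq ?_) (this.trans (le_of_eq ?_)))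
      (by positivity)
    · simp only [full, Pi.evalAddMonoidHom_apply, mul_comm]
    · simp
  refine (sum_le_card_nsmul _ _ _ fun a _ => h1 a).trans ?_
  rw [card_univ, nsmul_eq_mul]
  refine (mul_le_mul_of_nonneg_right G.card (by positivity)).trans (le_of_eq ?_)
  field_simp

theorem lower (G : Good cw a0 ε) (hN' : (10 : ℝ) ^ 38 ≤ N) :
    253 / 100 * π ^ 2 ≤ (c2 (Euc (N + 1) ⧸ lat3 cw)).toReal ^ 2 := by
  classical
  have hN0 : (0 : ℝ) < N := lt_of_lt_of_le (by positivity) hN'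
  have hN : 0 < N := by exact_mod_cast hN0
  obtain ⟨b, hb⟩ := lat3_basis cw
  have : DiscreteTopology (lat3 cw) := hb ▸ inferInstance
  have := nontrivial_of (e := EuclideanSpace.single 0 1) (by simp) (lat3_min cw)
  obtain ⟨z, h0, hs, hz⟩ := exists_opt b hb (ContinuousLinearMap.id ℝ _) fun _ h => h
  simp only [ContinuousLinearMap.id_apply] at hz
  set C := (c2 (Euc (N + 1) ⧸ lat3 cw)).toReal ^ 2 with hC
  have hC0 : 0 ≤ C := sq_nonneg _
  have hF : ∀ x, HasSum (fun u : dual (lat3 cw) =>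
      z u * (1 - cos (2 * π * inner ℝ (u : Euc (N + 1)) x))) (Fz _ z x / 2) := fun x => by
    rw [Fz, mul_div_cancel_left₀ _ two_ne_zero]
    exact (summable_F h0 hs x).hasSum
  have h1 := (((hasSum_sum fun y (_ : y ∈ (univ : Finset (Fin N → ZMod 2))) =>
    hF (vtx y)).div_const (2 ^ N)).mul_left 10).add
      ((hF (vec 1 fun _ => 0)).mul_left (2 * ((N : ℝ) / 27 - 20 / 3)))
  have h2 := hasSum_le_of_sum_le (h1.mul_left (π ^ 2)) (c := N * C) fun S => by
    have a1 : ∀ i : Fin N, ∑ u ∈ S, z u * (2 * π * inner ℝ (u : Euc (N + 1))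
        (EuclideanSpace.single i.succ (1 : ℝ))) ^ 2 ≤ C := fun i =>
      hess h0 hs _ (fun t => (hz _).2.trans (mul_le_mul_of_nonneg_left (by
        have := pow_le_pow_left₀ (dd_nonneg _) (dd_le (t • EuclideanSpace.single i.succ (1 : ℝ))
          (lat3 cw).zero_mem) 2
        simpa [norm_smul] using this) hC0)) S
    refine le_trans ?_ ((sum_le_card_nsmul _ _ _ fun i (_ : i ∈ univ) => a1 i).trans (by simp))
    rw [sum_comm]
    refine sum_le_sum fun u _ => ?_
    have a2 := mul_le_mul_of_nonneg_left (pointwise G.dd (le_trans (by norm_num) hN') u)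
      (mul_nonneg (sq_nonneg π) (h0 u))
    rw [← mul_sum, ← mul_sum]
    refine le_trans (le_of_eq (by ring)) (a2.trans (le_of_eq ?_))
    simp only [EuclideanSpace.inner_single_right, conj_trivial, one_mul, mul_pow, ← mul_sum]
    ring
  have h3 : 1 ≤ Fz _ z (vec 1 fun _ => 0) := by
    refine le_trans ?_ (hz _).1
    obtain ⟨v, ⟨m, a, b1, -, b3⟩, hd⟩ := exists_dd (L := lat3 cw) (vec 1 fun _ => 0)
    rw [hd, EuclideanSpace.real_norm_sq_eq]
    obtain ⟨i, hi⟩ : ∃ i, (Fin.cons 1 0 : Fin (N + 1) → ℤ) i - m i ≠ 0 := by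
      by_contra hc
      push Not at hc
      rw [← sum_congr rfl fun i _ => sub_eq_zero.1 (hc i)] at b3
      simp [Fin.sum_univ_succ] at b3
    refine le_trans ?_ (single_le_sum (fun _ _ => sq_nonneg _) (mem_univ i))
    have b4 : 1 ≤ ((Fin.cons 1 0 : Fin (N + 1) → ℤ) i - m i) ^ 2 := by
      rw [← sq_abs]; exact one_le_pow₀ (Int.one_le_abs hi)
    have b5 : (vec 1 fun _ => 0 : Euc (N + 1)) i = ((Fin.cons 1 0 : Fin (N + 1) → ℤ) i : ℤ) := by
      induction i using Fin.cases <;> simp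
    rw [PiLp.sub_apply, b1, b5]
    exact_mod_cast b4
  have h4 : N / 2 * (998 / 1000) ≤ (∑ y : Fin N → ZMod 2, Fz _ z (vtx y)) / 2 ^ N := by
    rw [le_div_iff₀ (by positivity)]
    refine le_trans ?_ (sum_le_sum fun y _ => (dd_vtx hN y).trans (hz _).1)
    rw [← mul_sum, sum_sub_distrib, ← mul_sum, sum_const, card_univ, nsmul_eq_mul, mul_assoc]
    refine mul_le_mul_of_nonneg_left ?_ (by positivity)
    have a1 := sum_S10 G hN
    have a2 : 2 * 5 ^ 10 / (N : ℝ) ≤ 1 / 10 ^ 30 := by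
      rw [div_le_div_iff₀ hN0 (by positivity)]; linarith
    have a3 := mul_le_mul_of_nonneg_left a2 (by positivity : (0 : ℝ) ≤ 2 ^ N)
    have hc : (Fintype.card (Fin N → ZMod 2) : ℝ) = 2 ^ N := by simp
    rw [hc]
    linarith
  rw [← sum_div, div_right_comm] at h2
  have h5 := mul_le_mul_of_nonneg_left h3 (by linarith : (0 : ℝ) ≤ N / 27 - 20 / 3)
  refine le_of_mul_le_mul_left (le_trans ?_ h2) hN0
  rw [mul_comm (N : ℝ), mul_right_comm, mul_comm _ (π ^ 2)]
  refine mul_le_mul_of_nonneg_left ?_ (sq_nonneg π)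
  linarith

end Pool.Agent.Lib.MP_507a1e_gt.Ev
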