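import Mathlib
import Pool.Agent.Lib.MP_507a1e_gt.E5Low

set_option autoImplicit false

noncomputable section

namespace Pool.Agent.Lib.MP_507a1e_gt.Ev

open Real Finset Module

theorem fin_weight {n : ℕ} {L : Submodule ℤ (Euc n)} {Ω : Type} (s : Finset Ω) (U : Ω → Euc n)
    (hU : ∀ ω ∈ s, U ω ∈ dual L) {p : ℝ} (hp : 0 ≤ p) :
    ∃ z : dual L → ℝ, (∀ u, 0 ≤ z u) ∧ Summable z ∧
      ∀ x, Fz L z x = 2 * p * ∑ ω ∈ s, (1 - cos (2 * π * inner ℝ (U ω) x)) := by
  classical
  let z : dual L → ℝ := fun u => ∑ ω ∈ s, if (u : Euc n) = U ω then p else 0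
  have hz : ∀ f : Euc n → ℝ, HasSum (fun u : dual L => z u * f u) (∑ ω ∈ s, p * f (U ω)) := by
    intro f
    simp only [z, sum_mul]
    refine hasSum_sum fun ω hω => ?_
    convert hasSum_single (f := fun u : dual L => (if (u : Euc n) = U ω then p else 0) * f u)
      ⟨U ω, hU ω hω⟩ (fun u hu => by rw [if_neg fun h => hu (Subtype.ext h), zero_mul]) using 1
    simp
  refine ⟨z, fun u => sum_nonneg fun _ _ => by split_ifs <;> positivity,
    by simpa using (hz fun _ => 1).summable, fun x => ?_⟩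
  rw [Fz, (hz fun u => 1 - cos (2 * π * inner ℝ u x)).tsum_eq, ← mul_sum, mul_assoc]

/-- a sign -/
def sb (b : Bool) : ℤ := if b then 1 else -1

theorem sum_cos {w : ℕ} (θ : Fin w → ℝ) :
    ∑ σ : Fin w → Bool, cos (∑ j, sb (σ j) * θ j) = 2 ^ w * ∏ j, cos (θ j) := by
  have h1 := prod_univ_sum (fun _ : Fin w => (univ : Finset Bool))
    fun j b => Complex.exp (((sb b * θ j : ℝ) : ℂ) * Complex.I)
  have h2 : ∀ j, ∑ b : Bool, Complex.exp (((sb b * θ j : ℝ) : ℂ) * Complex.I)
      = ((2 * cos (θ j) : ℝ) : ℂ) := fun j => by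
    rw [Fintype.sum_bool]
    push_cast
    rw [Complex.two_cos]
    simp [sb]
  simp only [h2] at h1
  rw [Fintype.piFinset_univ, ← Complex.ofReal_prod] at h1
  have h3 := congrArg Complex.re h1
  rw [Complex.ofReal_re, Complex.re_sum, prod_mul_distrib, prod_const, card_univ,
    Fintype.card_fin] at h3
  rw [h3]
  refine sum_congr rfl fun σ _ => ?_
  rw [← Complex.exp_sum, ← sum_mul, ← Complex.ofReal_sum, Complex.exp_ofReal_mul_I_re]

theorem one_sub_prod_le {J : Type} (s : Finset J) {c : J → ℝ} (hc : ∀ j, |c j| ≤ 1) :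
    1 - ∏ j ∈ s, c j ≤ ∑ j ∈ s, (1 - c j) := by
  classical
  induction s using Finset.induction_on with
  | empty => simp
  | insert a s ha ih =>
    rw [prod_insert ha, sum_insert ha]
    have h1 : ∏ j ∈ s, c j ≤ 1 := (le_abs_self _).trans (by
      rw [abs_prod]; exact prod_le_one (fun _ _ => abs_nonneg _) fun _ _ => hc _)
    nlinarith [mul_nonneg (sub_nonneg.2 (abs_le.1 (hc a)).2) (sub_nonneg.2 h1)]

variable {A : Type} [AddCommGroup A] [Fintype A] {N : ℕ} {cw : Fin N → A →+ ZMod 2} {a0 : A} {ε : ℝ}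

theorem S10_eq (hN : 0 < N) (f : Fin N → ℝ) :
    S10 cw f * (N : ℝ) ^ 10 = Fintype.card A * ∑ τ ∈ Zt cw (Fin 10), ∏ j, f (τ j) := by
  have hN' : (0 : ℝ) < N := by exact_mod_cast hN
  rw [← moment cw fun _ : Fin 10 => f]
  simp only [S10, hat, div_pow, ← sum_div, prod_const, card_univ, Fintype.card_fin]
  exact div_mul_cancel₀ _ (by positivity)

theorem slot_eq (hN : 0 < N) (g : Fin N → ℝ) (j : Fin 10) :
    (∑ a, hat cw g a * hat cw (fun _ => 1) a ^ 9) * (N : ℝ) ^ 10
      = Fintype.card A * ∑ τ ∈ Zt cw (Fin 10), g (τ j) := by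
  have hN' : (0 : ℝ) < N := by exact_mod_cast hN
  have h := moment cw (Function.update (fun _ : Fin 10 => fun _ : Fin N => (1 : ℝ)) j g)
  have h' : ∀ τ : Fin 10 → Fin N, ∏ k, Function.update (fun _ : Fin 10 => fun _ : Fin N => (1 : ℝ))
      j g k (τ k) = g (τ j) := fun τ =>
    (prod_eq_single j (fun k _ hk => by rw [Function.update_of_ne hk])
      (fun h => absurd (mem_univ j) h)).trans (by rw [Function.update_self])
  simp only [h'] at h
  rw [← h, sum_mul]
  refine sum_congr rfl fun a _ => ?_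
  rw [← mul_prod_erase univ _ (mem_univ j), Function.update_self,
    prod_congr rfl fun k hk => by rw [Function.update_of_ne (mem_erase.1 hk).1], prod_const,
    card_erase_of_mem (mem_univ j), card_univ, Fintype.card_fin, hat, hat]
  field_simp

/-- the dual vector of a signed tuple -/
def tup (ω : (Fin 10 → Fin N) × (Fin 10 → Bool)) : Euc (N + 1) :=
  ∑ j, EuclideanSpace.single (ω.1 j).succ ((sb (ω.2 j) : ℝ) / 2)

theorem inner_tup (ω : (Fin 10 → Fin N) × (Fin 10 → Bool)) (x : Euc (N + 1)) :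
    inner ℝ (tup ω) x = ∑ j, (sb (ω.2 j) : ℝ) / 2 * x (ω.1 j).succ := by
  simp only [tup, sum_inner, EuclideanSpace.inner_single_left, conj_trivial]

theorem tup_mem {ω : (Fin 10 → Fin N) × (Fin 10 → Bool)} (h : ω.1 ∈ Zt cw (Fin 10)) :
    tup ω ∈ dual (lat3 cw) := by
  classical
  rintro v ⟨m, a, h1, h2, -⟩
  have h3 : ((∑ j, sb (ω.2 j) * m (ω.1 j).succ : ℤ) : ZMod 2) = 0 := by
    have h4 := DFunLike.congr_fun (mem_filter.1 h).2 a
    rw [AddMonoidHom.finsetSum_apply] at h4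
    push_cast
    refine (sum_congr rfl fun j _ => ?_).trans h4
    rw [h2, show ((sb (ω.2 j) : ℤ) : ZMod 2) = 1 by cases ω.2 j <;> decide, one_mul]
  obtain ⟨r, hr⟩ := ZMod.intCast_eq_zero_iff_even.1 h3
  refine ⟨r, ?_⟩
  have h5 := congrArg (Int.cast : ℤ → ℝ) hr
  push_cast at h5
  rw [inner_tup, sum_congr rfl fun j _ => (by rw [h1]; ring :
    (sb (ω.2 j) : ℝ) / 2 * v (ω.1 j).succ = (sb (ω.2 j) : ℝ) * m (ω.1 j).succ / 2), ← sum_div, h5]
  ring

/-- the cheap weight -/
theorem exists_cheap (G : Good cw a0 ε) (hN : 0 < N) (hε : 0 ≤ ε) (hε1 : ε ≤ 1 / 10 ^ 30) :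
    ∃ z : dual (lat3 cw) → ℝ, (∀ u, 0 ≤ z u) ∧ Summable z ∧
      (∀ x, Fz _ z x = 5 / 4 * (1 - cos (2 * π * x 0)) + N / 2 * (201 / 200 *
        (1 - S10 cw (fun i => cos (π * x i.succ)) / S10 cw fun _ => 1))) ∧
      ∀ x, Fz _ z x ≤ 252 / 100 * π ^ 2 * ‖x‖ ^ 2 := by
  classical
  have hN' : (0 : ℝ) < N := by exact_mod_cast hN
  have hA : (0 : ℝ) < Fintype.card A := by exact_mod_cast Fintype.card_pos
  have s1 := G.S1_ge hN
  have e1 := S10_eq (cw := cw) hN fun _ => 1
  simp only [prod_const_one, sum_const, nsmul_eq_mul, mul_one] at e1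
  set Z : ℝ := ((Zt cw (Fin 10)).card : ℝ) with hZ
  have hZ0 : 0 < Z := by
    refine (mul_pos_iff_of_pos_left hA).1 ?_
    rw [← e1]; positivity
  obtain ⟨z1, p1, q1, r1⟩ := fin_weight (L := lat3 cw) (Zt cw (Fin 10) ×ˢ univ) tup
    (fun ω hω => tup_mem (mem_product.1 hω).1) (p := N / 4 * (201 / 200) / (Z * 2 ^ 10))
    (by positivity)
  obtain ⟨z0, p0, q0, r0⟩ := fin_weight (L := lat3 cw) ({()} : Finset Unit)
    (fun _ => EuclideanSpace.single 0 1) (fun _ _ => by
      rintro v ⟨m, a, h, -⟩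
      exact ⟨m 0, by simp [EuclideanSpace.inner_single_left, h]⟩) (p := 5 / 8) (by norm_num)
  have r2 : ∀ x, Fz _ z1 x = N / 2 * (201 / 200) *
      ((∑ τ ∈ Zt cw (Fin 10), (1 - ∏ j, cos (π * x (τ j).succ))) / Z) := by
    intro x
    have a1 : ∀ τ : Fin 10 → Fin N, ∑ σ : Fin 10 → Bool, (1 - cos (2 * π * inner ℝ (tup (τ, σ)) x))
        = 2 ^ 10 * (1 - ∏ j, cos (π * x (τ j).succ)) := by
      intro τ
      rw [sum_sub_distrib, mul_sub, ← sum_cos]
      congr 1
      · simp; norm_num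
      · refine sum_congr rfl fun σ _ => ?_
        rw [inner_tup, mul_sum]
        exact congrArg cos (sum_congr rfl fun j _ => by ring)
    rw [r1, sum_product]
    simp only [a1]
    rw [← mul_sum]
    field_simp
    ring
  have r3 : ∀ x, Fz _ (fun u => 1 * z0 u + 1 * z1 u) x
      = 5 / 4 * (1 - cos (2 * π * x 0)) + Fz _ z1 x := by
    intro x
    rw [Fz_comb p0 q0 p1 q1, r0]
    simp only [EuclideanSpace.inner_single_left, conj_trivial, sum_singleton, one_mul]
    ring
  refine ⟨fun u => 1 * z0 u + 1 * z1 u, fun u => by have := p0 u; have := p1 u; positivity,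
    (q0.mul_left 1).add (q1.mul_left 1), fun x => ?_, fun x => ?_⟩
  · have e3 : (∑ τ ∈ Zt cw (Fin 10), ∏ j, cos (π * x (τ j).succ)) / Z
        = S10 cw (fun i => cos (π * x i.succ)) / S10 cw fun _ => 1 := by
      rw [div_eq_div_iff hZ0.ne' (by linarith)]
      have e2 := S10_eq (cw := cw) hN fun i => cos (π * x i.succ)
      refine mul_right_cancel₀ (b := (N : ℝ) ^ 10) (by positivity) ?_
      rw [mul_assoc, e1, mul_right_comm (S10 cw _), e2]
      ring
    rw [r3, r2, sum_sub_distrib, sum_const, nsmul_eq_mul, mul_one, ← hZ, sub_div,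
      div_self hZ0.ne', e3]
    ring
  · let g : Fin N → ℝ := fun i => 1 - cos (π * x i.succ)
    have hg : ∀ i, 0 ≤ g i := fun i => sub_nonneg.2 (cos_le_one _)
    have h0 : 0 ≤ hat cw g 0 := (abs_nonneg _).trans (abs_hat_le hg 0)
    have a1 : ∀ j : Fin 10, ∑ τ ∈ Zt cw (Fin 10), g (τ j) ≤ hat cw g 0 * (1001 / 1000) * Z := by
      intro j
      have b1 := mul_le_mul_of_nonneg_right (G.slot hN hε hg) (by positivity : 0 ≤ (N : ℝ) ^ 10)
      rw [slot_eq hN g j] at b1
      refine le_of_mul_le_mul_left (b1.trans ?_) hA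
      rw [mul_left_comm, ← e1, mul_assoc, mul_assoc (hat cw g 0), ← mul_assoc (1001 / 1000 : ℝ)]
      refine mul_le_mul_of_nonneg_left (mul_le_mul_of_nonneg_right ?_ (by positivity)) h0
      linarith
    have a2 : (∑ τ ∈ Zt cw (Fin 10), (1 - ∏ j, cos (π * x (τ j).succ))) / Z
        ≤ 10 * (hat cw g 0 * (1001 / 1000)) := by
      rw [div_le_iff₀ hZ0]
      refine (sum_le_sum fun τ _ => one_sub_prod_le univ fun j => abs_cos_le_one _).trans ?_
      rw [sum_comm]
      refine (sum_le_card_nsmul _ _ _ fun j _ => a1 j).trans (le_of_eq ?_)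
      simp only [card_univ, Fintype.card_fin, nsmul_eq_mul]
      push_cast
      ring
    have a3 : N * hat cw g 0 ≤ π ^ 2 / 2 * ∑ i : Fin N, x i.succ ^ 2 := by
      rw [hat_zero, mul_div_cancel₀ _ hN'.ne', mul_sum]
      refine sum_le_sum fun i _ => ?_
      have := one_sub_sq_div_two_le_cos (x := π * x i.succ)
      simp only [g]
      linarith
    have a4 := one_sub_sq_div_two_le_cos (x := 2 * π * x 0)
    have a5 := mul_le_mul_of_nonneg_left a2 (by positivity : (0 : ℝ) ≤ N / 2 * (201 / 200))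
    have a6 : 0 ≤ π ^ 2 * ∑ i : Fin N, x i.succ ^ 2 := by positivity
    have a7 : 0 ≤ π ^ 2 * x 0 ^ 2 := by positivity
    rw [r3, r2, EuclideanSpace.real_norm_sq_eq, Fin.sum_univ_succ]
    linarith

theorem f0_le {t : ℝ} (h : |t| ≤ 3 / 2) : t ^ 2 ≤ 5 / 4 * (1 - cos (2 * π * t)) + 10 / 9 ∧
    (|t| < 3 / 4 ∨ 147 / 100 < |t| → t ^ 2 ≤ 5 / 4 * (1 - cos (2 * π * t))) := by
  have e : cos (2 * π * t) = cos (2 * π * |t|) := by
    rw [← cos_abs, abs_mul, abs_of_pos (by positivity : 0 < 2 * π)]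
  rw [e, ← sq_abs]
  have h0 := abs_nonneg t
  generalize |t| = s at *
  rcases le_total s (1 / 2) with h1 | h1
  · have := eight_le (t := s) (by rwa [abs_of_nonneg h0])
    exact ⟨by nlinarith, fun _ => by nlinarith⟩
  · have := eight_le (t := s - 1) (abs_le.2 ⟨by linarith, by linarith⟩)
    rw [mul_sub, mul_one, cos_sub_two_pi] at this
    refine ⟨by nlinarith [sq_nonneg (3 * (s - 1) - 1 / 3)], fun h2 => ?_⟩
    rcases h2 with h2 | h2 <;> nlinarith

/-- the exceptional compact set -/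
def Kset (N : ℕ) : Set (Euc (N + 1)) :=
  {q | 3 / 4 ≤ |q 0| ∧ |q 0| ≤ 147 / 100 ∧ ∑ i : Fin N, q i.succ ^ 2 ≤ 14 / 100}

theorem Kset_compact : IsCompact (Kset N) := by
  have c1 : Continuous fun q : Euc (N + 1) => |q 0| := by fun_prop
  have c2 : Continuous fun q : Euc (N + 1) => ∑ i : Fin N, q i.succ ^ 2 := by fun_prop
  refine Metric.isCompact_of_isClosed_isBounded ((isClosed_le continuous_const c1).inter
    ((isClosed_le c1 continuous_const).inter (isClosed_le c2 continuous_const)))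
    ((Metric.isBounded_closedBall (x := 0) (r := 2)).subset fun q hq => ?_)
  rw [mem_closedBall_zero_iff]
  refine le_of_pow_le_pow_left₀ two_ne_zero zero_le_two ?_
  rw [EuclideanSpace.real_norm_sq_eq, Fin.sum_univ_succ, ← sq_abs (q 0)]
  nlinarith [hq.2.1, hq.2.2, abs_nonneg (q 0)]

theorem Kset_interior (G : Good cw a0 ε) (hε1 : ε ≤ 1 / 2) (hN : (16 : ℝ) ≤ N) :
    Kset N ⊆ interior (voronoi (lat3 cw)) := by
  have k1 : Continuous fun q : Euc (N + 1) => |q 0| := by fun_prop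
  have k2 : Continuous fun q : Euc (N + 1) => ∑ i : Fin N, q i.succ ^ 2 := by fun_prop
  have hO : IsOpen {q : Euc (N + 1) | |q 0| < 148 / 100 ∧
      ∑ i : Fin N, q i.succ ^ 2 < (38 / 100) ^ 2} :=
    (isOpen_lt k1 continuous_const).inter (isOpen_lt k2 continuous_const)
  refine subset_trans (fun q hq => ?_) (interior_maximal ?_ hO)
  · exact ⟨by linarith [hq.2.1], by linarith [hq.2.2]⟩
  rintro q ⟨h1, h2⟩ v ⟨m, a, b1, b2, b3⟩
  refine le_of_pow_le_pow_left₀ two_ne_zero (norm_nonneg _) ?_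
  rw [EuclideanSpace.real_norm_sq_eq, EuclideanSpace.real_norm_sq_eq, Fin.sum_univ_succ,
    Fin.sum_univ_succ]
  simp only [PiLp.sub_apply, b1]
  by_cases hm : ∀ i : Fin N, m i.succ = 0
  · simp only [hm, Int.cast_zero, sub_zero, add_le_add_iff_right]
    rw [Fin.sum_univ_succ] at b3
    simp only [hm, sum_const_zero, add_zero] at b3
    obtain ⟨k, hk⟩ := b3
    rw [hk]
    push_cast
    obtain ⟨c1, c2⟩ := abs_lt.1 h1
    rcases lt_trichotomy k 0 with h | rfl | h
    · have : (k : ℝ) ≤ -1 := by exact_mod_cast Int.le_sub_one_of_lt h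
      nlinarith
    · simp
    · have : (1 : ℝ) ≤ k := by exact_mod_cast h
      nlinarith
  · have hM : 4 ≤ ∑ i : Fin N, (m i.succ : ℝ) ^ 2 := by
      by_cases ha : a = 0
      · push Not at hm
        obtain ⟨i, hi⟩ := hm
        obtain ⟨r, hr⟩ := ZMod.intCast_eq_zero_iff_even.1 ((b2 i).trans (by rw [ha, map_zero]))
        refine le_trans ?_ (single_le_sum (f := fun i : Fin N => (m i.succ : ℝ) ^ 2)
          (fun _ _ => sq_nonneg _) (mem_univ i))
        have c1 : (1 : ℝ) ≤ (r : ℝ) ^ 2 := by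
          rw [← sq_abs]
          exact one_le_pow₀ (by exact_mod_cast Int.one_le_abs (by omega : r ≠ 0))
        simp only [hr]
        push_cast
        linarith
      · have c1 : ∑ i, sg (cw i a) ≤ N / 2 := by
          by_cases ha' : a = a0
          · simp only [ha', G.one, sg_one, sum_const, card_univ, Fintype.card_fin, nsmul_eq_mul]
            linarith
          · have := (abs_le.1 (G.bias a ha ha')).2
            nlinarith
        have c2 : ∑ i, (1 - sg (cw i a)) / 2 ≤ ∑ i : Fin N, (m i.succ : ℝ) ^ 2 := by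
          refine sum_le_sum fun i _ => ?_
          by_cases h : m i.succ = 0
          · rw [← b2, h]; simp
          · have d1 : (1 : ℝ) ≤ (m i.succ : ℝ) ^ 2 := by
              rw [← sq_abs]; exact one_le_pow₀ (by exact_mod_cast Int.one_le_abs h)
            linarith [(abs_le.1 (abs_sg (cw i a)).le).1]
        rw [← sum_div, sum_sub_distrib] at c2
        simp only [sum_const, card_univ, Fintype.card_fin, nsmul_eq_mul] at c2
        linarith
    have c3 : ∑ i : Fin N, (81 / 100 * (m i.succ : ℝ) ^ 2 - 81 / 19 * q i.succ ^ 2)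
        ≤ ∑ i : Fin N, (q i.succ - m i.succ) ^ 2 :=
      sum_le_sum fun i _ => by nlinarith [sq_nonneg (19 / 100 * (m i.succ : ℝ) - q i.succ)]
    rw [sum_sub_distrib, ← mul_sum, ← mul_sum] at c3
    have c4 : q 0 ^ 2 ≤ (148 / 100) ^ 2 := by
      rw [← sq_abs]; exact pow_le_pow_left₀ (abs_nonneg _) h1.le 2
    nlinarith [sq_nonneg (q 0 - m 0)]

theorem low (G : Good cw a0 ε) (hε : 0 ≤ ε) (hεe : ε ≤ (1 / 10 ^ 15) ^ 2) (hN' : (10 : ℝ) ^ 10 ≤ N)
    (x : Euc (N + 1)) :
    dd (lat3 cw) x ^ 2 ≤ 5 / 4 * (1 - cos (2 * π * x 0)) + N / 2 * (201 / 200 *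
        (1 - S10 cw (fun i => cos (π * x i.succ)) / S10 cw fun _ => 1)) ∨
      ∃ v ∈ lat3 cw, x - v ∈ Kset N := by
  have hN0 : (0 : ℝ) < N := lt_of_lt_of_le (by positivity) hN'
  have hN : 0 < N := by exact_mod_cast hN0
  obtain ⟨a, -, ha⟩ := exists_max_image univ (hat cw fun i => cos (π * x i.succ)) ⟨0, mem_univ _⟩
  let c : Fin N → ℤ := fun i => (cw i a).val
  let y : Fin N → ℤ := fun i => c i + 2 * round ((x i.succ - c i) / 2)
  have hy : ∀ i, (y i : ZMod 2) = cw i a := fun i => by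
    simp only [y, c]
    push_cast
    rw [show (2 : ZMod 2) = 0 from rfl]
    simp
  let j : ℤ := -∑ i, y i + 3 * round ((x 0 + (∑ i, y i : ℤ)) / 3)
  have hv := vec_mem cw j y a hy ⟨round ((x 0 + (∑ i, y i : ℤ)) / 3), by simp only [j]; ring⟩
  have ht : |x 0 - j| ≤ 3 / 2 := by
    have := abs_le.1 (abs_sub_round ((x 0 + (∑ i, y i : ℤ)) / 3))
    simp only [j]
    rw [Int.cast_add, Int.cast_neg, Int.cast_mul, Int.cast_ofNat]
    exact abs_le.2 ⟨by linarith, by linarith⟩
  have hp : ∀ i, (x i.succ - y i) ^ 2 ≤ (1 - cos (π * x i.succ) * sg (cw i a)) / 2 := by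
    intro i
    have a1 := eight_le (t := (x i.succ - y i) / 2) (by
      have := abs_le.1 (abs_sub_round ((x i.succ - c i) / 2))
      simp only [y]
      push_cast
      exact abs_le.2 ⟨by linarith, by linarith⟩)
    rw [show 2 * π * ((x i.succ - y i) / 2) = π * x i.succ - y i * π by ring, cos_sub_int_mul_pi,
      ← cos_int_mul_pi, cos_int, hy] at a1
    linarith
  have he := G.est hN hε hεe hN' (f := fun i => cos (π * x i.succ) * sg (cw i a))
    (fun i => by rw [abs_mul, abs_sg, mul_one]; exact abs_cos_le_one _)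
    (fun b => by rw [hat_shift, hat_shift, zero_add]; exact ha _ (mem_univ _))
  rw [S10_shift] at he
  set E := 201 / 200 * (1 - S10 cw (fun i => cos (π * x i.succ)) / S10 cw fun _ => 1)
  set δ := 1 - hat cw (fun i => cos (π * x i.succ) * sg (cw i a)) 0 with hδ
  have hP : ∑ i : Fin N, (x i.succ - y i) ^ 2 ≤ N / 2 * δ := by
    refine (sum_le_sum fun i _ => hp i).trans (le_of_eq ?_)
    rw [hδ, hat_zero, ← sum_div, sum_sub_distrib]
    simp only [sum_const, card_univ, Fintype.card_fin, nsmul_eq_mul]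
    field_simp
  have hP0 : 0 ≤ ∑ i : Fin N, (x i.succ - y i) ^ 2 := sum_nonneg fun _ _ => sq_nonneg _
  have hd := pow_le_pow_left₀ (dd_nonneg _) (dd_le x hv) 2
  rw [EuclideanSpace.real_norm_sq_eq, Fin.sum_univ_succ] at hd
  simp only [PiLp.sub_apply, vec_zero, vec_succ] at hd
  obtain ⟨f1, f2⟩ := f0_le ht
  rw [mul_sub (2 * π), mul_comm (2 * π) (j : ℝ), cos_sub_int_mul_two_pi] at f1 f2
  rcases he with he | he
  · have a1 := mul_le_mul_of_nonneg_left he (by positivity : (0 : ℝ) ≤ N / 2)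
    by_cases h1 : 10 / 9 ≤ 8 * (N / 2 * δ)
    · left; linarith
    · by_cases h2 : |x 0 - j| < 3 / 4 ∨ 147 / 100 < |x 0 - j|
      · left; linarith [f2 h2]
      · push Not at h1 h2
        refine Or.inr ⟨_, hv, ?_, ?_, ?_⟩ <;> simp only [PiLp.sub_apply, vec_zero, vec_succ]
        · exact h2.1
        · exact h2.2
        · linarith
  · left
    have a1 := mul_le_mul_of_nonneg_left he (by positivity : (0 : ℝ) ≤ N / 2)
    rw [mul_add, show (N : ℝ) / 2 * (20 / (9 * N)) = 10 / 9 by field_simp; norm_num] at a1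
    linarith

theorem every : ∃ (n : ℕ) (L : Submodule ℤ (Euc n)), 1 ≤ n ∧ IsLattice L ∧
    (∃ z : dual L → ℝ, IsWeight L z ∧ IsOptimal L z) ∧
    ∀ z : dual L → ℝ, IsWeight L z → IsOptimal L z →
      ∃ x ∈ interior (voronoi L), MostContracted L z x := by
  refine exists_good (ε := 1 / 10 ^ 30) (by positivity) (10 ^ 38) fun A _ _ N cw a0 hN G => ?_
  have hN0 : (0 : ℝ) < N := lt_of_lt_of_le (by positivity) hN
  obtain ⟨b, hb⟩ := lat3_basis cw
  have := nontrivial_of (e := EuclideanSpace.single 0 1) (by simp) (lat3_min cw)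
  refine ⟨N + 1, lat3 cw, by omega, ⟨b, hb⟩, exists_optimal b hb, fun z hw ho => ?_⟩
  obtain ⟨z', h0, hs, h1, h2⟩ := exists_cheap G (by exact_mod_cast hN0) (by positivity) le_rfl
  have hK := Kset_interior G (by norm_num) (le_trans (by norm_num) hN)
  obtain ⟨x, hx, h⟩ := soft b hb hw ho Kset_compact (hK.trans interior_subset)
    (fun h => by have := h.1; norm_num at this) h0 hs (by positivity)
    (lt_of_lt_of_le (by nlinarith [pi_pos]) (lower G hN)) h2 fun x => by
      rw [h1]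
      exact low G (by positivity) (by norm_num) (le_trans (by norm_num) hN) x
  exact ⟨x, hK hx, h⟩

end Pool.Agent.Lib.MP_507a1e_gt.Ev
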